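import Pool.Agent.N303.SH.D

set_option autoImplicit false

/-! The Funk-Hecke formula. -/

open MeasureTheory Metric Set Filter Topology
open scoped ENNReal RealInnerProductSpace Pointwise

namespace Pool.Agent.N303.SH

variable {n : ℕ}

lemma refl_swap {x y : E n} (h : ‖x‖ = ‖y‖) : (ℝ ∙ (x - y))ᗮ.reflection x = y :=
  Submodule.reflection_sub h

lemma refl_fix {w z : E n} (h : ⟪w, z⟫ = 0) : (ℝ ∙ w)ᗮ.reflection z = z := by
  apply Submodule.reflection_mem_subspace_eq_self
  rw [Submodule.mem_orthogonal_singleton_iff_inner_right]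
  exact h

lemma exists_rot2 {u v u' v' : E n} (hu : ‖u‖ = 1) (hv : ‖v‖ = 1) (huv : ⟪u, v⟫ = 0)
    (hu' : ‖u'‖ = 1) (hv' : ‖v'‖ = 1) (huv' : ⟪u', v'⟫ = 0) :
    ∃ T : E n ≃ₗᵢ[ℝ] E n, T u = u' ∧ T v = v' := by
  set T1 : E n ≃ₗᵢ[ℝ] E n := (ℝ ∙ (u - u'))ᗮ.reflection with hT1
  have h1 : T1 u = u' := refl_swap (by rw [hu, hu'])
  set T2 : E n ≃ₗᵢ[ℝ] E n := (ℝ ∙ (T1 v - v'))ᗮ.reflection with hT2
  have h2 : T2 (T1 v) = v' := refl_swap (by rw [T1.norm_map, hv, hv'])
  have h3 : T2 u' = u' := by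
    apply refl_fix
    rw [inner_sub_left, real_inner_comm u' v', huv', ← h1, T1.inner_map_map, real_inner_comm, huv]
    simp
  refine ⟨T1.trans T2, ?_, ?_⟩
  · rw [LinearIsometryEquiv.trans_apply, h1, h3]
  · rw [LinearIsometryEquiv.trans_apply, h2]

/-- two orthonormal vectors -/
structure ON2 (u v : E n) : Prop where
  hu : ‖u‖ = 1
  hv : ‖v‖ = 1
  huv : ⟪u, v⟫ = 0

variable {u v : E n} (h : ON2 u v)

/-- moments -/
noncomputable def mo (u v : E n) (φ : ℝ → ℝ) (i l : ℕ) : ℝ :=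
  ∫ x : S n, φ ⟪u, (x : E n)⟫ * ⟪u, (x : E n)⟫ ^ l * ⟪v, (x : E n)⟫ ^ i ∂(sg n)

include h in
lemma mo_odd (φ : ℝ → ℝ) {i : ℕ} (hi : Odd i) (l : ℕ) : mo u v φ i l = 0 := by
  set T : E n ≃ₗᵢ[ℝ] E n := (ℝ ∙ v)ᗮ.reflection with hT
  have hTv : T v = -v := Submodule.reflection_orthogonalComplement_singleton_eq_neg v
  have hTu : T u = u := refl_fix (by rw [real_inner_comm]; exact h.huv)
  have hTT : ∀ x y, ⟪x, T y⟫ = ⟪T x, y⟫ := by
    intro x y
    rw [← T.inner_map_map x (T y)]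
    congr 1
    exact Submodule.reflection_reflection _ y
  have h1 := rot_int T (fun x : S n => φ ⟪u, (x : E n)⟫ * ⟪u, (x : E n)⟫ ^ l * ⟪v, (x : E n)⟫ ^ i)
  have h2 : ∀ x : S n, φ ⟪u, (rot T x : E n)⟫ * ⟪u, (rot T x : E n)⟫ ^ l *
      ⟪v, (rot T x : E n)⟫ ^ i = -(φ ⟪u, (x : E n)⟫ * ⟪u, (x : E n)⟫ ^ l * ⟪v, (x : E n)⟫ ^ i) := by
    intro x
    rw [rot_coe, hTT, hTT, hTu, hTv, inner_neg_left, hi.neg_pow]
    ring
  simp only [h2] at h1
  rw [integral_neg] at h1
  unfold mo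
  linarith

include h in
lemma mo_gen (φ : ℝ → ℝ) (i l : ℕ) {w b : E n} (hw : ‖w‖ = 1) (hwb : ⟪w, b⟫ = 0) :
    ∫ x : S n, φ ⟪w, (x : E n)⟫ * ⟪w, (x : E n)⟫ ^ l * ⟪b, (x : E n)⟫ ^ i ∂(sg n) =
      ‖b‖ ^ i * mo u v φ i l := by
  have main : ∀ b' : E n, ‖b'‖ = 1 → ⟪w, b'⟫ = 0 →
      ∫ x : S n, φ ⟪w, (x : E n)⟫ * ⟪w, (x : E n)⟫ ^ l * ⟪b', (x : E n)⟫ ^ i ∂(sg n) =
        mo u v φ i l := by
    intro b' hb' hwb'
    obtain ⟨T, h1, h2⟩ := exists_rot2 h.hu h.hv h.huv hw hb' hwb'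
    rw [← rot_int T]
    unfold mo
    simp only [rot_coe, ← h1, ← h2, T.inner_map_map]
  by_cases hb : b = 0
  · subst hb
    rcases Nat.eq_zero_or_pos i with hi | hi
    · subst hi
      have := main
      obtain ⟨T, h1, h2⟩ := exists_rot2 h.hu h.hv h.huv h.hu h.hv h.huv
      simp only [pow_zero, mul_one, one_mul]
      set T1 : E n ≃ₗᵢ[ℝ] E n := (ℝ ∙ (u - w))ᗮ.reflection with hT1
      have h1 : T1 u = w := refl_swap (by rw [h.hu, hw])
      rw [← rot_int T1]
      unfold mo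
      simp only [rot_coe, ← h1, T1.inner_map_map, pow_zero, mul_one]
    · simp [hi.ne']
  · have hb0 : ‖b‖ ≠ 0 := norm_ne_zero_iff.2 hb
    have h3 := main (‖b‖⁻¹ • b) (by rw [norm_smul, norm_inv, norm_norm, inv_mul_cancel₀ hb0])
      (by rw [inner_smul_right, hwb, mul_zero])
    rw [← h3, ← integral_const_mul]
    congr 1
    ext x
    rw [inner_smul_left, mul_pow, conj_trivial, inv_pow]
    field_simp

/-- the operator with kernel `φ(⟨ω, x⟩)` -/
noncomputable def To (φ : ℝ → ℝ) (f : C(S n, ℝ)) (w : S n) : ℝ :=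
  ∫ x : S n, φ ⟪(w : E n), (x : E n)⟫ * f x ∂(sg n)

/-- the eigenvalue -/
noncomputable def la (u v : E n) (φ : ℝ → ℝ) (j : ℕ) : ℝ :=
  ∑ i ∈ Finset.range (j + 1), (j.choose i : ℝ) * (if Even i then (-1) ^ (i / 2) else 0) *
    mo u v φ i (j - i)

/-- polynomials of degree less than `j` -/
noncomputable def Lw (n : ℕ) : ℕ → Submodule ℝ C(S n, ℝ)
  | 0 => ⊥
  | j + 1 => P n j

lemma mem_Lw {m j : ℕ} (hm : m < j) {f : C(S n, ℝ)} (hf : f ∈ P n m) : f ∈ Lw n j := by
  cases j with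
  | zero => exact absurd hm (Nat.not_lt_zero m)
  | succ j => exact P_mono (by omega) hf

lemma Lw_mono {i j : ℕ} (hij : i ≤ j) {f : C(S n, ℝ)} (hf : f ∈ Lw n i) : f ∈ Lw n j := by
  cases i with
  | zero =>
    have : f = 0 := hf
    rw [this]; exact Submodule.zero_mem _
  | succ i => exact mem_Lw (by omega) hf

lemma Lw_perp {j : ℕ} {q f : C(S n, ℝ)} (hq : q ∈ Lw n j) (hf : f ∈ H n j) : ip q f = 0 := by
  cases j with
  | zero =>
    have : q = 0 := hq
    rw [this, ip_comm, ip_zero]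
  | succ j => exact H_perp (Nat.lt_succ_self j) hq hf

lemma ridge_aux (L : C(S n, ℝ)) (hL : L ∈ P n 1) (A : ℝ) {p j : ℕ} (hp : 2 * p ≤ j) :
    L ^ (j - 2 * p) * (algebraMap ℝ _ A - L ^ 2) ^ p - (-1) ^ p * L ^ j ∈ Lw n j := by
  rcases Nat.eq_zero_or_pos p with h0 | h0
  · subst h0
    simp
  · have e1 : (-1 : C(S n, ℝ)) ^ p * L ^ j = L ^ (j - 2 * p) * (-L ^ 2) ^ p := by
      have : L ^ j = L ^ (j - 2 * p) * (L ^ 2) ^ p := by
        rw [← pow_mul, ← pow_add]; congr 1; omega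
      rw [this, neg_pow (L ^ 2) p]; ring
    have e2 := (Commute.all (algebraMap ℝ C(S n, ℝ) A - L ^ 2) (-L ^ 2)).mul_geom_sum₂ p
    rw [e1, ← mul_sub, ← e2]
    have e3 : algebraMap ℝ C(S n, ℝ) A - L ^ 2 - -L ^ 2 = algebraMap ℝ C(S n, ℝ) A := by ring
    rw [e3]
    have hx : algebraMap ℝ C(S n, ℝ) A - L ^ 2 ∈ P n 2 :=
      Submodule.sub_mem _ (const_P 2 A) (by simpa using pow_P hL 2)
    have hy : -L ^ 2 ∈ P n 2 := Submodule.neg_mem _ (by simpa using pow_P hL 2)
    have h4 : (algebraMap ℝ C(S n, ℝ) A * ∑ i ∈ Finset.range p,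
        (algebraMap ℝ C(S n, ℝ) A - L ^ 2) ^ i * (-L ^ 2) ^ (p - 1 - i)) ∈ P n (2 * (p - 1)) := by
      have : (∑ i ∈ Finset.range p,
        (algebraMap ℝ C(S n, ℝ) A - L ^ 2) ^ i * (-L ^ 2) ^ (p - 1 - i)) ∈ P n (2 * (p - 1)) := by
        refine Submodule.sum_mem _ fun i hi => ?_
        have hi' := Finset.mem_range.1 hi
        have := P_mul (pow_P hx i) (pow_P hy (p - 1 - i))
        exact P_mono (by omega) this
      have h5 := P_mul (const_P 0 A) this
      exact P_mono (by omega) h5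
    have h6 := P_mul (pow_P hL (j - 2 * p)) h4
    exact mem_Lw (m := 1 * (j - 2 * p) + 2 * (p - 1)) (by omega) h6

include h in
lemma To_pow {φ : ℝ → ℝ} (hφ : Continuous φ) (a : E n) (j : ℕ) :
    ∃ G ∈ Lw n j, ∀ w, To φ (lin a ^ j) w = la u v φ j * (lin a ^ j) w + G w := by
  set L : C(S n, ℝ) := lin a with hL
  have hLP : L ∈ P n 1 := lin_P a
  refine ⟨∑ i ∈ Finset.range (j + 1), if Even i then ((j.choose i : ℝ) * mo u v φ i (j - i)) •
    (L ^ (j - 2 * (i / 2)) * (algebraMap ℝ _ (‖a‖ ^ 2) - L ^ 2) ^ (i / 2) -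
      (-1) ^ (i / 2) * L ^ j) else 0, ?_, ?_⟩
  · refine Submodule.sum_mem _ fun i hi => ?_
    split_ifs with hi2
    · refine Submodule.smul_mem _ _ (ridge_aux L hLP _ ?_)
      have := Finset.mem_range.1 hi
      omega
    · exact Submodule.zero_mem _
  · intro w
    set s : ℝ := ⟪a, (w : E n)⟫ with hs
    set b : E n := a - s • (w : E n) with hb
    have hwb : ⟪(w : E n), b⟫ = 0 := by
      rw [hb, inner_sub_right, inner_smul_right, real_inner_self_eq_norm_sq, S_norm,
        real_inner_comm, hs]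
      ring
    have hbn : ‖b‖ ^ 2 = ‖a‖ ^ 2 - s ^ 2 := by
      rw [hb, norm_sub_sq_real, norm_smul, inner_smul_right, S_norm, Real.norm_eq_abs]
      rw [mul_one, sq_abs, ← hs]; ring
    have h1 : ∀ x : S n, (L ^ j) x = ∑ i ∈ Finset.range (j + 1), ⟪b, (x : E n)⟫ ^ i *
        (s * ⟪(w : E n), (x : E n)⟫) ^ (j - i) * (j.choose i : ℝ) := by
      intro x
      rw [← add_pow, ContinuousMap.pow_apply, hL, lin_apply]
      congr 1
      have : a = b + s • (w : E n) := by rw [hb]; abel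
      conv_lhs => rw [this, inner_add_left, inner_smul_left]
      rfl
    have hci : ∀ i, Integrable (fun x : S n => φ ⟪(w : E n), (x : E n)⟫ *
        ⟪(w : E n), (x : E n)⟫ ^ (j - i) * ⟪b, (x : E n)⟫ ^ i) (sg n) := by
      intro i
      have hc : Continuous (fun x : S n => φ ⟪(w : E n), (x : E n)⟫ *
        ⟪(w : E n), (x : E n)⟫ ^ (j - i) * ⟪b, (x : E n)⟫ ^ i) := by fun_prop
      exact int_c ⟨_, hc⟩
    have h2 : To φ (L ^ j) w = ∑ i ∈ Finset.range (j + 1), (s ^ (j - i) * (j.choose i : ℝ)) *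
        (‖b‖ ^ i * mo u v φ i (j - i)) := by
      unfold To
      have e1 : ∀ x : S n, φ ⟪(w : E n), (x : E n)⟫ * (L ^ j) x = ∑ i ∈ Finset.range (j + 1),
          (s ^ (j - i) * (j.choose i : ℝ)) * (φ ⟪(w : E n), (x : E n)⟫ *
        ⟪(w : E n), (x : E n)⟫ ^ (j - i) * ⟪b, (x : E n)⟫ ^ i) := by
        intro x
        rw [h1 x, Finset.mul_sum]
        refine Finset.sum_congr rfl fun i _ => ?_
        rw [mul_pow]; ring
      simp only [e1]
      rw [integral_finsetSum _ fun i _ => (hci i).const_mul _]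
      refine Finset.sum_congr rfl fun i _ => ?_
      rw [integral_const_mul, mo_gen h φ i (j - i) (S_norm w) hwb]
    rw [h2]
    unfold la
    rw [ContinuousMap.sum_apply, Finset.sum_mul, ← Finset.sum_add_distrib]
    refine Finset.sum_congr rfl fun i hi => ?_
    have hij : i ≤ j := by have := Finset.mem_range.1 hi; omega
    by_cases hi2 : Even i
    · rw [if_pos hi2, if_pos hi2]
      obtain ⟨p, hp⟩ := hi2
      have hp2 : i / 2 = p := by omega
      have e3 : ‖b‖ ^ i = (‖a‖ ^ 2 - s ^ 2) ^ p := by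
        rw [hp, ← two_mul, pow_mul, hbn]
      rw [hp2, e3]
      have hji : j - i = j - 2 * p := by omega
      simp only [ContinuousMap.smul_apply, ContinuousMap.sub_apply, ContinuousMap.mul_apply,
        ContinuousMap.pow_apply, smul_eq_mul, ContinuousMap.neg_apply, ContinuousMap.one_apply]
      have e4 : (algebraMap ℝ C(S n, ℝ) (‖a‖ ^ 2)) w = ‖a‖ ^ 2 := rfl
      have e5 : L w = s := rfl
      rw [e4, e5, hji]
      ring
    · rw [if_neg hi2, if_neg hi2, mo_odd h φ (Nat.not_even_iff_odd.1 hi2)]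
      simp

lemma To_add {φ : ℝ → ℝ} (hφ : Continuous φ) (f g : C(S n, ℝ)) (w : S n) :
    To φ (f + g) w = To φ f w + To φ g w := by
  unfold To
  have i1 : ∀ f : C(S n, ℝ), Integrable (fun x : S n => φ ⟪(w : E n), (x : E n)⟫ * f x) (sg n) :=
    fun f => by
      have hc : Continuous (fun x : S n => φ ⟪(w : E n), (x : E n)⟫ * f x) := by fun_prop
      exact int_c ⟨_, hc⟩
  rw [← integral_add (i1 f) (i1 g)]
  simp only [ContinuousMap.add_apply, mul_add]

lemma To_smul (φ : ℝ → ℝ) (c : ℝ) (f : C(S n, ℝ)) (w : S n) :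
    To φ (c • f) w = c * To φ f w := by
  unfold To
  rw [← integral_const_mul]
  congr 1
  ext x
  simp only [ContinuousMap.smul_apply, smul_eq_mul]
  ring

include h in
lemma To_P {φ : ℝ → ℝ} (hφ : Continuous φ) (j : ℕ) {f : C(S n, ℝ)} (hf : f ∈ P n j) :
    ∃ G ∈ Lw n j, ∀ w, To φ f w = la u v φ j * f w + G w := by
  let W : Submodule ℝ C(S n, ℝ) :=
    { carrier := {f | ∃ G ∈ Lw n j, ∀ w, To φ f w = la u v φ j * f w + G w}
      add_mem' := by
        rintro f g ⟨F, hF, hF2⟩ ⟨G, hG, hG2⟩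
        refine ⟨F + G, Submodule.add_mem _ hF hG, fun w => ?_⟩
        rw [To_add hφ, hF2, hG2]
        simp only [ContinuousMap.add_apply]
        ring
      zero_mem' := by
        refine ⟨0, Submodule.zero_mem _, fun w => ?_⟩
        unfold To
        simp
      smul_mem' := by
        rintro c f ⟨F, hF, hF2⟩
        refine ⟨c • F, Submodule.smul_mem _ _ hF, fun w => ?_⟩
        rw [To_smul, hF2]
        simp only [ContinuousMap.smul_apply, smul_eq_mul]
        ring }
  have hle : P n j ≤ W := by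
    apply P_le_R
    intro i hi a
    obtain ⟨G, hG, hG2⟩ := To_pow h hφ a i
    rcases hi.lt_or_eq with hlt | heq
    · refine ⟨(la u v φ i - la u v φ j) • lin a ^ i + G, Submodule.add_mem _
        (Submodule.smul_mem _ _ (mem_Lw (m := 1 * i) (by omega) (pow_P (lin_P a) i)))
          (Lw_mono hi hG), fun w => ?_⟩
      rw [hG2]
      simp only [ContinuousMap.add_apply, ContinuousMap.smul_apply, smul_eq_mul]
      ring
    · subst heq
      exact ⟨G, hG, hG2⟩
  exact hle hf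

lemma To_symm {φ : ℝ → ℝ} (hφ : Continuous φ) (f g : C(S n, ℝ)) :
    ∫ w, To φ f w * g w ∂(sg n) = ∫ w, f w * To φ g w ∂(sg n) := by
  unfold To
  have h1 : Integrable (Function.uncurry fun w x : S n =>
      φ ⟪(w : E n), (x : E n)⟫ * f x * g w) ((sg n).prod (sg n)) := by
    have hc : Continuous (Function.uncurry fun w x : S n =>
      φ ⟪(w : E n), (x : E n)⟫ * f x * g w) := by
      unfold Function.uncurry
      fun_prop
    exact hc.integrable_of_hasCompactSupport (HasCompactSupport.of_compactSpace _)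
  have h2 := integral_integral_swap h1
  simp only [← integral_mul_const, ← integral_const_mul]
  rw [h2]
  congr 1
  ext w
  congr 1
  ext x
  rw [real_inner_comm]
  ring

include h in
theorem FH {φ : ℝ → ℝ} (hφ : Continuous φ) (k : ℕ) {f : C(S n, ℝ)} (hf : f ∈ H n k) (w : S n) :
    To φ f w = la u v φ k * f w := by
  obtain ⟨G, hG, hG2⟩ := To_P h hφ k hf.1
  have h0 : G = 0 := by
    apply ip_self
    have h1 : ∫ w, To φ f w * G w ∂(sg n) = ip G G := by
      have e1 : ∀ w, To φ f w * G w = la u v φ k * (G w * f w) + G w * G w := by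
        intro w; rw [hG2]; ring
      simp only [e1]
      rw [integral_add ((int_mul G f).const_mul _) (int_mul G G), integral_const_mul]
      change la u v φ k * ip G f + ip G G = _
      rw [Lw_perp hG hf, mul_zero, zero_add]
    have h2 : ∫ w, f w * To φ G w ∂(sg n) = 0 := by
      cases k with
      | zero =>
        have : G = 0 := hG
        subst this
        unfold To
        simp
      | succ k =>
        obtain ⟨F, hF, hF2⟩ := To_P h hφ k (show G ∈ P n k from hG)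
        have hF3 : F ∈ P n k := by
          cases k with
          | zero =>
            have : F = 0 := hF
            rw [this]; exact Submodule.zero_mem _
          | succ k => exact P_mono (by omega) (show F ∈ P n k from hF)
        have e1 : ∀ w, f w * To φ G w = la u v φ k * (G w * f w) + F w * f w := by
          intro w; rw [hF2]; ring
        simp only [e1]
        rw [integral_add ((int_mul G f).const_mul _) (int_mul F f), integral_const_mul]
        change la u v φ k * ip G f + ip F f = _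
        rw [Lw_perp hG hf, H_perp (Nat.lt_succ_self k) hF3 hf]
        simp
    rw [← h1, To_symm hφ, h2]
  rw [hG2, h0]
  simp

/-- the complex eigenvalue -/
noncomputable def Ik (u v : E n) (k : ℕ) (r : ℝ) : ℂ :=
  ∫ x : S n, Complex.exp (-(2 * Real.pi * (r * ⟪u, (x : E n)⟫) : ℝ) * Complex.I) *
    ((⟪u, (x : E n)⟫ : ℝ) + (⟪v, (x : E n)⟫ : ℝ) * Complex.I) ^ k ∂(sg n)

lemma int_cc {f : S n → ℂ} (hf : Continuous f) : Integrable f (sg n) :=
  hf.integrable_of_hasCompactSupport (HasCompactSupport.of_compactSpace f)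

include h in
lemma la_eq {φ : ℝ → ℝ} (hφ : Continuous φ) (k : ℕ) : (la u v φ k : ℂ) =
    ∫ x : S n, (φ ⟪u, (x : E n)⟫ : ℂ) *
      ((⟪u, (x : E n)⟫ : ℝ) + (⟪v, (x : E n)⟫ : ℝ) * Complex.I) ^ k ∂(sg n) := by
  have h1 : ∀ x : S n, (φ ⟪u, (x : E n)⟫ : ℂ) *
      ((⟪u, (x : E n)⟫ : ℝ) + (⟪v, (x : E n)⟫ : ℝ) * Complex.I) ^ k =
      ∑ i ∈ Finset.range (k + 1), (Complex.I ^ i * (k.choose i : ℂ)) *
        ((φ ⟪u, (x : E n)⟫ * ⟪u, (x : E n)⟫ ^ (k - i) * ⟪v, (x : E n)⟫ ^ i : ℝ) : ℂ) := by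
    intro x
    rw [add_comm, add_pow, Finset.mul_sum]
    refine Finset.sum_congr rfl fun i _ => ?_
    push_cast
    rw [mul_pow]
    ring
  simp only [h1]
  rw [integral_finsetSum]
  · unfold la
    rw [Complex.ofReal_sum]
    refine Finset.sum_congr rfl fun i _ => ?_
    rw [integral_const_mul, integral_complex_ofReal]
    change _ = _ * ((mo u v φ i (k - i) : ℝ) : ℂ)
    push_cast
    by_cases hi : Even i
    · rw [if_pos hi]
      obtain ⟨p, hp⟩ := hi
      have hp2 : i / 2 = p := by omega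
      have e : Complex.I ^ i = (-1) ^ p := by
        rw [hp, ← two_mul, pow_mul, Complex.I_sq]
      rw [hp2, e]
      push_cast
      ring
    · rw [mo_odd h φ (Nat.not_even_iff_odd.1 hi)]
      simp
  · intro i _
    apply Integrable.const_mul
    apply int_cc
    fun_prop

include h in
theorem FHc (k : ℕ) {f : C(S n, ℝ)} (hf : f ∈ H n k) (r : ℝ) (w : S n) :
    ∫ x : S n, Complex.exp (-(2 * Real.pi * ⟪(x : E n), r • (w : E n)⟫ : ℝ) * Complex.I) * (f x : ℂ)
      ∂(sg n) = Ik u v k r * f w := by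
  have hc : Continuous fun t : ℝ => Real.cos (2 * Real.pi * (r * t)) := by fun_prop
  have hs : Continuous fun t : ℝ => Real.sin (2 * Real.pi * (r * t)) := by fun_prop
  have h1 := FH h hc k hf w
  have h2 := FH h hs k hf w
  have hexp : ∀ t : ℝ, Complex.exp (-(2 * Real.pi * t : ℝ) * Complex.I) =
      (Real.cos (2 * Real.pi * t) : ℂ) - (Real.sin (2 * Real.pi * t) : ℂ) * Complex.I := by
    intro t
    rw [← Complex.ofReal_neg, Complex.exp_mul_I, ← Complex.ofReal_cos, ← Complex.ofReal_sin,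
      Real.cos_neg, Real.sin_neg]
    push_cast
    ring
  have e1 : ∀ x : S n, Complex.exp (-(2 * Real.pi * ⟪(x : E n), r • (w : E n)⟫ : ℝ) * Complex.I) *
      (f x : ℂ) = ((Real.cos (2 * Real.pi * (r * ⟪(w : E n), (x : E n)⟫)) * f x : ℝ) : ℂ) -
        ((Real.sin (2 * Real.pi * (r * ⟪(w : E n), (x : E n)⟫)) * f x : ℝ) : ℂ) * Complex.I := by
    intro x
    rw [inner_smul_right, real_inner_comm, hexp]
    push_cast
    ring
  have i1 : Integrable (fun x : S n => ((Real.cos (2 * Real.pi * (r * ⟪(w : E n), (x : E n)⟫)) *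
      f x : ℝ) : ℂ)) (sg n) := int_cc (by fun_prop)
  have i2 : Integrable (fun x : S n => ((Real.sin (2 * Real.pi * (r * ⟪(w : E n), (x : E n)⟫)) *
      f x : ℝ) : ℂ) * Complex.I) (sg n) := int_cc (by fun_prop)
  have e2 : Ik u v k r = (la u v (fun t => Real.cos (2 * Real.pi * (r * t))) k : ℂ) -
      (la u v (fun t => Real.sin (2 * Real.pi * (r * t))) k : ℂ) * Complex.I := by
    rw [la_eq h hc, la_eq h hs, ← integral_mul_const, ← integral_sub]
    · unfold Ik
      congr 1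
      ext x
      rw [hexp]
      ring
    · exact int_cc (by fun_prop)
    · exact int_cc (by fun_prop)
  simp only [e1]
  rw [integral_sub i1 i2, integral_mul_const, integral_complex_ofReal, integral_complex_ofReal, e2]
  unfold To at h1 h2
  rw [h1, h2]
  push_cast
  ring

end Pool.Agent.N303.SH
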