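import Mathlib

set_option autoImplicit false

/-! The unit sphere, its surface measure, rotations, restrictions of polynomials. -/

open MeasureTheory Metric Set Filter Topology
open scoped ENNReal RealInnerProductSpace Pointwise

namespace Pool.Agent.N303.SH

abbrev E (n : ℕ) := EuclideanSpace ℝ (Fin n)
abbrev S (n : ℕ) := sphere (0 : E n) 1
noncomputable abbrev sg (n : ℕ) : Measure (S n) := (volume : Measure (E n)).toSphere

variable {n : ℕ}

lemma S_norm (x : S n) : ‖(x : E n)‖ = 1 := mem_sphere_zero_iff_norm.1 x.2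

noncomputable def rot (R : E n ≃ₗᵢ[ℝ] E n) (x : S n) : S n :=
  ⟨R x, by rw [mem_sphere_zero_iff_norm, R.norm_map]; exact S_norm x⟩

@[simp] lemma rot_coe (R : E n ≃ₗᵢ[ℝ] E n) (x : S n) : (rot R x : E n) = R x := rfl

lemma rot_cont (R : E n ≃ₗᵢ[ℝ] E n) : Continuous (rot R) :=
  Continuous.subtype_mk (R.continuous.comp continuous_subtype_val) _

lemma rot_symm (R : E n ≃ₗᵢ[ℝ] E n) (x : S n) : rot R (rot R.symm x) = x := by
  apply Subtype.ext; simp

lemma rot_symm' (R : E n ≃ₗᵢ[ℝ] E n) (x : S n) : rot R.symm (rot R x) = x := by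
  apply Subtype.ext; simp

lemma rot_mp (R : E n ≃ₗᵢ[ℝ] E n) : MeasurePreserving (rot R) (sg n) (sg n) := by
  refine ⟨(rot_cont R).measurable, ?_⟩
  ext s hs
  have hm := (rot_cont R).measurable
  rw [Measure.map_apply hm hs, Measure.toSphere_apply' _ (hm hs), Measure.toSphere_apply' _ hs]
  congr 1
  have h1 : Ioo (0:ℝ) 1 • ((↑) '' (rot R ⁻¹' s) : Set (E n)) =
      R ⁻¹' (Ioo (0:ℝ) 1 • ((↑) '' s : Set (E n))) := by
    ext v
    simp only [mem_preimage, Set.mem_smul]
    constructor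
    · rintro ⟨t, ht, _, ⟨x, hx, rfl⟩, rfl⟩
      exact ⟨t, ht, _, ⟨rot R x, hx, rfl⟩, by simp⟩
    · rintro ⟨t, ht, _, ⟨x, hx, rfl⟩, h⟩
      refine ⟨t, ht, _, ⟨rot R.symm x, ?_, rfl⟩, ?_⟩
      · have : rot R (rot R.symm x) = x := rot_symm R x
        rw [mem_preimage, this]; exact hx
      · apply R.injective
        rw [← h]; simp
  rw [h1]
  exact R.measurePreserving.measure_preimage_emb R.toHomeomorph.measurableEmbedding _

noncomputable def rotE (R : E n ≃ₗᵢ[ℝ] E n) : S n ≃ₜ S n where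
  toFun := rot R
  invFun := rot R.symm
  left_inv := rot_symm' R
  right_inv := rot_symm R
  continuous_toFun := rot_cont R
  continuous_invFun := rot_cont R.symm

lemma rot_int {F : Type*} [NormedAddCommGroup F] [NormedSpace ℝ F] (R : E n ≃ₗᵢ[ℝ] E n)
    (f : S n → F) : ∫ x, f (rot R x) ∂(sg n) = ∫ x, f x ∂(sg n) :=
  (rot_mp R).integral_comp (rotE R).measurableEmbedding f

/-- coordinates as continuous functions on the sphere -/
noncomputable def xc (i : Fin n) : C(S n, ℝ) := ⟨fun x => (x : E n) i, by fun_prop⟩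

/-- linear functions on the sphere -/
noncomputable def lin (a : E n) : C(S n, ℝ) := ⟨fun x => ⟪a, (x : E n)⟫, by fun_prop⟩

@[simp] lemma xc_apply (i : Fin n) (x : S n) : xc i x = (x : E n) i := rfl
@[simp] lemma lin_apply (a : E n) (x : S n) : lin a x = ⟪a, (x : E n)⟫ := rfl

noncomputable def vC : MvPolynomial (Fin n) ℝ →ₐ[ℝ] C(S n, ℝ) := MvPolynomial.aeval xc

lemma vC_apply (p : MvPolynomial (Fin n) ℝ) (x : S n) :
    vC p x = MvPolynomial.eval (fun i => (x : E n) i) p := by
  unfold vC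
  induction p using MvPolynomial.induction_on with
  | C a => simp
  | add p q hp hq => simp [hp, hq]
  | mul_X p i hp => simp [hp]

/-- restrictions of polynomials of degree at most `m` -/
noncomputable def P (n m : ℕ) : Submodule ℝ C(S n, ℝ) :=
  (MvPolynomial.restrictTotalDegree (Fin n) ℝ m).map (vC (n := n)).toLinearMap

lemma mem_P {m : ℕ} {f : C(S n, ℝ)} : f ∈ P n m ↔ ∃ p : MvPolynomial (Fin n) ℝ,
    p.totalDegree ≤ m ∧ vC p = f := by
  unfold P
  rw [Submodule.mem_map]
  simp only [MvPolynomial.mem_restrictTotalDegree, AlgHom.toLinearMap_apply]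

instance (m : ℕ) : FiniteDimensional ℝ (P n m) := by
  unfold P; infer_instance

lemma P_mono {m k : ℕ} (h : m ≤ k) : P n m ≤ P n k := by
  intro f hf
  rw [mem_P] at *
  obtain ⟨p, hp, rfl⟩ := hf
  exact ⟨p, hp.trans h, rfl⟩

lemma P_mul {m k : ℕ} {f g : C(S n, ℝ)} (hf : f ∈ P n m) (hg : g ∈ P n k) : f * g ∈ P n (m + k) := by
  rw [mem_P] at *
  obtain ⟨p, hp, rfl⟩ := hf
  obtain ⟨q, hq, rfl⟩ := hg
  exact ⟨p * q, (MvPolynomial.totalDegree_mul _ _).trans (add_le_add hp hq), map_mul _ _ _⟩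

lemma const_P (m : ℕ) (c : ℝ) : algebraMap ℝ C(S n, ℝ) c ∈ P n m := by
  rw [mem_P]
  refine ⟨MvPolynomial.C c, by simp, ?_⟩
  rw [← MvPolynomial.algebraMap_eq]
  exact vC.commutes c

lemma one_P (m : ℕ) : (1 : C(S n, ℝ)) ∈ P n m := by
  have := const_P (n := n) m 1
  rwa [map_one] at this

lemma xc_P (i : Fin n) : xc i ∈ P n 1 := by
  rw [mem_P]
  refine ⟨MvPolynomial.X i, (MvPolynomial.totalDegree_X (R := ℝ) i).le, ?_⟩
  simp [vC]

lemma lin_eq (a : E n) : lin a = ∑ i, a i • xc i := by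
  ext x
  simp [PiLp.inner_apply, mul_comm]

lemma xc_eq (i : Fin n) : (xc i : C(S n, ℝ)) = lin (EuclideanSpace.single i (1:ℝ)) := by
  ext x
  simp [EuclideanSpace.inner_single_left]

lemma lin_P (a : E n) : lin a ∈ P n 1 := by
  rw [lin_eq]
  exact Submodule.sum_mem _ fun i _ => Submodule.smul_mem _ _ (xc_P i)

lemma pow_P {m : ℕ} {f : C(S n, ℝ)} (hf : f ∈ P n m) (k : ℕ) : f ^ k ∈ P n (m * k) := by
  induction k with
  | zero => rw [pow_zero]; exact one_P _
  | succ k ih => rw [pow_succ, Nat.mul_succ]; exact P_mul ih hf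

/-- coefficients of a polynomial curve in a subspace lie in the subspace -/
lemma coef_mem {V : Type*} [AddCommGroup V] [Module ℝ V] (W : Submodule ℝ V) (N : ℕ) (v : ℕ → V)
    (h : ∀ t : ℝ, ∑ i ∈ Finset.range N, t ^ i • v i ∈ W) : ∀ i < N, v i ∈ W := by
  intro i hi
  rw [← Submodule.Quotient.mk_eq_zero, ← Submodule.mkQ_apply,
    ← Module.forall_dual_apply_eq_zero_iff ℝ]
  intro φ
  set p : Polynomial ℝ := ∑ i ∈ Finset.range N, Polynomial.monomial i (φ (W.mkQ (v i))) with hp
  have h0 : p = 0 := by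
    apply Polynomial.funext
    intro t
    have h1 : W.mkQ (∑ i ∈ Finset.range N, t ^ i • v i) = 0 := by
      rw [Submodule.mkQ_apply, Submodule.Quotient.mk_eq_zero]; exact h t
    have h2 := congrArg φ h1
    rw [map_zero, map_sum, map_sum] at h2
    rw [hp, Polynomial.eval_finsetSum, Polynomial.eval_zero, ← h2]
    refine Finset.sum_congr rfl fun j _ => ?_
    rw [Polynomial.eval_monomial, map_smul, map_smul, smul_eq_mul, mul_comm]
  have h3 : p.coeff i = φ (W.mkQ (v i)) := by
    rw [hp, Polynomial.finsetSum_coeff]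
    simp only [Polynomial.coeff_monomial]
    rw [Finset.sum_ite_eq' (Finset.range N) i]
    simp [hi]
  rw [← h3, h0, Polynomial.coeff_zero]

/-- powers of linear functions -/
noncomputable def R (n j : ℕ) : Submodule ℝ C(S n, ℝ) :=
  Submodule.span ℝ (Set.range fun a : E n => lin a ^ j)

lemma lin_pow_R (a : E n) (j : ℕ) : lin a ^ j ∈ R n j := Submodule.subset_span ⟨a, rfl⟩

lemma lin_add_smul (a b : E n) (t : ℝ) : lin (a + t • b) = lin a + t • lin b := by
  ext x
  simp [inner_add_left, inner_smul_left]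

lemma mul_R (b : E n) {j : ℕ} {f : C(S n, ℝ)} (hf : f ∈ R n j) : lin b * f ∈ R n (j + 1) := by
  unfold R at hf
  induction hf using Submodule.span_induction with
  | mem f hf =>
    obtain ⟨a, rfl⟩ := hf
    have key := coef_mem (R n (j + 1)) (j + 1 + 1)
      (fun i => ((j + 1).choose i : ℝ) • (lin b ^ i * lin a ^ (j + 1 - i))) ?_ 1 (by omega)
    · simp only [Nat.choose_one_right, pow_one, Nat.add_sub_cancel] at key
      have h2 := (R n (j + 1)).smul_mem (((j + 1 : ℕ) : ℝ)⁻¹) key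
      rwa [smul_smul, inv_mul_cancel₀ (by positivity), one_smul] at h2
    · intro t
      have h3 := lin_pow_R (a + t • b) (j + 1)
      have h4 : ∑ i ∈ Finset.range (j + 1 + 1),
          t ^ i • (((j + 1).choose i : ℝ) • (lin b ^ i * lin a ^ (j + 1 - i))) =
          lin (a + t • b) ^ (j + 1) := by
        rw [lin_add_smul, add_comm (lin a), add_pow]
        refine Finset.sum_congr rfl fun i _ => ?_
        ext x
        simp only [ContinuousMap.smul_apply, ContinuousMap.mul_apply, ContinuousMap.pow_apply,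
          smul_eq_mul, lin_apply, ContinuousMap.natCast_apply, mul_pow]
        ring
      rw [h4]
      exact h3
  | zero => rw [mul_zero]; exact Submodule.zero_mem _
  | add f g _ _ hf hg => rw [mul_add]; exact Submodule.add_mem _ hf hg
  | smul c f _ hf => rw [mul_smul_comm]; exact Submodule.smul_mem _ _ hf

lemma mulpow_R (b : E n) (k : ℕ) {j : ℕ} {f : C(S n, ℝ)} (hf : f ∈ R n j) :
    lin b ^ k * f ∈ R n (k + j) := by
  induction k with
  | zero => simpa using hf
  | succ k ih =>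
    rw [pow_succ', mul_assoc, show k + 1 + j = k + j + 1 by ring]
    exact mul_R b ih

lemma prod_R (α : Fin n → ℕ) (s : Finset (Fin n)) :
    ∏ i ∈ s, (xc i : C(S n, ℝ)) ^ α i ∈ R n (∑ i ∈ s, α i) := by
  classical
  induction s using Finset.induction_on with
  | empty =>
    simp only [Finset.prod_empty, Finset.sum_empty]
    have := lin_pow_R (0 : E n) 0
    rwa [pow_zero] at this
  | insert a s ha ih =>
    rw [Finset.prod_insert ha, Finset.sum_insert ha, xc_eq]
    exact mulpow_R _ _ ih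

lemma vC_monomial (α : Fin n →₀ ℕ) (c : ℝ) :
    (vC (MvPolynomial.monomial α c) : C(S n, ℝ)) = c • ∏ i, (xc i : C(S n, ℝ)) ^ α i := by
  unfold vC
  rw [MvPolynomial.aeval_monomial, Algebra.smul_def]
  congr 1
  exact Finsupp.prod_fintype _ _ fun i => pow_zero _

/-- a property of all restrictions of polynomials follows from monomials -/
lemma P_le_of {m : ℕ} {W : Submodule ℝ C(S n, ℝ)}
    (h : ∀ α : Fin n → ℕ, ∑ i, α i ≤ m → ∏ i, (xc i : C(S n, ℝ)) ^ α i ∈ W) : P n m ≤ W := by
  intro f hf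
  rw [mem_P] at hf
  obtain ⟨p, hp, rfl⟩ := hf
  rw [p.as_sum, map_sum]
  refine Submodule.sum_mem _ fun α hα => ?_
  rw [vC_monomial]
  refine Submodule.smul_mem _ _ (h α ?_)
  have h1 := MvPolynomial.le_totalDegree hα
  rw [Finsupp.sum_fintype _ _ fun i => rfl] at h1
  exact h1.trans hp

lemma P_le_R {m : ℕ} {W : Submodule ℝ C(S n, ℝ)}
    (h : ∀ i ≤ m, ∀ a : E n, lin a ^ i ∈ W) : P n m ≤ W := by
  apply P_le_of
  intro α hα
  have h1 := prod_R α Finset.univ
  have h2 : R n (∑ i, α i) ≤ W := by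
    unfold R
    rw [Submodule.span_le]
    rintro _ ⟨a, rfl⟩
    exact h _ hα a
  exact h2 h1

end Pool.Agent.N303.SH
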