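import Pool.Agent.N303.SH.A

set_option autoImplicit false

/-! Dimension bounds for the restrictions of polynomials. -/

open MeasureTheory Metric Set Filter Topology
open scoped ENNReal RealInnerProductSpace Pointwise

namespace Pool.Agent.N303.SH

variable {d : ℕ}

/-- monomials in the coordinates except the first one -/
noncomputable def mon (β : Fin d → ℕ) : C(S (d + 1), ℝ) := ∏ i : Fin d, xc i.succ ^ β i

lemma mon_apply (β : Fin d → ℕ) (x : S (d + 1)) : mon β x = ∏ i : Fin d, (x : E (d + 1)) i.succ ^ β i := by
  unfold mon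
  rw [ContinuousMap.prod_apply]
  simp

lemma mon_single (β : Fin d → ℕ) (i : Fin d) :
    (xc i.succ ^ 2 * mon β : C(S (d + 1), ℝ)) = mon (β + Pi.single i 2) := by
  ext x
  rw [ContinuousMap.mul_apply, mon_apply, mon_apply, ContinuousMap.pow_apply, xc_apply]
  simp only [Pi.add_apply, pow_add, Finset.prod_mul_distrib]
  rw [mul_comm]
  congr 1
  rw [Finset.prod_eq_single i]
  · simp
  · intro j _ hj
    simp [Pi.single_eq_of_ne hj]
  · simp

lemma xc0_sq : (xc 0 ^ 2 : C(S (d + 1), ℝ)) = 1 - ∑ i : Fin d, xc i.succ ^ 2 := by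
  ext x
  have h1 := S_norm x
  have h2 : ‖(x : E (d + 1))‖ ^ 2 = 1 := by rw [h1]; norm_num
  rw [EuclideanSpace.real_norm_sq_eq, Fin.sum_univ_succ] at h2
  simp only [ContinuousMap.pow_apply, ContinuousMap.sub_apply, ContinuousMap.one_apply, xc_apply,
    ContinuousMap.sum_apply]
  linarith

/-- a spanning family -/
noncomputable def fam (d m : ℕ) (p : Fin 2 × (Fin d → Fin (m + 1))) : C(S (d + 1), ℝ) :=
  xc 0 ^ (p.1 : ℕ) * mon fun i => (p.2 i : ℕ)

lemma mem_span_fam (m : ℕ) : ∀ (a : ℕ) (β : Fin d → ℕ), a + ∑ i, β i ≤ m →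
    xc 0 ^ a * mon β ∈ Submodule.span ℝ (Set.range (fam d m)) := by
  have hb : ∀ (a : Fin 2) (β : Fin d → ℕ), ∑ i, β i ≤ m →
      xc 0 ^ (a : ℕ) * mon β ∈ Submodule.span ℝ (Set.range (fam d m)) := by
    intro a β hβ
    apply Submodule.subset_span
    refine ⟨(a, fun i => ⟨β i, ?_⟩), rfl⟩
    have := Finset.single_le_sum (f := β) (fun j _ => Nat.zero_le _) (Finset.mem_univ i)
    omega
  intro a
  induction a using Nat.strong_induction_on with
  | _ a ih =>
    intro β hβ
    rcases Nat.lt_or_ge a 2 with h | h
    · exact hb ⟨a, h⟩ β (by omega)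
    · obtain ⟨b, rfl⟩ := Nat.exists_eq_add_of_le' h
      have e : (xc 0 ^ (b + 2) * mon β : C(S (d + 1), ℝ)) =
          xc 0 ^ b * mon β - ∑ i : Fin d, xc 0 ^ b * mon (β + Pi.single i 2) := by
        rw [pow_add, xc0_sq, mul_sub, mul_one, sub_mul, Finset.mul_sum, Finset.sum_mul]
        congr 1
        refine Finset.sum_congr rfl fun i _ => ?_
        rw [← mon_single, mul_assoc]
      rw [e]
      refine Submodule.sub_mem _ (ih b (by omega) β (by omega))
        (Submodule.sum_mem _ fun i _ => ih b (by omega) _ ?_)
      simp only [Pi.add_apply, Finset.sum_add_distrib, Finset.sum_pi_single', Finset.mem_univ,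
        if_true]
      omega

lemma finrank_le (d m : ℕ) : Module.finrank ℝ (P (d + 1) m) ≤ 2 * (m + 1) ^ d := by
  have h1 : P (d + 1) m ≤ Submodule.span ℝ (Set.range (fam d m)) := by
    apply P_le_of
    intro α hα
    rw [Fin.sum_univ_succ] at hα
    rw [Fin.prod_univ_succ]
    exact mem_span_fam m (α 0) (fun i => α i.succ) hα
  have : Module.Finite ℝ (Submodule.span ℝ (Set.range (fam d m))) :=
    Module.Finite.span_of_finite ℝ (Set.finite_range _)
  have h2 := Submodule.finrank_mono h1
  have h3 := finrank_range_le_card (R := ℝ) (fam d m)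
  refine h2.trans (h3.trans ?_)
  simp

lemma le_finrank (hd : 1 ≤ d) (m : ℕ) : (m / d + 1) ^ d ≤ Module.finrank ℝ (P (d + 1) m) := by
  set v : (Fin d → Fin (m / d + 1)) → C(S (d + 1), ℝ) := fun β => mon fun i => (β i : ℕ) with hv
  have hmem : ∀ β, v β ∈ P (d + 1) m := by
    intro β
    have h1 : ∀ s : Finset (Fin d), ∏ i ∈ s, (xc i.succ : C(S (d + 1), ℝ)) ^ (β i : ℕ) ∈
        P (d + 1) (∑ i ∈ s, (β i : ℕ)) := by
      classical
      intro s
      induction s using Finset.induction_on with
      | empty => simpa using one_P (n := d + 1) 0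
      | insert a s ha ih =>
        rw [Finset.prod_insert ha, Finset.sum_insert ha]
        refine P_mul ?_ ih
        have := pow_P (xc_P (n := d + 1) a.succ) (β a : ℕ)
        rwa [one_mul] at this
    refine P_mono ?_ (h1 Finset.univ)
    calc ∑ i, (β i : ℕ) ≤ ∑ _i : Fin d, m / d := Finset.sum_le_sum fun i _ => by
          have := (β i).2
          omega
      _ = d * (m / d) := by simp
      _ ≤ m := Nat.mul_div_le m d
  have hli : LinearIndependent ℝ v := by
    rw [Fintype.linearIndependent_iff]
    intro c hc
    set q : MvPolynomial (Fin d) ℝ := ∑ β : Fin d → Fin (m / d + 1),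
      MvPolynomial.monomial (Finsupp.equivFunOnFinite.symm fun i => (β i : ℕ)) (c β) with hq
    have h0 : q = 0 := by
      apply MvPolynomial.funext_set (fun _ : Fin d => Icc (0:ℝ) (1 / d))
      · intro i
        apply Set.Icc_infinite
        positivity
      · intro y hy
        rw [map_zero]
        have hy1 : ∑ i, y i ^ 2 ≤ 1 := by
          calc ∑ i, y i ^ 2 ≤ ∑ _i : Fin d, (1 / d : ℝ) := Finset.sum_le_sum fun i _ => by
                have h1 := hy i (Set.mem_univ i)
                have h2 : (1 / d : ℝ) ≤ 1 := by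
                  rw [div_le_one (by positivity)]
                  exact_mod_cast hd
                nlinarith [h1.1, h1.2]
            _ = 1 := by
                simp only [Finset.sum_const, Finset.card_univ, Fintype.card_fin, nsmul_eq_mul]
                have : (d : ℝ) ≠ 0 := by positivity
                field_simp
        let x : E (d + 1) := WithLp.toLp 2 (Fin.cons (Real.sqrt (1 - ∑ i, y i ^ 2)) y : Fin (d + 1) → ℝ)
        have hx : ‖x‖ = 1 := by
          have h1 : ‖x‖ ^ 2 = 1 := by
            rw [EuclideanSpace.real_norm_sq_eq, Fin.sum_univ_succ]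
            simp only [x, Fin.cons_zero, Fin.cons_succ]
            rw [Real.sq_sqrt (by linarith)]
            ring
          nlinarith [norm_nonneg x]
        have h2 := congrArg (fun f : C(S (d + 1), ℝ) => f ⟨x, by simpa using hx⟩) hc
        simp only [ContinuousMap.sum_apply, ContinuousMap.smul_apply, smul_eq_mul,
          ContinuousMap.zero_apply, hv, mon_apply] at h2
        rw [hq, map_sum, ← h2]
        refine Finset.sum_congr rfl fun β _ => ?_
        rw [MvPolynomial.eval_monomial]
        congr 1
        rw [Finsupp.prod_fintype _ _ fun i => pow_zero _]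
        refine Finset.prod_congr rfl fun i _ => ?_
        simp [x]
    intro β
    have h1 := congrArg (MvPolynomial.coeff (Finsupp.equivFunOnFinite.symm fun i => (β i : ℕ))) h0
    rw [hq, MvPolynomial.coeff_sum, MvPolynomial.coeff_zero] at h1
    simp only [MvPolynomial.coeff_monomial] at h1
    rw [Finset.sum_eq_single β] at h1
    · simpa using h1
    · intro γ _ hγ
      rw [if_neg]
      intro h
      apply hγ
      have h3 := Finsupp.equivFunOnFinite.symm.injective h
      funext i
      exact Fin.ext (congrFun h3 i)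
    · simp
  have hli2 : LinearIndependent ℝ (fun β => (⟨v β, hmem β⟩ : P (d + 1) m)) := by
    apply LinearIndependent.of_comp (P (d + 1) m).subtype
    exact hli
  have h4 := hli2.fintype_card_le_finrank
  simpa using h4

end Pool.Agent.N303.SH
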