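import Pool.Agent.N303.SH.B

set_option autoImplicit false

/-! Spherical harmonics, orthonormal bases, reproducing kernels. -/

open MeasureTheory Metric Set Filter Topology
open scoped ENNReal RealInnerProductSpace Pointwise

namespace Pool.Agent.N303.SH

variable {n : ℕ}

/-- the inner product of `L²(σ)` -/
noncomputable def ip (f g : C(S n, ℝ)) : ℝ := ∫ x, f x * g x ∂(sg n)

lemma int_c (f : C(S n, ℝ)) : Integrable f (sg n) :=
  f.continuous.integrable_of_hasCompactSupport (HasCompactSupport.of_compactSpace f)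

lemma int_mul (f g : C(S n, ℝ)) : Integrable (fun x => f x * g x) (sg n) := int_c (f * g)

lemma ip_comm (f g : C(S n, ℝ)) : ip f g = ip g f := by
  unfold ip; simp only [mul_comm]

lemma ip_add (f g h : C(S n, ℝ)) : ip f (g + h) = ip f g + ip f h := by
  unfold ip
  rw [← integral_add (int_mul f g) (int_mul f h)]
  simp only [ContinuousMap.add_apply, mul_add]

lemma ip_smul (c : ℝ) (f g : C(S n, ℝ)) : ip f (c • g) = c * ip f g := by
  unfold ip
  rw [← integral_const_mul]
  congr 1
  ext x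
  simp only [ContinuousMap.smul_apply, smul_eq_mul]
  ring

/-- the inner product as a linear map -/
noncomputable def ipL (f : C(S n, ℝ)) : C(S n, ℝ) →ₗ[ℝ] ℝ where
  toFun := ip f
  map_add' := ip_add f
  map_smul' := fun c g => by rw [ip_smul]; rfl

@[simp] lemma ipL_apply (f g : C(S n, ℝ)) : ipL f g = ip f g := rfl

lemma ip_sum {ι : Type*} (f : C(S n, ℝ)) (s : Finset ι) (g : ι → C(S n, ℝ)) :
    ip f (∑ i ∈ s, g i) = ∑ i ∈ s, ip f (g i) := map_sum (ipL f) g s

lemma ip_sub (f g h : C(S n, ℝ)) : ip f (g - h) = ip f g - ip f h := map_sub (ipL f) g h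

lemma ip_zero (f : C(S n, ℝ)) : ip f 0 = 0 := map_zero (ipL f)

lemma ip_self {f : C(S n, ℝ)} (h : ip f f = 0) : f = 0 := by
  unfold ip at h
  rw [integral_eq_zero_iff_of_nonneg (fun x => mul_self_nonneg _) (int_mul f f)] at h
  have h2 : (fun x => f x * f x) = fun _ => (0:ℝ) := by
    refine (Continuous.ae_eq_iff_eq (sg n) ?_ continuous_const).1 h
    fun_prop
  ext x
  exact mul_self_eq_zero.1 (congrFun h2 x)

lemma exists_on (V : Submodule ℝ C(S n, ℝ)) [FiniteDimensional ℝ V] :
    ∃ e : Fin (Module.finrank ℝ V) → C(S n, ℝ), (∀ i, e i ∈ V) ∧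
      (∀ i j, ip (e i) (e j) = if i = j then 1 else 0) ∧
      ∀ f ∈ V, f = ∑ i, ip (e i) f • e i := by
  set T : C(S n, ℝ) →ₗ[ℝ] Lp ℝ 2 (sg n) := (ContinuousMap.toLp 2 (sg n) ℝ).toLinearMap with hT
  have hTi : Function.Injective T := ContinuousMap.toLp_injective (sg n)
  set W := V.map T with hW
  have hfr : Module.finrank ℝ W = Module.finrank ℝ V :=
    (LinearEquiv.finrank_eq (Submodule.equivMapOfInjective T hTi V)).symm
  set b := (stdOrthonormalBasis ℝ W).reindex (finCongr hfr) with hb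
  have hex : ∀ i, ∃ f ∈ V, T f = b i := fun i => (Submodule.mem_map.1 (b i).2)
  choose e heV he using hex
  have hip : ∀ f g : C(S n, ℝ), ⟪T f, T g⟫ = ip f g := by
    intro f g
    rw [hT]
    have h := ContinuousMap.inner_toLp (𝕜 := ℝ) (sg n) f g
    refine h.trans ?_
    unfold ip
    simp [mul_comm]
  refine ⟨e, heV, fun i j => ?_, fun f hf => ?_⟩
  · rw [← hip, he, he, ← Submodule.coe_inner]
    exact (orthonormal_iff_ite.1 b.orthonormal) i j
  · apply hTi
    have h1 := b.sum_repr ⟨T f, Submodule.mem_map_of_mem hf⟩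
    have h2 := congrArg (fun w : W => (w : Lp ℝ 2 (sg n))) h1
    simp only [Submodule.coe_sum, Submodule.coe_smul] at h2
    rw [map_sum, ← h2]
    refine Finset.sum_congr rfl fun i _ => ?_
    rw [map_smul, he, ← hip, he, b.repr_apply_apply, Submodule.coe_inner]

/-- spherical harmonics of degree `k` -/
noncomputable def H (n k : ℕ) : Submodule ℝ C(S n, ℝ) where
  carrier := {f | f ∈ P n k ∧ ∀ j < k, ∀ q ∈ P n j, ip q f = 0}
  add_mem' := by
    rintro f g ⟨hf, hf2⟩ ⟨hg, hg2⟩
    exact ⟨Submodule.add_mem _ hf hg, fun j hj q hq => by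
      rw [ip_add, hf2 j hj q hq, hg2 j hj q hq, add_zero]⟩
  zero_mem' := ⟨Submodule.zero_mem _, fun j hj q hq => ip_zero q⟩
  smul_mem' := by
    rintro c f ⟨hf, hf2⟩
    exact ⟨Submodule.smul_mem _ _ hf, fun j hj q hq => by
      rw [ip_smul, hf2 j hj q hq, mul_zero]⟩

lemma H_le (k : ℕ) : H n k ≤ P n k := fun _ h => h.1

lemma H_perp {j k : ℕ} (hjk : j < k) {q f : C(S n, ℝ)} (hq : q ∈ P n j) (hf : f ∈ H n k) :
    ip q f = 0 := hf.2 j hjk q hq

instance (k : ℕ) : FiniteDimensional ℝ (H n k) := Submodule.finiteDimensional_of_le (H_le k)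

/-- the number of harmonics -/
noncomputable def dk (n k : ℕ) : ℕ := Module.finrank ℝ (H n k)

/-- an orthonormal basis of `H n k` -/
noncomputable def e (n k : ℕ) : Fin (dk n k) → C(S n, ℝ) := (exists_on (H n k)).choose

lemma e_mem (k : ℕ) (i : Fin (dk n k)) : e n k i ∈ H n k := (exists_on (H n k)).choose_spec.1 i

lemma e_on (k : ℕ) (i j : Fin (dk n k)) : ip (e n k i) (e n k j) = if i = j then 1 else 0 :=
  (exists_on (H n k)).choose_spec.2.1 i j

lemma e_exp (k : ℕ) {f : C(S n, ℝ)} (hf : f ∈ H n k) : f = ∑ i, ip (e n k i) f • e n k i :=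
  (exists_on (H n k)).choose_spec.2.2 f hf

lemma e_ne {k l : ℕ} (hkl : k ≠ l) (i : Fin (dk n k)) (j : Fin (dk n l)) :
    ip (e n k i) (e n l j) = 0 := by
  rcases lt_or_gt_of_ne hkl with h | h
  · exact H_perp h (H_le _ (e_mem k i)) (e_mem l j)
  · rw [ip_comm]
    exact H_perp h (H_le _ (e_mem l j)) (e_mem k i)

/-- the projection to `H n k` -/
noncomputable def pk (k : ℕ) (f : C(S n, ℝ)) : C(S n, ℝ) := ∑ i, ip (e n k i) f • e n k i

lemma pk_mem (k : ℕ) (f : C(S n, ℝ)) : pk k f ∈ H n k :=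
  Submodule.sum_mem _ fun i _ => Submodule.smul_mem _ _ (e_mem k i)

lemma ip_e_pk (k : ℕ) (f : C(S n, ℝ)) (i : Fin (dk n k)) : ip (e n k i) (pk k f) = ip (e n k i) f := by
  unfold pk
  rw [ip_sum]
  simp only [ip_smul, e_on]
  simp

lemma ip_e_pk_ne {k l : ℕ} (hkl : k ≠ l) (f : C(S n, ℝ)) (i : Fin (dk n k)) :
    ip (e n k i) (pk l f) = 0 := by
  unfold pk
  rw [ip_sum]
  simp only [ip_smul, e_ne hkl]
  simp

lemma exp_P (m : ℕ) : ∀ f ∈ P n m, f = ∑ k ∈ Finset.range (m + 1), pk k f := by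
  induction m with
  | zero =>
    intro f hf
    have h1 : f ∈ H n 0 := ⟨hf, fun j hj => absurd hj (Nat.not_lt_zero j)⟩
    rw [zero_add, Finset.sum_range_one]
    exact e_exp 0 h1
  | succ m ih =>
    intro f hf
    set p := ∑ k ∈ Finset.range (m + 1), pk k f with hp
    have hpm : p ∈ P n m := by
      refine Submodule.sum_mem _ fun k hk => ?_
      exact P_mono (by have := Finset.mem_range.1 hk; omega) (H_le k (pk_mem k f))
    have hh : f - p ∈ H n (m + 1) := by
      refine ⟨Submodule.sub_mem _ hf (P_mono (by omega) hpm), fun j hj q hq => ?_⟩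
      have hq2 := ih q (P_mono (by omega) hq)
      rw [hq2, ip_comm, ip_sum]
      refine Finset.sum_eq_zero fun k hk => ?_
      unfold pk
      rw [ip_sum]
      refine Finset.sum_eq_zero fun i _ => ?_
      rw [ip_smul, ip_comm (f - p), ip_sub, hp, ip_sum, Finset.sum_eq_single k]
      · rw [ip_e_pk, sub_self, mul_zero]
      · intro l _ hl
        exact ip_e_pk_ne hl.symm f i
      · intro h
        exact absurd hk h
    have h1 := e_exp (m + 1) hh
    rw [Finset.sum_range_succ, ← hp]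
    have h2 : pk (m + 1) f = f - p := by
      rw [h1]
      unfold pk
      refine Finset.sum_congr rfl fun i _ => ?_
      congr 1
      rw [ip_sub, ip_comm _ p, H_perp (Nat.lt_succ_self m) hpm (e_mem _ i), sub_zero]
    rw [h2]
    abel

lemma pk_eq_zero {k m : ℕ} (h : m < k) {f : C(S n, ℝ)} (hf : f ∈ P n m) : pk k f = 0 := by
  unfold pk
  refine Finset.sum_eq_zero fun i _ => ?_
  rw [ip_comm, H_perp h hf (e_mem k i), zero_smul]

/-- expansion with the bound of the degree not sharp -/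
lemma exp_P' {m M : ℕ} (h : m ≤ M) {f : C(S n, ℝ)} (hf : f ∈ P n m) :
    f = ∑ k ∈ Finset.range (M + 1), pk k f := exp_P M f (P_mono h hf)

lemma finrank_P (m : ℕ) : Module.finrank ℝ (P n m) = ∑ k ∈ Finset.range (m + 1), dk n k := by
  set T : P n m →ₗ[ℝ] (((k : Fin (m + 1)) × Fin (dk n k)) → ℝ) :=
    LinearMap.pi fun p => (ipL (e n p.1 p.2)).comp (P n m).subtype with hT
  have hTa : ∀ f p, T f p = ip (e n p.1 p.2) f := fun f p => rfl
  have hinj : Function.Injective T := by
    rw [← LinearMap.ker_eq_bot, LinearMap.ker_eq_bot']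
    intro f hf
    apply Subtype.ext
    have h0 := exp_P m (f : C(S n, ℝ)) f.2
    rw [h0, Submodule.coe_zero]
    refine Finset.sum_eq_zero fun k hk => ?_
    unfold pk
    refine Finset.sum_eq_zero fun i _ => ?_
    have h1 := congrFun hf ⟨⟨k, Finset.mem_range.1 hk⟩, i⟩
    rw [hTa] at h1
    simp only [Pi.zero_apply] at h1
    rw [h1, zero_smul]
  have hsurj : Function.Surjective T := by
    intro c
    refine ⟨⟨∑ p : (k : Fin (m + 1)) × Fin (dk n k), c p • e n p.1 p.2, ?_⟩, ?_⟩
    · refine Submodule.sum_mem _ fun p _ => Submodule.smul_mem _ _ ?_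
      exact P_mono (by have := p.1.2; omega) (H_le _ (e_mem _ p.2))
    · funext p
      rw [hTa]
      simp only
      rw [ip_sum, Finset.sum_eq_single p]
      · rw [ip_smul, e_on, if_pos rfl, mul_one]
      · intro q _ hq
        rw [ip_smul]
        by_cases h : (p.1 : ℕ) = q.1
        · obtain ⟨⟨k, hk⟩, i⟩ := p
          obtain ⟨⟨l, hl⟩, j⟩ := q
          simp only at h
          subst h
          simp only at *
          rw [e_on, if_neg, mul_zero]
          rintro rfl
          exact hq rfl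
        · rw [e_ne h, mul_zero]
      · simp
  have h1 := (LinearEquiv.ofBijective T ⟨hinj, hsurj⟩).finrank_eq
  rw [h1, Module.finrank_fintype_fun_eq_card, Fintype.card_sigma]
  simp only [Fintype.card_fin]
  exact Fin.sum_univ_eq_sum_range (fun k => dk n k) (m + 1)

end Pool.Agent.N303.SH
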