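import Pool.Agent.N303.SH.C

set_option autoImplicit false

/-! Reproducing kernels and multipliers on sparse spherical harmonic expansions. -/

open MeasureTheory Metric Set Filter Topology
open scoped ENNReal RealInnerProductSpace Pointwise

namespace Pool.Agent.N303.SH

variable {n : ℕ}

/-- composition with a rotation -/
noncomputable def cr (T : E n ≃ₗᵢ[ℝ] E n) (f : C(S n, ℝ)) : C(S n, ℝ) := f.comp ⟨rot T, rot_cont T⟩

@[simp] lemma cr_apply (T : E n ≃ₗᵢ[ℝ] E n) (f : C(S n, ℝ)) (x : S n) : cr T f x = f (rot T x) := rfl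

lemma cr_P (T : E n ≃ₗᵢ[ℝ] E n) {m : ℕ} {f : C(S n, ℝ)} (hf : f ∈ P n m) : cr T f ∈ P n m := by
  have h : P n m ≤ (P n m).comap (ContinuousMap.compRightAlgHom ℝ ℝ
      (⟨rot T, rot_cont T⟩ : C(S n, S n))).toLinearMap := by
    apply P_le_R
    intro i hi a
    rw [Submodule.mem_comap]
    have e : (ContinuousMap.compRightAlgHom ℝ ℝ (⟨rot T, rot_cont T⟩ : C(S n, S n))).toLinearMap
        (lin a ^ i) = lin (T.symm a) ^ i := by
      ext x
      simp only [AlgHom.toLinearMap_apply, ContinuousMap.compRightAlgHom_apply,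
        ContinuousMap.comp_apply, ContinuousMap.coe_mk, ContinuousMap.pow_apply, lin_apply, rot_coe]
      congr 1
      rw [← T.inner_map_map (T.symm a), T.apply_symm_apply]
    rw [e]
    have h1 := pow_P (lin_P (T.symm a)) i
    exact P_mono (by omega) h1
  exact h hf

lemma ip_cr (T : E n ≃ₗᵢ[ℝ] E n) (f g : C(S n, ℝ)) : ip (cr T f) (cr T g) = ip f g := by
  unfold ip
  exact rot_int T (fun x => f x * g x)

lemma cr_symm (T : E n ≃ₗᵢ[ℝ] E n) (f : C(S n, ℝ)) : cr T (cr T.symm f) = f := by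
  ext x
  rw [cr_apply, cr_apply, rot_symm']

lemma ip_cr' (T : E n ≃ₗᵢ[ℝ] E n) (f g : C(S n, ℝ)) : ip (cr T f) g = ip f (cr T.symm g) := by
  rw [← ip_cr T f (cr T.symm g), cr_symm]

lemma cr_H (T : E n ≃ₗᵢ[ℝ] E n) {k : ℕ} {f : C(S n, ℝ)} (hf : f ∈ H n k) : cr T f ∈ H n k := by
  refine ⟨cr_P T hf.1, fun j hj q hq => ?_⟩
  rw [ip_comm, ip_cr', ip_comm]
  exact hf.2 j hj _ (cr_P _ hq)

/-- the reproducing kernel of `H n k` -/
noncomputable def Zf (k : ℕ) (x : S n) : C(S n, ℝ) := ∑ i, e n k i x • e n k i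

lemma Zf_mem (k : ℕ) (x : S n) : Zf k x ∈ H n k :=
  Submodule.sum_mem _ fun i _ => Submodule.smul_mem _ _ (e_mem k i)

lemma ip_Zf (k : ℕ) (x : S n) (f : C(S n, ℝ)) : ip (Zf k x) f = pk k f x := by
  rw [ip_comm]
  unfold Zf pk
  rw [ip_sum, ContinuousMap.sum_apply]
  refine Finset.sum_congr rfl fun i _ => ?_
  rw [ip_smul, ip_comm f]
  simp [mul_comm]

lemma pk_of_mem {k : ℕ} {f : C(S n, ℝ)} (hf : f ∈ H n k) : pk k f = f := (e_exp k hf).symm

lemma pk_of_mem_ne {k l : ℕ} (hkl : k ≠ l) {f : C(S n, ℝ)} (hf : f ∈ H n k) : pk l f = 0 := by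
  rw [← pk_of_mem hf]
  unfold pk
  refine Finset.sum_eq_zero fun i _ => ?_
  have := ip_e_pk_ne hkl.symm f i
  unfold pk at this
  rw [this, zero_smul]

/-- the kernel on the diagonal -/
noncomputable def ze (n k : ℕ) (x : S n) : ℝ := Zf k x x

lemma ip_Zf_self (k : ℕ) (x : S n) : ip (Zf k x) (Zf k x) = ze n k x := by
  rw [ip_Zf, pk_of_mem (Zf_mem k x)]; rfl

lemma ip_Zf_ne {k l : ℕ} (h : k ≠ l) (x : S n) : ip (Zf k x) (Zf l x) = 0 := by
  rw [ip_Zf, pk_of_mem_ne h.symm (Zf_mem l x)]; rfl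

lemma ze_eq_sum (k : ℕ) (x : S n) : ze n k x = ∑ i, e n k i x ^ 2 := by
  unfold ze Zf
  rw [ContinuousMap.sum_apply]
  refine Finset.sum_congr rfl fun i _ => ?_
  simp [sq]

lemma ze_nonneg (k : ℕ) (x : S n) : 0 ≤ ze n k x := by
  rw [ze_eq_sum]; positivity

lemma ze_rot (T : E n ≃ₗᵢ[ℝ] E n) (k : ℕ) (x : S n) : ze n k (rot T x) = ze n k x := by
  set F := cr T (Zf k (rot T x)) - Zf k x with hF
  have hFH : F ∈ H n k := Submodule.sub_mem _ (cr_H T (Zf_mem k _)) (Zf_mem k x)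
  have h0 : ∀ h ∈ H n k, ip F h = 0 := by
    intro h hh
    rw [ip_comm, hF, ip_sub, ip_comm h, ip_comm h, ip_cr', ip_Zf, ip_Zf, pk_of_mem hh,
      pk_of_mem (cr_H T.symm hh), cr_apply, rot_symm', sub_self]
  have h1 : F = 0 := ip_self (h0 F hFH)
  have h2 := congrArg (fun f : C(S n, ℝ) => f x) h1
  simp only [hF, ContinuousMap.sub_apply, cr_apply, ContinuousMap.zero_apply] at h2
  unfold ze
  linarith

lemma exists_rot (x y : S n) : ∃ T : E n ≃ₗᵢ[ℝ] E n, rot T x = y := by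
  refine ⟨(ℝ ∙ ((x : E n) - (y : E n)))ᗮ.reflection, Subtype.ext ?_⟩
  exact Submodule.reflection_sub (by rw [S_norm, S_norm])

lemma ze_const (k : ℕ) (x y : S n) : ze n k x = ze n k y := by
  obtain ⟨T, rfl⟩ := exists_rot x y
  exact (ze_rot T k x).symm

lemma ze_mul (k : ℕ) (x : S n) : ze n k x * (sg n).real univ = dk n k := by
  have h1 : ∫ y, ze n k y ∂(sg n) = ze n k x * (sg n).real univ := by
    rw [integral_congr_ae (g := fun _ => ze n k x) (Eventually.of_forall fun y => ze_const k y x),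
      integral_const, smul_eq_mul, mul_comm]
  have h2 : ∫ y, ze n k y ∂(sg n) = dk n k := by
    have h3 : ∀ y, ze n k y = ∑ i, e n k i y * e n k i y := by
      intro y; rw [ze_eq_sum]; simp only [sq]
    simp only [h3]
    rw [integral_finsetSum _ fun i _ => int_mul _ _]
    have h4 : ∀ i, ∫ y, e n k i y * e n k i y ∂(sg n) = 1 := by
      intro i
      have := e_on (n := n) k i i
      rw [if_pos rfl] at this
      exact this
    simp [h4]
  rw [← h1, h2]

/-- the kernel of the polynomials of degree at most `m` -/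
noncomputable def Zs (m : ℕ) (x : S n) : C(S n, ℝ) := ∑ k ∈ Finset.range (m + 1), Zf k x

lemma Zs_mem (m : ℕ) (x : S n) : Zs m x ∈ P n m :=
  Submodule.sum_mem _ fun k hk =>
    P_mono (by have := Finset.mem_range.1 hk; omega) (H_le k (Zf_mem k x))

/-- the diagonal -/
noncomputable def zs (n m : ℕ) (x : S n) : ℝ := ∑ k ∈ Finset.range (m + 1), ze n k x

lemma Zs_self (m : ℕ) (x : S n) : Zs m x x = zs n m x := by
  unfold Zs zs
  rw [ContinuousMap.sum_apply]
  rfl

lemma ip_comb (M : ℕ) (x : S n) (a : ℕ → ℝ) :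
    ip (∑ l ∈ Finset.range M, a l • Zf l x) (∑ l ∈ Finset.range M, a l • Zf l x) =
      ∑ l ∈ Finset.range M, a l ^ 2 * ze n l x := by
  rw [ip_sum]
  refine Finset.sum_congr rfl fun k hk => ?_
  rw [ip_smul, ip_comm, ip_sum, Finset.sum_eq_single k]
  · rw [ip_smul, ip_Zf_self]; ring
  · intro l _ hl
    rw [ip_smul, ip_Zf_ne hl.symm, mul_zero]
  · intro h; exact absurd hk h

lemma ip_Zs_self (m : ℕ) (x : S n) : ip (Zs m x) (Zs m x) = zs n m x := by
  have h := ip_comb (m + 1) x (fun _ => 1)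
  simp only [one_smul, one_pow, one_mul] at h
  exact h

lemma zs_mul (m : ℕ) (x : S n) : zs n m x * (sg n).real univ = Module.finrank ℝ (P n m) := by
  rw [finrank_P, zs, Finset.sum_mul]
  push_cast
  exact Finset.sum_congr rfl fun k _ => ze_mul k x

lemma pk_mul_eq_zero {m k l : ℕ} {p f : C(S n, ℝ)} (hp : p ∈ P n m) (hf : f ∈ H n k)
    (h : k + m < l ∨ l + m < k) : pk l (p * f) = 0 := by
  rcases h with h | h
  · have := P_mul hp hf.1
    exact pk_eq_zero (by omega) this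
  · unfold pk
    refine Finset.sum_eq_zero fun i _ => ?_
    have h1 : ip (e n l i) (p * f) = ip (p * e n l i) f := by
      unfold ip
      congr 1
      ext x
      simp only [ContinuousMap.mul_apply]
      ring
    rw [h1, H_perp (j := m + l) (by omega) (P_mul hp (H_le _ (e_mem l i))) hf, zero_smul]

/-- the component of degree `k` -/
noncomputable def cp (k : ℕ) (g : S n → ℂ) (x : S n) : ℂ :=
  ∑ i, (e n k i x : ℂ) * ∫ y, (e n k i y : ℂ) * g y ∂(sg n)

/-- all the harmonics of `g` have degrees in `K` -/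
def Deg (K : Set ℕ) (g : S n → ℂ) : Prop :=
  ∀ k ∉ K, ∀ i, ∫ y, (e n k i y : ℂ) * g y ∂(sg n) = 0

lemma cp_eq_zero {K : Set ℕ} {g : S n → ℂ} (hg : Deg K g) {k : ℕ} (hk : k ∉ K) (x : S n) :
    cp k g x = 0 := by
  unfold cp
  exact Finset.sum_eq_zero fun i _ => by rw [hg k hk i, mul_zero]

lemma int_cg {g : S n → ℂ} (hg : Integrable g (sg n)) (f : C(S n, ℝ)) :
    Integrable (fun y => (f y : ℂ) * g y) (sg n) := by
  refine Integrable.bdd_mul (c := ‖f‖) hg ?_ ?_
  · exact (Complex.continuous_ofReal.comp f.continuous).aestronglyMeasurable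
  · refine Eventually.of_forall fun y => ?_
    rw [Complex.norm_real]
    exact f.norm_coe_le_norm y

/-- the kernel of the multiplier -/
noncomputable def Kr (m M : ℕ) (c : ℕ → ℂ) (x y : S n) : ℂ :=
  ((zs n m x)⁻¹ : ℝ) * ∑ l ∈ Finset.range (M + 1), c l * ((Zs m x y * Zf l x y : ℝ) : ℂ)

lemma int_exp {g : S n → ℂ} (hgi : Integrable g (sg n)) (N : ℕ) {F : C(S n, ℝ)}
    (hF : F ∈ P n N) : ∫ y, (F y : ℂ) * g y ∂(sg n) = ∑ k ∈ Finset.range (N + 1), ∑ i,
      (ip (e n k i) F : ℂ) * ∫ y, (e n k i y : ℂ) * g y ∂(sg n) := by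
  have h1 : ∀ y, (F y : ℂ) * g y = ∑ k ∈ Finset.range (N + 1), ∑ i,
      (ip (e n k i) F : ℂ) * ((e n k i y : ℂ) * g y) := by
    intro y
    have h2 := congrArg (fun f : C(S n, ℝ) => f y) (exp_P N F hF)
    simp only [ContinuousMap.sum_apply, pk, ContinuousMap.smul_apply, smul_eq_mul] at h2
    rw [h2]
    push_cast
    rw [Finset.sum_mul]
    refine Finset.sum_congr rfl fun k _ => ?_
    rw [Finset.sum_mul]
    refine Finset.sum_congr rfl fun i _ => ?_
    ring
  simp only [h1]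
  rw [integral_finsetSum _ fun k _ => integrable_finsetSum _ fun i _ =>
    (int_cg hgi (e n k i)).const_mul _]
  refine Finset.sum_congr rfl fun k _ => ?_
  rw [integral_finsetSum _ fun i _ => (int_cg hgi (e n k i)).const_mul _]
  refine Finset.sum_congr rfl fun i _ => ?_
  rw [integral_const_mul]

lemma Kr_int {K : Set ℕ} {g : S n → ℂ} (hgi : Integrable g (sg n)) (hg : Deg K g) (m M : ℕ)
    (c γ : ℕ → ℂ) (hc : ∀ k ∈ K, ∀ l, l ≤ k + m → k ≤ l + m → c l = γ k)
    (hM : ∀ l, M < l → c l = 0) (x : S n) (hz : zs n m x ≠ 0) :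
    ∫ y, Kr m M c x y * g y ∂(sg n) =
      ∑ k ∈ Finset.range (m + M + 1), γ k * cp k g x := by
  have hmem : ∀ l ∈ Finset.range (M + 1), Zs m x * Zf l x ∈ P n (m + M) := by
    intro l hl
    have := P_mul (Zs_mem m x) (H_le l (Zf_mem l x))
    exact P_mono (by have := Finset.mem_range.1 hl; omega) this
  have h1 : ∫ y, Kr m M c x y * g y ∂(sg n) = ((zs n m x)⁻¹ : ℝ) * ∑ l ∈ Finset.range (M + 1),
      c l * ∫ y, ((Zs m x * Zf l x) y : ℂ) * g y ∂(sg n) := by
    have e1 : ∀ y, Kr m M c x y * g y = ((zs n m x)⁻¹ : ℝ) * ∑ l ∈ Finset.range (M + 1),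
      c l * (((Zs m x * Zf l x) y : ℂ) * g y) := by
      intro y
      unfold Kr
      rw [mul_assoc, Finset.sum_mul]
      congr 1
      refine Finset.sum_congr rfl fun l _ => ?_
      rw [ContinuousMap.mul_apply]
      ring
    simp only [e1]
    rw [integral_const_mul, integral_finsetSum _ fun l _ => (int_cg hgi _).const_mul _]
    congr 1
    refine Finset.sum_congr rfl fun l _ => ?_
    rw [integral_const_mul]
  have h2 : ∀ k i, k ∈ K → ∑ l ∈ Finset.range (M + 1),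
      c l * (ip (e n k i) (Zs m x * Zf l x) : ℂ) = γ k * (zs n m x * e n k i x : ℝ) := by
    intro k i hk
    have e1 : ∀ l, ip (e n k i) (Zs m x * Zf l x) = pk l (Zs m x * e n k i) x := by
      intro l
      rw [← ip_Zf]
      unfold ip
      congr 1
      ext y
      simp only [ContinuousMap.mul_apply]
      ring
    have e2 : ∀ l ∈ Finset.range (M + 1), c l * (ip (e n k i) (Zs m x * Zf l x) : ℂ) =
        γ k * (pk l (Zs m x * e n k i) x : ℂ) := by
      intro l _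
      rw [e1]
      by_cases h : l ≤ k + m ∧ k ≤ l + m
      · rw [hc k hk l h.1 h.2]
      · rw [pk_mul_eq_zero (Zs_mem m x) (e_mem k i) (by omega)]
        simp
    rw [Finset.sum_congr rfl e2, ← Finset.mul_sum]
    by_cases hγ : γ k = 0
    · rw [hγ, zero_mul, zero_mul]
    · congr 1
      have hkM : k + m ≤ M := by
        by_contra h
        apply hγ
        rw [← hc k hk (k + m) le_rfl (by omega)]
        exact hM _ (by omega)
      have h3 := exp_P' (m := m + k) (M := M) (by omega) (P_mul (Zs_mem m x) (H_le k (e_mem k i)))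
      have h4 := congrArg (fun f : C(S n, ℝ) => f x) h3
      simp only [ContinuousMap.mul_apply, ContinuousMap.sum_apply] at h4
      rw [Zs_self] at h4
      rw [h4]
      push_cast
      rfl
  rw [h1]
  have h3 : ∑ l ∈ Finset.range (M + 1), c l * ∫ y, ((Zs m x * Zf l x) y : ℂ) * g y ∂(sg n) =
      ∑ k ∈ Finset.range (m + M + 1), ∑ i, (∑ l ∈ Finset.range (M + 1),
        c l * (ip (e n k i) (Zs m x * Zf l x) : ℂ)) * ∫ y, (e n k i y : ℂ) * g y ∂(sg n) := by
    rw [Finset.sum_congr rfl fun l hl => by rw [int_exp hgi (m + M) (hmem l hl)]]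
    simp only [Finset.mul_sum, Finset.sum_mul]
    rw [Finset.sum_comm]
    refine Finset.sum_congr rfl fun k _ => ?_
    rw [Finset.sum_comm]
    refine Finset.sum_congr rfl fun i _ => Finset.sum_congr rfl fun l _ => ?_
    ring
  rw [h3, Finset.mul_sum]
  refine Finset.sum_congr rfl fun k _ => ?_
  by_cases hk : k ∈ K
  · unfold cp
    rw [Finset.mul_sum, Finset.mul_sum]
    refine Finset.sum_congr rfl fun i _ => ?_
    rw [h2 k i hk]
    push_cast
    have : (zs n m x : ℂ) ≠ 0 := by exact_mod_cast hz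
    field_simp
  · rw [cp_eq_zero hg hk, mul_zero]
    rw [Finset.sum_eq_zero fun i _ => by rw [hg k hk i, mul_zero], mul_zero]

/-- Cauchy-Schwarz -/
lemma cs {f g : S n → ℝ} (hf : Continuous f) (hg : Continuous g) :
    (∫ y, f y * g y ∂(sg n)) ^ 2 ≤ (∫ y, f y ^ 2 ∂(sg n)) * ∫ y, g y ^ 2 ∂(sg n) := by
  have i1 : Integrable (fun y => f y * g y) (sg n) := int_c ⟨_, hf.mul hg⟩
  have i2 : Integrable (fun y => f y ^ 2) (sg n) := int_c ⟨_, hf.pow 2⟩
  have i3 : Integrable (fun y => g y ^ 2) (sg n) := int_c ⟨_, hg.pow 2⟩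
  have h := discrim_le_zero (a := ∫ y, g y ^ 2 ∂(sg n)) (b := -2 * ∫ y, f y * g y ∂(sg n))
    (c := ∫ y, f y ^ 2 ∂(sg n)) ?_
  · unfold discrim at h
    nlinarith
  · intro t
    have h1 : 0 ≤ ∫ y, (f y - t * g y) ^ 2 ∂(sg n) := integral_nonneg fun y => sq_nonneg _
    have h2 : ∫ y, (f y - t * g y) ^ 2 ∂(sg n) =
        ∫ y, (f y ^ 2 + ((-2 * t) * (f y * g y) + t ^ 2 * g y ^ 2)) ∂(sg n) := by
      congr 1; ext y; ring
    have e1 := integral_add i2 ((i1.const_mul (-2 * t)).add (i3.const_mul (t ^ 2)))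
    have e2 := integral_add (i1.const_mul (-2 * t)) (i3.const_mul (t ^ 2))
    simp only [Pi.add_apply] at e1
    rw [h2, e1, e2, integral_const_mul, integral_const_mul] at h1
    linarith

lemma Kr_norm (m M : ℕ) (c : ℕ → ℂ) (x : S n) (hz : 0 < zs n m x) :
    (∫ y, ‖Kr m M c x y‖ ∂(sg n)) ^ 2 ≤
      (zs n m x)⁻¹ * ∑ l ∈ Finset.range (M + 1), ‖c l‖ ^ 2 * ze n l x := by
  set u : C(S n, ℝ) := ∑ l ∈ Finset.range (M + 1), (c l).re • Zf l x with hu
  set v : C(S n, ℝ) := ∑ l ∈ Finset.range (M + 1), (c l).im • Zf l x with hv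
  have h1 : ∀ y, ‖Kr m M c x y‖ = (zs n m x)⁻¹ * (|Zs m x y| * Real.sqrt (u y ^ 2 + v y ^ 2)) := by
    intro y
    have e1 : Kr m M c x y = ((zs n m x)⁻¹ : ℝ) * ((Zs m x y : ℝ) * (⟨u y, v y⟩ : ℂ)) := by
      unfold Kr
      congr 1
      have e2 : (⟨u y, v y⟩ : ℂ) = ∑ l ∈ Finset.range (M + 1), c l * (Zf l x y : ℂ) := by
        apply Complex.ext
        · simp [hu, ContinuousMap.sum_apply]
        · simp [hv, ContinuousMap.sum_apply]
      rw [e2, Finset.mul_sum]
      refine Finset.sum_congr rfl fun l _ => ?_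
      push_cast
      ring
    rw [e1, norm_mul, norm_mul, Complex.norm_real, Complex.norm_real, Real.norm_eq_abs,
      Real.norm_eq_abs, abs_of_pos (inv_pos.2 hz)]
    congr 2
    rw [Complex.norm_def, Complex.normSq_mk]
    congr 1
    ring
  simp only [h1]
  rw [integral_const_mul, mul_pow]
  have h2 := cs (n := n) (f := fun y => |Zs m x y|) (g := fun y => Real.sqrt (u y ^ 2 + v y ^ 2))
    (by fun_prop) (by fun_prop)
  have h3 : ∫ y, |Zs m x y| ^ 2 ∂(sg n) = zs n m x := by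
    rw [← ip_Zs_self]
    unfold ip
    congr 1; ext y
    rw [sq_abs]; ring
  have h4 : ∫ y, Real.sqrt (u y ^ 2 + v y ^ 2) ^ 2 ∂(sg n) =
      ∑ l ∈ Finset.range (M + 1), ‖c l‖ ^ 2 * ze n l x := by
    have e1 : ∀ y, Real.sqrt (u y ^ 2 + v y ^ 2) ^ 2 = u y * u y + v y * v y := by
      intro y
      rw [Real.sq_sqrt (by positivity)]; ring
    simp only [e1]
    rw [integral_add (int_mul u u) (int_mul v v)]
    change ip u u + ip v v = _
    rw [hu, hv, ip_comb, ip_comb, ← Finset.sum_add_distrib]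
    refine Finset.sum_congr rfl fun l _ => ?_
    rw [Complex.sq_norm, Complex.normSq_apply]
    ring
  rw [h3, h4] at h2
  calc (zs n m x)⁻¹ ^ 2 * (∫ y, |Zs m x y| * Real.sqrt (u y ^ 2 + v y ^ 2) ∂(sg n)) ^ 2
      ≤ (zs n m x)⁻¹ ^ 2 * (zs n m x * ∑ l ∈ Finset.range (M + 1), ‖c l‖ ^ 2 * ze n l x) :=
        mul_le_mul_of_nonneg_left h2 (by positivity)
    _ = _ := by field_simp

/-- the sup bound -/
theorem mult {K : Set ℕ} {g : S n → ℂ} (hgm : AEStronglyMeasurable g (sg n)) {B : ℝ}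
    (hgB : ∀ᵐ y ∂(sg n), ‖g y‖ ≤ B) (hg : Deg K g) (m M : ℕ)
    (c γ : ℕ → ℂ) (hc : ∀ k ∈ K, ∀ l, l ≤ k + m → k ≤ l + m → c l = γ k)
    (hM : ∀ l, M < l → c l = 0) (x : S n) (hz : 0 < zs n m x) :
    ‖∑ k ∈ Finset.range (m + M + 1), γ k * cp k g x‖ ^ 2 ≤
      B ^ 2 * ((zs n m x)⁻¹ * ∑ l ∈ Finset.range (M + 1), ‖c l‖ ^ 2 * ze n l x) := by
  have hgi : Integrable g (sg n) := Integrable.of_bound hgm B hgB
  rw [← Kr_int hgi hg m M c γ hc hM x hz.ne']
  have hKc : Continuous (fun y => Kr m M c x y) := by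
    unfold Kr
    fun_prop
  have hKi : Integrable (fun y => ‖Kr m M c x y‖) (sg n) := int_c ⟨_, hKc.norm⟩
  have h1 : ‖∫ y, Kr m M c x y * g y ∂(sg n)‖ ≤ B * ∫ y, ‖Kr m M c x y‖ ∂(sg n) := by
    calc ‖∫ y, Kr m M c x y * g y ∂(sg n)‖ ≤ ∫ y, B * ‖Kr m M c x y‖ ∂(sg n) := by
          refine norm_integral_le_of_norm_le (hKi.const_mul B) ?_
          filter_upwards [hgB] with y hy
          rw [norm_mul, mul_comm]
          exact mul_le_mul_of_nonneg_right hy (norm_nonneg _)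
      _ = _ := integral_const_mul _ _
  calc ‖∫ y, Kr m M c x y * g y ∂(sg n)‖ ^ 2 ≤ (B * ∫ y, ‖Kr m M c x y‖ ∂(sg n)) ^ 2 :=
        pow_le_pow_left₀ (norm_nonneg _) h1 2
    _ = B ^ 2 * (∫ y, ‖Kr m M c x y‖ ∂(sg n)) ^ 2 := by ring
    _ ≤ _ := mul_le_mul_of_nonneg_left (Kr_norm m M c x hz) (by positivity)

end Pool.Agent.N303.SH
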