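import Pool.Agent.N303.SH.F
import Pool.Agent.R235.VE.Self

set_option autoImplicit false

/-! The recurrences of the Bessel functions, from rotations of the sphere. -/

open MeasureTheory Metric Set Filter Topology
open scoped ENNReal RealInnerProductSpace Pointwise

namespace Pool.Agent.N303.SH

variable {n : ℕ}

/-- rotation by `exp (t A)` -/
noncomputable def rexp (A : E n →L[ℝ] E n) (hA : ∀ x y : E n, ⟪A x, y⟫ = -⟪x, A y⟫) (t : ℝ) :
    E n ≃ₗᵢ[ℝ] E n :=
  LinearIsometry.toLinearIsometryEquiv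
    (⟨(NormedSpace.exp (t • A) : E n →L[ℝ] E n).toLinearMap, R235.VE.exp_norm hA t⟩ :
      E n →ₗᵢ[ℝ] E n) rfl

lemma rexp_apply (A : E n →L[ℝ] E n) (hA : ∀ x y : E n, ⟪A x, y⟫ = -⟪x, A y⟫) (t : ℝ) (x : E n) :
    rexp A hA t x = NormedSpace.exp (t • A) x := rfl

lemma rexp_deriv (A : E n →L[ℝ] E n) (hA : ∀ x y : E n, ⟪A x, y⟫ = -⟪x, A y⟫) (a x : E n) (t : ℝ) :
    HasDerivAt (fun s => ⟪a, rexp A hA s x⟫) ⟪a, A (rexp A hA t x)⟫ t := by
  simp only [rexp_apply]
  have h := (hasDerivAt_const t a).inner ℝ (R235.VE.exp_deriv A x t)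
  simpa using h

/-- the integral of the derivative along a rotation field vanishes -/
lemma rotint (A : E n →L[ℝ] E n) (hA : ∀ x y : E n, ⟪A x, y⟫ = -⟪x, A y⟫) {G G' : E n → ℂ}
    (hG : Continuous G) (hG' : Continuous G')
    (hd : ∀ (x : E n) (s : ℝ), HasDerivAt (fun s => G (rexp A hA s x)) (G' (rexp A hA s x)) s) :
    ∫ x : S n, G' (x : E n) ∂(sg n) = 0 := by
  obtain ⟨C, hC⟩ := (isCompact_closedBall (0 : E n) 1).exists_bound_of_continuousOn
    hG'.continuousOn
  have key := hasDerivAt_integral_of_dominated_loc_of_deriv_le (μ := sg n)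
    (F := fun (t : ℝ) (x : S n) => G (rexp A hA t (x : E n)))
    (F' := fun (t : ℝ) (x : S n) => G' (rexp A hA t (x : E n)))
    (x₀ := (0:ℝ)) (s := Set.univ) (bound := fun _ => C) Filter.univ_mem ?_ ?_ ?_ ?_ ?_ ?_
  · have h1 : (fun t : ℝ => ∫ x : S n, G (rexp A hA t (x : E n)) ∂(sg n)) =
        fun _ => ∫ x : S n, G (x : E n) ∂(sg n) := by
      funext t
      exact rot_int (rexp A hA t) (fun x : S n => G (x : E n))
    have h2 := key.2
    rw [h1] at h2
    have h3 := h2.unique (hasDerivAt_const (0:ℝ) _)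
    have h4 : ∫ x : S n, G' (rexp A hA 0 (x : E n)) ∂(sg n) = ∫ x : S n, G' (x : E n) ∂(sg n) :=
      rot_int (rexp A hA 0) (fun x : S n => G' (x : E n))
    rw [← h4]; exact h3
  · refine Filter.Eventually.of_forall fun t => ?_
    exact (hG.comp ((rexp A hA t).continuous.comp continuous_subtype_val)).aestronglyMeasurable
  · exact int_cc (hG.comp ((rexp A hA 0).continuous.comp continuous_subtype_val))
  · exact (hG'.comp ((rexp A hA 0).continuous.comp continuous_subtype_val)).aestronglyMeasurable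
  · refine Filter.Eventually.of_forall fun x t _ => ?_
    refine hC _ ?_
    rw [mem_closedBall_zero_iff, (rexp A hA t).norm_map, S_norm]
  · exact integrable_const _
  · exact Filter.Eventually.of_forall fun x t _ => hd x t

/-- derivative of the oscillatory integrals -/
lemma osc_deriv (u : E n) (hu : ‖u‖ = 1) {f : S n → ℂ} (hf : Continuous f) (t : ℝ) :
    HasDerivAt (fun s : ℝ => ∫ x : S n, Complex.exp (-(s * ⟪u, (x : E n)⟫ : ℝ) * Complex.I) * f x ∂(sg n))
      (∫ x : S n, Complex.exp (-(t * ⟪u, (x : E n)⟫ : ℝ) * Complex.I) *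
        (-(⟪u, (x : E n)⟫ : ℝ) * Complex.I * f x) ∂(sg n)) t := by
  obtain ⟨C, hC⟩ := isCompact_univ.exists_bound_of_continuousOn hf.continuousOn
  have hb : ∀ x : S n, |⟪u, (x : E n)⟫| ≤ 1 := by
    intro x
    have := abs_real_inner_le_norm u (x : E n)
    rwa [hu, S_norm, mul_one] at this
  have hn : ∀ s : ℝ, ∀ x : S n, ‖Complex.exp (-(s * ⟪u, (x : E n)⟫ : ℝ) * Complex.I)‖ = 1 := by
    intro s x
    rw [← Complex.ofReal_neg, Complex.norm_exp_ofReal_mul_I]
  refine (hasDerivAt_integral_of_dominated_loc_of_deriv_le (μ := sg n)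
    (F := fun (s : ℝ) (x : S n) => Complex.exp (-(s * ⟪u, (x : E n)⟫ : ℝ) * Complex.I) * f x)
    (F' := fun (s : ℝ) (x : S n) => Complex.exp (-(s * ⟪u, (x : E n)⟫ : ℝ) * Complex.I) *
        (-(⟪u, (x : E n)⟫ : ℝ) * Complex.I * f x))
    (x₀ := t) (s := Set.univ) (bound := fun _ => C) Filter.univ_mem ?_ ?_ ?_ ?_ ?_ ?_).2
  · exact Filter.Eventually.of_forall fun s => (by fun_prop :
      Continuous _).aestronglyMeasurable
  · exact int_cc (by fun_prop)
  · exact (by fun_prop : Continuous _).aestronglyMeasurable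
  · refine Filter.Eventually.of_forall fun x s _ => ?_
    rw [norm_mul, hn, one_mul, norm_mul, norm_mul, norm_neg, Complex.norm_I, mul_one,
      Complex.norm_real, Real.norm_eq_abs]
    have h1 := hC x (mem_univ x)
    calc |⟪u, (x : E n)⟫| * ‖f x‖ ≤ 1 * C :=
          mul_le_mul (hb x) h1 (norm_nonneg _) zero_le_one
      _ = C := one_mul C
  · exact integrable_const _
  · refine Filter.Eventually.of_forall fun x s _ => ?_
    have h1 : HasDerivAt (fun s : ℝ => (-(s * ⟪u, (x : E n)⟫ : ℝ) : ℂ) * Complex.I)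
        (-(⟪u, (x : E n)⟫ : ℝ) * Complex.I) s := by
      have h2 : HasDerivAt (fun s : ℝ => s * ⟪u, (x : E n)⟫) ⟪u, (x : E n)⟫ s := by
        simpa using (hasDerivAt_id s).mul_const ⟪u, (x : E n)⟫
      exact (h2.ofReal_comp.neg).mul_const Complex.I
    have h3 := (h1.cexp).mul_const (f x)
    refine h3.congr_deriv ?_
    ring

/-- the complex numbers `⟨u,x⟩ + i⟨v,x⟩` -/
noncomputable def zz (u v x : E n) : ℂ := (⟪u, x⟫ : ℝ) + (⟪v, x⟫ : ℝ) * Complex.I

/-- the exponential -/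
noncomputable def ex (u : E n) (t : ℝ) (x : E n) : ℂ := Complex.exp (-(t * ⟪u, x⟫ : ℝ) * Complex.I)

/-- Bessel functions -/
noncomputable def Fk (u v : E n) (k : ℕ) (t : ℝ) : ℂ :=
  ∫ x : S n, ex u t (x : E n) * zz u v x ^ k ∂(sg n)

lemma Ik_eq (u v : E n) (k : ℕ) (r : ℝ) : Ik u v k r = Fk u v k (2 * Real.pi * r) := by
  unfold Ik Fk ex zz
  congr 1
  ext x
  congr 3
  push_cast
  ring

lemma zz_cont (u v : E n) : Continuous (zz u v) := by
  unfold zz; fun_prop

lemma ex_cont (u : E n) (t : ℝ) : Continuous (ex u t) := by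
  unfold ex; fun_prop

variable {u v : E n} (h : ON2 u v)

include h in
/-- the first identity -/
lemma rot1 (k : ℕ) (t : ℝ) : (t : ℂ) * ∫ x : S n, ex u t (x : E n) * ((⟪v, (x : E n)⟫ : ℝ) * zz u v x ^ k) ∂(sg n) =
    -(k : ℂ) * Fk u v k t := by
  set A := R235.VE.Aij u v with hA
  have hAs : ∀ x y : E n, ⟪A x, y⟫ = -⟪x, A y⟫ := R235.VE.Aij_skew u v
  have hAu : ∀ x, ⟪u, A x⟫ = -⟪v, x⟫ := by
    intro x
    rw [hA, R235.VE.Aij_apply, inner_sub_right, inner_smul_right, inner_smul_right, h.huv,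
      real_inner_self_eq_norm_sq, h.hu]
    ring
  have hAv : ∀ x, ⟪v, A x⟫ = ⟪u, x⟫ := by
    intro x
    rw [hA, R235.VE.Aij_apply, inner_sub_right, inner_smul_right, inner_smul_right,
      real_inner_comm u v, h.huv, real_inner_self_eq_norm_sq, h.hv]
    ring
  have key := rotint A hAs (G := fun x => ex u t x * zz u v x ^ k)
    (G' := fun x => Complex.I * ((t : ℂ) * (ex u t x * ((⟪v, x⟫ : ℝ) * zz u v x ^ k)) +
      (k : ℂ) * (ex u t x * zz u v x ^ k)))
    ((ex_cont u t).mul ((zz_cont u v).pow k)) ?_ ?_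
  · have i1 : Integrable (fun x : S n => (t : ℂ) * (ex u t (x : E n) * ((⟪v, (x : E n)⟫ : ℝ) * zz u v x ^ k)))
        (sg n) := by
      apply int_cc
      have := ex_cont u t
      have := zz_cont u v
      fun_prop
    have i2 : Integrable (fun x : S n => (k : ℂ) * (ex u t (x : E n) * zz u v x ^ k))
        (sg n) := by
      apply int_cc
      have := ex_cont u t
      have := zz_cont u v
      fun_prop
    rw [integral_const_mul, integral_add i1 i2, integral_const_mul, integral_const_mul] at key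
    have h2 := (mul_eq_zero.1 key).resolve_left Complex.I_ne_zero
    unfold Fk
    linear_combination h2
  · have := ex_cont u t
    have := zz_cont u v
    fun_prop
  · intro x s
    set y := rexp A hAs s x with hy
    have d1 : HasDerivAt (fun s => ⟪u, rexp A hAs s x⟫) (-⟪v, y⟫) s := by
      have := rexp_deriv A hAs u x s
      rwa [hAu] at this
    have d2 : HasDerivAt (fun s => ⟪v, rexp A hAs s x⟫) ⟪u, y⟫ s := by
      have := rexp_deriv A hAs v x s
      rwa [hAv] at this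
    have d3 : HasDerivAt (fun s => ex u t (rexp A hAs s x))
        (ex u t y * ((t : ℂ) * (⟪v, y⟫ : ℝ) * Complex.I)) s := by
      have e1 : HasDerivAt (fun s => (-(t * ⟪u, rexp A hAs s x⟫ : ℝ) : ℂ) * Complex.I)
          (-((t * (-⟪v, y⟫) : ℝ) : ℂ) * Complex.I) s :=
        (((d1.const_mul t).ofReal_comp).neg).mul_const Complex.I
      refine e1.cexp.congr_deriv ?_
      unfold ex
      push_cast
      ring
    have d4 : HasDerivAt (fun s => zz u v (rexp A hAs s x)) (Complex.I * zz u v y) s := by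
      have e1 := d1.ofReal_comp.add (d2.ofReal_comp.mul_const Complex.I)
      refine e1.congr_deriv ?_
      unfold zz
      push_cast
      linear_combination (-(⟪v, y⟫ : ℝ) : ℂ) * Complex.I_sq
    have d5 := d3.mul (d4.pow k)
    refine d5.congr_deriv ?_
    rcases Nat.eq_zero_or_pos k with hk | hk
    · subst hk
      simp
      ring
    · obtain ⟨j, rfl⟩ := Nat.exists_eq_add_of_le' hk
      simp only [Nat.succ_eq_add_one, zero_add, Nat.add_sub_cancel, Pi.pow_apply, ← hy]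
      push_cast
      ring

/-- the second identity -/
lemma rot2 {w : E n} (hu : ‖u‖ = 1) (hw : ‖w‖ = 1) (huw : ⟪u, w⟫ = 0) (t : ℝ) :
    ∫ x : S n, ex u t (x : E n) * (⟪u, (x : E n)⟫ : ℝ) ∂(sg n) +
      (t : ℂ) * Complex.I * ∫ x : S n, ex u t (x : E n) * ((⟪w, (x : E n)⟫ : ℝ) : ℂ) ^ 2 ∂(sg n) = 0 := by
  set A := R235.VE.Aij u w with hA
  have hAs : ∀ x y : E n, ⟪A x, y⟫ = -⟪x, A y⟫ := R235.VE.Aij_skew u w
  have hAu : ∀ x, ⟪u, A x⟫ = -⟪w, x⟫ := by
    intro x
    rw [hA, R235.VE.Aij_apply, inner_sub_right, inner_smul_right, inner_smul_right, huw,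
      real_inner_self_eq_norm_sq, hu]
    ring
  have hAv : ∀ x, ⟪w, A x⟫ = ⟪u, x⟫ := by
    intro x
    rw [hA, R235.VE.Aij_apply, inner_sub_right, inner_smul_right, inner_smul_right,
      real_inner_comm u w, huw, real_inner_self_eq_norm_sq, hw]
    ring
  have key := rotint A hAs (G := fun x => ex u t x * (⟪w, x⟫ : ℝ))
    (G' := fun x => ex u t x * (⟪u, x⟫ : ℝ) +
      (t : ℂ) * Complex.I * (ex u t x * ((⟪w, x⟫ : ℝ) : ℂ) ^ 2)) ?_ ?_ ?_
  · have i1 : Integrable (fun x : S n => ex u t (x : E n) * (⟪u, (x : E n)⟫ : ℝ)) (sg n) := by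
      apply int_cc
      have := ex_cont u t
      fun_prop
    have i2 : Integrable (fun x : S n => (t : ℂ) * Complex.I *
        (ex u t (x : E n) * ((⟪w, (x : E n)⟫ : ℝ) : ℂ) ^ 2)) (sg n) := by
      apply int_cc
      have := ex_cont u t
      fun_prop
    rw [integral_add i1 i2, integral_const_mul] at key
    exact key
  · have := ex_cont u t
    fun_prop
  · have := ex_cont u t
    fun_prop
  · intro x s
    set y := rexp A hAs s x with hy
    have d1 : HasDerivAt (fun s => ⟪u, rexp A hAs s x⟫) (-⟪w, y⟫) s := by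
      have := rexp_deriv A hAs u x s
      rwa [hAu] at this
    have d2 : HasDerivAt (fun s => ⟪w, rexp A hAs s x⟫) ⟪u, y⟫ s := by
      have := rexp_deriv A hAs w x s
      rwa [hAv] at this
    have d3 : HasDerivAt (fun s => ex u t (rexp A hAs s x))
        (ex u t y * ((t : ℂ) * (⟪w, y⟫ : ℝ) * Complex.I)) s := by
      have e1 : HasDerivAt (fun s => (-(t * ⟪u, rexp A hAs s x⟫ : ℝ) : ℂ) * Complex.I)
          (-((t * (-⟪w, y⟫) : ℝ) : ℂ) * Complex.I) s :=
        (((d1.const_mul t).ofReal_comp).neg).mul_const Complex.I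
      refine e1.cexp.congr_deriv ?_
      unfold ex
      push_cast
      ring
    have d5 := d3.mul d2.ofReal_comp
    refine d5.congr_deriv ?_
    rw [← hy]
    ring

/-- the first basis vector -/
noncomputable def e0 (c : ℕ) : E (c + 2) := EuclideanSpace.single 0 1
/-- the second basis vector -/
noncomputable def e1 (c : ℕ) : E (c + 2) := EuclideanSpace.single 1 1

lemma on_e (c : ℕ) : ON2 (e0 c) (e1 c) := by
  refine ⟨by simp [e0], by simp [e1], ?_⟩
  unfold e0 e1
  rw [EuclideanSpace.inner_single_left]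
  simp

lemma inner_e0 (c : ℕ) (x : E (c + 2)) : ⟪e0 c, x⟫ = x 0 := by
  unfold e0
  rw [EuclideanSpace.inner_single_left]
  simp

/-- Bessel's equation for the Fourier transform of the surface measure -/
lemma base (c : ℕ) (t : ℝ) :
    ((c : ℂ) + 1) * ∫ x : S (c + 2), ex (e0 c) t (x : E (c + 2)) * (⟪e0 c, (x : E (c + 2))⟫ : ℝ) ∂(sg (c + 2)) +
      (t : ℂ) * Complex.I * ∫ x : S (c + 2), ex (e0 c) t (x : E (c + 2)) *
        (1 - ((⟪e0 c, (x : E (c + 2))⟫ : ℝ) : ℂ) ^ 2) ∂(sg (c + 2)) = 0 := by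
  have h1 : ∀ j : Fin (c + 1), ⟪e0 c, (EuclideanSpace.single j.succ (1 : ℝ) : E (c + 2))⟫ = 0 := by
    intro j
    rw [inner_e0]
    simp
  have h2 := fun j : Fin (c + 1) => rot2 (u := e0 c) (w := EuclideanSpace.single j.succ (1 : ℝ))
    (on_e c).hu (by simp) (h1 j) t
  have h3 := Finset.sum_congr (rfl : (Finset.univ : Finset (Fin (c + 1))) = Finset.univ)
    (fun j _ => h2 j)
  rw [Finset.sum_const_zero, Finset.sum_add_distrib, ← Finset.mul_sum, Finset.sum_const,
    Finset.card_univ, Fintype.card_fin, nsmul_eq_mul] at h3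
  have h4 : ∑ j : Fin (c + 1), ∫ x : S (c + 2), ex (e0 c) t (x : E (c + 2)) *
      ((⟪(EuclideanSpace.single j.succ (1 : ℝ) : E (c + 2)), (x : E (c + 2))⟫ : ℝ) : ℂ) ^ 2 ∂(sg (c + 2)) =
      ∫ x : S (c + 2), ex (e0 c) t (x : E (c + 2)) *
        (1 - ((⟪e0 c, (x : E (c + 2))⟫ : ℝ) : ℂ) ^ 2) ∂(sg (c + 2)) := by
    rw [← integral_finsetSum]
    · congr 1
      ext x
      rw [← Finset.mul_sum]
      congr 1
      have h5 : ‖(x : E (c + 2))‖ ^ 2 = 1 := by rw [S_norm]; norm_num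
      rw [EuclideanSpace.real_norm_sq_eq, Fin.sum_univ_succ] at h5
      rw [inner_e0]
      have h6 : ∀ j : Fin (c + 1), ⟪(EuclideanSpace.single j.succ (1 : ℝ) : E (c + 2)), (x : E (c + 2))⟫ =
          (x : E (c + 2)) j.succ := by
        intro j
        rw [EuclideanSpace.inner_single_left]
        simp
      simp only [h6]
      have h7 : ∑ j : Fin (c + 1), (x : E (c + 2)) j.succ ^ 2 = 1 - (x : E (c + 2)) 0 ^ 2 := by
        linarith
      exact_mod_cast h7
    · intro j _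
      apply int_cc
      have := ex_cont (e0 c) t
      fun_prop
  rw [h4] at h3
  push_cast at h3
  exact h3

/-- normalised Bessel functions -/
noncomputable def bb (c k : ℕ) (t : ℝ) : ℂ := Complex.I ^ k * Fk (e0 c) (e1 c) k t

lemma Fk_deriv (c k : ℕ) (t : ℝ) : HasDerivAt (Fk (e0 c) (e1 c) k)
    (∫ x : S (c + 2), ex (e0 c) t (x : E (c + 2)) * (-(⟪e0 c, (x : E (c + 2))⟫ : ℝ) * Complex.I *
      zz (e0 c) (e1 c) x ^ k) ∂(sg (c + 2))) t := by
  have h1 := osc_deriv (e0 c) (on_e c).hu (f := fun x : S (c + 2) => zz (e0 c) (e1 c) (x : E (c + 2)) ^ k)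
    (by have := zz_cont (e0 c) (e1 c); fun_prop) t
  exact h1

lemma S1 (c k : ℕ) {t : ℝ} (ht : t ≠ 0) :
    HasDerivAt (bb c k) (((k : ℝ) / t : ℝ) * bb c k t - bb c (k + 1) t) t := by
  have h1 := (Fk_deriv c k t).const_mul (Complex.I ^ k)
  refine h1.congr_deriv ?_
  have ht' : (t : ℂ) ≠ 0 := by exact_mod_cast ht
  have h2 := rot1 (on_e c) k t
  set X := ∫ x : S (c + 2), ex (e0 c) t (x : E (c + 2)) * ((⟪e0 c, (x : E (c + 2))⟫ : ℝ) *
    zz (e0 c) (e1 c) x ^ k) ∂(sg (c + 2)) with hX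
  set Y := ∫ x : S (c + 2), ex (e0 c) t (x : E (c + 2)) * ((⟪e1 c, (x : E (c + 2))⟫ : ℝ) *
    zz (e0 c) (e1 c) x ^ k) ∂(sg (c + 2)) with hY
  have h3 : Fk (e0 c) (e1 c) (k + 1) t = X + Complex.I * Y := by
    rw [hX, hY, ← integral_const_mul, ← integral_add]
    · unfold Fk
      congr 1
      ext x
      rw [pow_succ, zz]
      ring
    · apply int_cc
      have := ex_cont (e0 c) t
      have := zz_cont (e0 c) (e1 c)
      fun_prop
    · apply int_cc
      have := ex_cont (e0 c) t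
      have := zz_cont (e0 c) (e1 c)
      fun_prop
  have h4 : ∫ x : S (c + 2), ex (e0 c) t (x : E (c + 2)) * (-(⟪e0 c, (x : E (c + 2))⟫ : ℝ) * Complex.I *
      zz (e0 c) (e1 c) x ^ k) ∂(sg (c + 2)) = -Complex.I * X := by
    rw [hX, ← integral_const_mul]
    congr 1
    ext x
    ring
  rw [h4]
  unfold bb
  rw [h3, pow_succ]
  have h5 : Y = -(k : ℂ) / t * Fk (e0 c) (e1 c) k t := by
    field_simp
    linear_combination h2
  rw [h5]
  push_cast
  linear_combination (-((k : ℂ) / t * Fk (e0 c) (e1 c) k t * Complex.I ^ k)) * Complex.I_sq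

lemma S2 (c : ℕ) : ∀ (k : ℕ) {t : ℝ}, t ≠ 0 →
    HasDerivAt (bb c (k + 1)) (bb c k t - (((k + c + 1 : ℕ) : ℝ) / t : ℝ) * bb c (k + 1) t) t := by
  intro k
  induction k with
  | zero =>
    intro t ht
    have ht' : (t : ℂ) ≠ 0 := by exact_mod_cast ht
    have hb1 : ∀ s : ℝ, s ≠ 0 → bb c 1 s = ∫ x : S (c + 2), ex (e0 c) s (x : E (c + 2)) *
        ((⟪e0 c, (x : E (c + 2))⟫ : ℝ) * Complex.I) ∂(sg (c + 2)) := by
      intro s hs
      have h1 := (Fk_deriv c 0 s).const_mul (Complex.I ^ 0)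
      have h2 := h1.unique (S1 c 0 hs)
      simp only [Nat.cast_zero, zero_div, Complex.ofReal_zero, zero_mul, zero_sub, pow_zero,
        one_mul, mul_one, zero_add] at h2
      rw [← neg_eq_iff_eq_neg] at h2
      rw [← h2, ← integral_neg]
      congr 1
      ext x
      ring
    have h3 := osc_deriv (e0 c) (on_e c).hu
      (f := fun x : S (c + 2) => ((⟪e0 c, (x : E (c + 2))⟫ : ℝ) : ℂ) * Complex.I) (by fun_prop) t
    have h4 : bb c (0 + 1) =ᶠ[𝓝 t] fun s => ∫ x : S (c + 2), Complex.exp (-(s * ⟪e0 c, (x : E (c + 2))⟫ : ℝ) *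
        Complex.I) * (((⟪e0 c, (x : E (c + 2))⟫ : ℝ) : ℂ) * Complex.I) ∂(sg (c + 2)) := by
      filter_upwards [isOpen_ne.mem_nhds ht] with s hs
      exact hb1 s hs
    refine (h3.congr_of_eventuallyEq h4).congr_deriv ?_
    have h5 := base c t
    have h6 : bb c 0 t = ∫ x : S (c + 2), ex (e0 c) t (x : E (c + 2)) ∂(sg (c + 2)) := by
      unfold bb Fk
      simp
    have h7 : ∫ x : S (c + 2), ex (e0 c) t (x : E (c + 2)) *
        (1 - ((⟪e0 c, (x : E (c + 2))⟫ : ℝ) : ℂ) ^ 2) ∂(sg (c + 2)) = bb c 0 t -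
        ∫ x : S (c + 2), ex (e0 c) t (x : E (c + 2)) * ((⟪e0 c, (x : E (c + 2))⟫ : ℝ) : ℂ) ^ 2 ∂(sg (c + 2)) := by
      rw [h6, ← integral_sub]
      · congr 1
        ext x
        ring
      · apply int_cc
        have := ex_cont (e0 c) t
        fun_prop
      · apply int_cc
        have := ex_cont (e0 c) t
        fun_prop
    rw [h7] at h5
    have h8 : bb c 1 t = Complex.I * ∫ x : S (c + 2), ex (e0 c) t (x : E (c + 2)) *
        (⟪e0 c, (x : E (c + 2))⟫ : ℝ) ∂(sg (c + 2)) := by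
      rw [hb1 t ht, ← integral_const_mul]
      congr 1
      ext x
      ring
    have h9 : ∫ x : S (c + 2), Complex.exp (-(t * ⟪e0 c, (x : E (c + 2))⟫ : ℝ) * Complex.I) *
        (-(⟪e0 c, (x : E (c + 2))⟫ : ℝ) * Complex.I *
          (((⟪e0 c, (x : E (c + 2))⟫ : ℝ) : ℂ) * Complex.I)) ∂(sg (c + 2)) =
        ∫ x : S (c + 2), ex (e0 c) t (x : E (c + 2)) * ((⟪e0 c, (x : E (c + 2))⟫ : ℝ) : ℂ) ^ 2 ∂(sg (c + 2)) := by
      congr 1
      ext x
      unfold ex
      linear_combination (-Complex.exp (-(t * ⟪e0 c, (x : E (c + 2))⟫ : ℝ) * Complex.I) *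
        ((⟪e0 c, (x : E (c + 2))⟫ : ℝ) : ℂ) ^ 2) * Complex.I_sq
    rw [h9, zero_add, h8]
    set U := ∫ x : S (c + 2), ex (e0 c) t (x : E (c + 2)) *
        (⟪e0 c, (x : E (c + 2))⟫ : ℝ) ∂(sg (c + 2))
    set V := ∫ x : S (c + 2), ex (e0 c) t (x : E (c + 2)) * ((⟪e0 c, (x : E (c + 2))⟫ : ℝ) : ℂ) ^ 2 ∂(sg (c + 2))
    have hI := Complex.I_sq
    have h10 : V = bb c 0 t - ((c : ℂ) + 1) / t * (Complex.I * U) := by
      field_simp
      linear_combination Complex.I * h5 + (t * (V - bb c 0 t)) * hI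
    rw [h10]
    push_cast
    ring
  | succ k ih =>
    intro t ht
    have ht' : (t : ℂ) ≠ 0 := by exact_mod_cast ht
    have h1 : ∀ s : ℝ, s ≠ 0 → bb c (k + 2) s = ((2 * k + c + 2 : ℕ) : ℂ) / s * bb c (k + 1) s - bb c k s := by
      intro s hs
      have hs' : (s : ℂ) ≠ 0 := by exact_mod_cast hs
      have h2 := (S1 c (k + 1) hs).unique (ih hs)
      push_cast at h2 ⊢
      linear_combination -h2
    have h4 : bb c (k + 1 + 1) =ᶠ[𝓝 t] fun s => ((2 * k + c + 2 : ℕ) : ℂ) * ((s⁻¹ : ℝ) : ℂ) * bb c (k + 1) s - bb c k s := by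
      filter_upwards [isOpen_ne.mem_nhds ht] with s hs
      rw [show k + 1 + 1 = k + 2 by ring, h1 s hs]
      push_cast
      rw [div_eq_mul_inv]
    have d0 : HasDerivAt (fun s : ℝ => ((s⁻¹ : ℝ) : ℂ)) ((-(t ^ 2)⁻¹ : ℝ) : ℂ) t :=
      (hasDerivAt_inv ht).ofReal_comp
    have d1 := (((d0.const_mul (((2 * k + c + 2 : ℕ) : ℂ))).mul (ih ht)).sub (S1 c k ht))
    refine (d1.congr_of_eventuallyEq h4).congr_deriv ?_
    rw [show k + 1 + 1 = k + 2 by ring, h1 t ht]
    push_cast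
    field_simp
    ring

lemma bb_im (c : ℕ) : ∀ (k : ℕ) (t : ℝ), 0 < t → (bb c k t).im = 0 := by
  intro k
  induction k with
  | zero =>
    intro t ht
    have h6 : bb c 0 t = ∫ x : S (c + 2), ex (e0 c) t (x : E (c + 2)) ∂(sg (c + 2)) := by
      unfold bb Fk
      simp
    rw [← Complex.conj_eq_iff_im, h6, ← integral_conj]
    rw [← rot_int (LinearIsometryEquiv.neg ℝ) (fun x : S (c + 2) => ex (e0 c) t (x : E (c + 2)))]
    congr 1
    ext x
    unfold ex
    rw [← Complex.exp_conj, rot_coe]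
    congr 1
    simp
  | succ k ih =>
    intro t ht
    have h1 := S1 c k ht.ne'
    have h2 : HasDerivAt (fun s => (bb c k s).im) ((((k : ℝ) / t : ℝ) * bb c k t - bb c (k + 1) t).im) t :=
      Complex.imCLM.hasFDerivAt.comp_hasDerivAt t h1
    have h3 : (fun s => (bb c k s).im) =ᶠ[𝓝 t] fun _ => (0:ℝ) := by
      filter_upwards [isOpen_Ioi.mem_nhds ht] with s hs
      exact ih s hs
    have h4 := (h2.congr_of_eventuallyEq h3.symm).unique (hasDerivAt_const t (0:ℝ))
    rw [Complex.sub_im, Complex.im_ofReal_mul, ih t ht, mul_zero, zero_sub, neg_eq_zero] at h4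
    exact h4

/-- real Bessel functions -/
noncomputable def be (c k : ℕ) (t : ℝ) : ℝ := (bb c k t).re

lemma bb_eq (c k : ℕ) {t : ℝ} (ht : 0 < t) : bb c k t = (be c k t : ℂ) := by
  apply Complex.ext
  · rfl
  · rw [bb_im c k t ht]; rfl

lemma norm_Fk (c k : ℕ) {t : ℝ} (ht : 0 < t) : ‖Fk (e0 c) (e1 c) k t‖ = |be c k t| := by
  rw [← Real.norm_eq_abs, ← Complex.norm_real, ← bb_eq c k ht]
  unfold bb
  rw [norm_mul, norm_pow, Complex.norm_I, one_pow, one_mul]

lemma T1 (c k : ℕ) {t : ℝ} (ht : 0 < t) :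
    HasDerivAt (be c k) ((k : ℝ) / t * be c k t - be c (k + 1) t) t := by
  have h1 : HasDerivAt (fun s => (bb c k s).re) ((((k : ℝ) / t : ℝ) * bb c k t - bb c (k + 1) t).re) t :=
    Complex.reCLM.hasFDerivAt.comp_hasDerivAt t (S1 c k ht.ne')
  refine h1.congr_deriv ?_
  rw [Complex.sub_re, Complex.re_ofReal_mul]
  rfl

lemma T2 (c k : ℕ) {t : ℝ} (ht : 0 < t) :
    HasDerivAt (be c (k + 1)) (be c k t - ((k + c + 1 : ℕ) : ℝ) / t * be c (k + 1) t) t := by
  have h1 : HasDerivAt (fun s => (bb c (k + 1) s).re)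
      ((bb c k t - (((k + c + 1 : ℕ) : ℝ) / t : ℝ) * bb c (k + 1) t).re) t :=
    Complex.reCLM.hasFDerivAt.comp_hasDerivAt t (S2 c k ht.ne')
  refine h1.congr_deriv ?_
  rw [Complex.sub_re, Complex.re_ofReal_mul]
  rfl

lemma Fk_norm_le {u v : E n} (h : ON2 u v) (k : ℕ) (t : ℝ) : ‖Fk u v k t‖ ≤ (sg n).real univ := by
  unfold Fk
  have h1 : ∀ x : S n, ‖ex u t (x : E n) * zz u v x ^ k‖ ≤ 1 := by
    intro x
    rw [norm_mul, norm_pow]
    have e1 : ‖ex u t (x : E n)‖ = 1 := by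
      unfold ex
      rw [← Complex.ofReal_neg, Complex.norm_exp_ofReal_mul_I]
    have e2 : ‖zz u v (x : E n)‖ ≤ 1 := by
      have e3 : ‖zz u v (x : E n)‖ ^ 2 = ⟪u, (x : E n)⟫ ^ 2 + ⟪v, (x : E n)⟫ ^ 2 := by
        rw [Complex.sq_norm, Complex.normSq_apply]
        unfold zz
        simp
        ring
      have e4 : ⟪u, (x : E n)⟫ ^ 2 + ⟪v, (x : E n)⟫ ^ 2 ≤ 1 := by
        have h5 : ‖(x : E n) - ⟪u, (x : E n)⟫ • u - ⟪v, (x : E n)⟫ • v‖ ^ 2 =
            1 - ⟪u, (x : E n)⟫ ^ 2 - ⟪v, (x : E n)⟫ ^ 2 := by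
          rw [← real_inner_self_eq_norm_sq]
          simp only [inner_sub_left, inner_sub_right, inner_smul_left, inner_smul_right,
            real_inner_self_eq_norm_sq, h.hu, h.hv, h.huv, real_inner_comm u v, S_norm,
            real_inner_comm u (x : E n), real_inner_comm v (x : E n), conj_trivial]
          ring
        nlinarith [sq_nonneg ‖(x : E n) - ⟪u, (x : E n)⟫ • u - ⟪v, (x : E n)⟫ • v‖]
      nlinarith [norm_nonneg (zz u v (x : E n))]
    rw [e1, one_mul]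
    exact pow_le_one₀ (norm_nonneg _) e2
  have h2 := norm_integral_le_of_norm_le_const (μ := sg n) (Eventually.of_forall h1)
  simpa using h2

lemma be_le (c k : ℕ) {t : ℝ} (ht : 0 < t) : |be c k t| ≤ (sg (c + 2)).real univ := by
  rw [← norm_Fk c k ht]
  exact Fk_norm_le (on_e c) k t

end Pool.Agent.N303.SH
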