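import Mathlib

set_option autoImplicit false

/-! Uniform pointwise bounds for Bessel type functions. -/

open Set Filter Topology

namespace Pool.Agent.N303.SH

/-- a function with nonnegative derivative on `(a, ∞)` is at most its limit -/
lemma le_lim {f f' : ℝ → ℝ} {a L : ℝ} (hd : ∀ t, a < t → HasDerivAt f (f' t) t)
    (h0 : ∀ t, a < t → 0 ≤ f' t) (hL : Tendsto f atTop (𝓝 L)) {t : ℝ} (ht : a < t) : f t ≤ L := by
  have hm : MonotoneOn f (Ioi a) := by
    apply monotoneOn_of_deriv_nonneg (convex_Ioi a)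
    · exact fun x hx => (hd x hx).continuousAt.continuousWithinAt
    · intro x hx
      rw [interior_Ioi] at hx
      exact (hd x hx).differentiableAt.differentiableWithinAt
    · intro x hx
      rw [interior_Ioi] at hx
      rw [(hd x hx).deriv]
      exact h0 x hx
  apply ge_of_tendsto hL
  filter_upwards [eventually_ge_atTop t] with x hx
  exact hm ht (lt_of_lt_of_le ht hx) hx

lemma mono_of {f f' : ℝ → ℝ} {a b : ℝ} (hd : ∀ t, a < t → t ≤ b → HasDerivAt f (f' t) t)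
    (h0 : ∀ t, a < t → t ≤ b → 0 ≤ f' t) {x y : ℝ} (hx : a < x) (hxy : x ≤ y) (hy : y ≤ b) :
    f x ≤ f y := by
  have hm : MonotoneOn f (Icc x y) := by
    apply monotoneOn_of_deriv_nonneg (convex_Icc x y)
    · exact fun z hz => (hd z (lt_of_lt_of_le hx hz.1) (hz.2.trans hy)).continuousAt.continuousWithinAt
    · intro z hz
      rw [interior_Icc] at hz
      exact (hd z (hx.trans hz.1) (hz.2.le.trans hy)).differentiableAt.differentiableWithinAt
    · intro z hz
      rw [interior_Icc] at hz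
      rw [(hd z (hx.trans hz.1) (hz.2.le.trans hy)).deriv]
      exact h0 z (hx.trans hz.1) (hz.2.le.trans hy)
  exact hm ⟨le_rfl, hxy⟩ ⟨hxy, le_rfl⟩ hxy

/-- `w'' = (μ/t² - 1) w` with the derivative `v` -/
structure Ode (μ : ℝ) (w v : ℝ → ℝ) : Prop where
  dw : ∀ t, 0 < t → HasDerivAt w (v t) t
  dv : ∀ t, 0 < t → HasDerivAt v ((μ / t ^ 2 - 1) * w t) t

section one

variable {μ : ℝ} {w v : ℝ → ℝ} (hμ : 0 ≤ μ) (o : Ode μ w v)

include o in
lemma dN {t : ℝ} (ht : 0 < t) :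
    HasDerivAt (fun t => w t ^ 2 + v t ^ 2) (2 * (μ / t ^ 2) * (w t * v t)) t := by
  refine (((o.dw t ht).pow 2).add ((o.dv t ht).pow 2)).congr_deriv ?_
  simp only [Nat.cast_ofNat, Nat.add_one_sub_one, pow_one]
  ring

include o in
lemma dG {t : ℝ} (ht : 0 < t) :
    HasDerivAt (fun t => (1 - μ / t ^ 2) * w t ^ 2 + v t ^ 2) (2 * μ / t ^ 3 * w t ^ 2) t := by
  have h1 : HasDerivAt (fun t : ℝ => 1 - μ / t ^ 2) (2 * μ / t ^ 3) t := by
    have h2 : HasDerivAt (fun t : ℝ => t ^ 2) (2 * t) t := by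
      simpa using hasDerivAt_pow 2 t
    have h3 := ((hasDerivAt_const t μ).div h2 (by positivity)).const_sub 1
    refine h3.congr_deriv ?_
    field_simp
    ring
  refine ((h1.mul ((o.dw t ht).pow 2)).add ((o.dv t ht).pow 2)).congr_deriv ?_
  simp only [Nat.cast_ofNat, Nat.add_one_sub_one, pow_one, Pi.pow_apply]
  ring

include hμ o in
lemma N_bdd {t : ℝ} (ht : 1 ≤ t) : w t ^ 2 + v t ^ 2 ≤ (w 1 ^ 2 + v 1 ^ 2) * Real.exp μ := by
  have hd : ∀ s, 0 < s → s ≤ t → HasDerivAt (fun s => -((w s ^ 2 + v s ^ 2) * Real.exp (μ / s)))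
      (-((2 * (μ / s ^ 2) * (w s * v s)) * Real.exp (μ / s) +
        (w s ^ 2 + v s ^ 2) * (Real.exp (μ / s) * (-μ / s ^ 2)))) s := by
    intro s hs _
    have h1 : HasDerivAt (fun s : ℝ => μ / s) (-μ / s ^ 2) s := by
      have := (hasDerivAt_const s μ).div (hasDerivAt_id s) hs.ne'
      refine this.congr_deriv ?_
      simp
    exact ((dN o hs).mul h1.exp).neg
  have h := mono_of hd (fun s hs _ => by
    have h1 : 0 < Real.exp (μ / s) := Real.exp_pos _
    have h2 : -((2 * (μ / s ^ 2) * (w s * v s)) * Real.exp (μ / s) +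
        (w s ^ 2 + v s ^ 2) * (Real.exp (μ / s) * (-μ / s ^ 2))) =
        Real.exp (μ / s) * (μ / s ^ 2) * (w s - v s) ^ 2 := by ring
    rw [h2]
    positivity) (x := 1) one_pos ht le_rfl
  simp only [neg_le_neg_iff, div_one] at h
  refine le_trans ?_ h
  have h3 : 1 ≤ Real.exp (μ / t) := Real.one_le_exp (by positivity)
  nlinarith [sq_nonneg (w t), sq_nonneg (v t)]

include hμ o in
lemma N_lim : ∃ A, Tendsto (fun t => w t ^ 2 + v t ^ 2) atTop (𝓝 A) := by
  set G : ℝ → ℝ := fun t => (1 - μ / t ^ 2) * w t ^ 2 + v t ^ 2 with hG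
  have hmono : Monotone fun t => G (max t 1) := by
    intro x y hxy
    apply mono_of (a := 0) (b := max y 1) (fun t ht _ => dG o ht) (fun t ht _ => by positivity)
      (by positivity) (max_le_max_right 1 hxy) le_rfl
  have hbdd : BddAbove (range fun t => G (max t 1)) := by
    refine ⟨(w 1 ^ 2 + v 1 ^ 2) * Real.exp μ, ?_⟩
    rintro _ ⟨t, rfl⟩
    have h1 := N_bdd hμ o (le_max_right t 1)
    refine le_trans ?_ h1
    simp only [hG]
    have : 0 ≤ μ / (max t 1) ^ 2 := by positivity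
    nlinarith [sq_nonneg (w (max t 1))]
  have h1 := tendsto_atTop_ciSup hmono hbdd
  set A := ⨆ i, G (max i 1)
  have h2 : Tendsto G atTop (𝓝 A) := by
    refine h1.congr' ?_
    filter_upwards [eventually_ge_atTop 1] with t ht
    rw [max_eq_left ht]
  have h3 : Tendsto (fun t => μ / t ^ 2 * w t ^ 2) atTop (𝓝 0) := by
    set C := (w 1 ^ 2 + v 1 ^ 2) * Real.exp μ
    have h4 : Tendsto (fun t : ℝ => μ * C / t) atTop (𝓝 0) := tendsto_const_nhds.div_atTop tendsto_id
    refine squeeze_zero' ?_ ?_ h4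
    · filter_upwards [eventually_ge_atTop 1] with t ht
      positivity
    · filter_upwards [eventually_ge_atTop 1] with t ht
      have h5 := N_bdd hμ o ht
      have h6 : w t ^ 2 ≤ C := by nlinarith [sq_nonneg (v t)]
      have h7 : μ / t ^ 2 ≤ μ / t := by
        apply div_le_div_of_nonneg_left hμ (by positivity)
        nlinarith
      calc μ / t ^ 2 * w t ^ 2 ≤ μ / t * C :=
            mul_le_mul h7 h6 (sq_nonneg _) (by positivity)
        _ = μ * C / t := by ring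
  refine ⟨A, ?_⟩
  have h8 := h2.add h3
  rw [add_zero] at h8
  refine h8.congr ?_
  intro t
  simp only [hG]
  ring

variable {A : ℝ} (hA : Tendsto (fun t => w t ^ 2 + v t ^ 2) atTop (𝓝 A))

include hμ o in
lemma w_div : Tendsto (fun t => μ / t ^ 2 * w t ^ 2) atTop (𝓝 0) := by
  set C := (w 1 ^ 2 + v 1 ^ 2) * Real.exp μ
  have h4 : Tendsto (fun t : ℝ => μ * C / t) atTop (𝓝 0) := tendsto_const_nhds.div_atTop tendsto_id
  refine squeeze_zero' ?_ ?_ h4
  · filter_upwards [eventually_ge_atTop 1] with t ht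
    positivity
  · filter_upwards [eventually_ge_atTop 1] with t ht
    have h5 := N_bdd hμ o ht
    have h6 : w t ^ 2 ≤ C := by nlinarith [sq_nonneg (v t)]
    have h7 : μ / t ^ 2 ≤ μ / t := by
      apply div_le_div_of_nonneg_left hμ (by positivity)
      nlinarith
    calc μ / t ^ 2 * w t ^ 2 ≤ μ / t * C :=
          mul_le_mul h7 h6 (sq_nonneg _) (by positivity)
      _ = μ * C / t := by ring

include hμ o hA in
lemma G_le {t : ℝ} (ht : 0 < t) : (1 - μ / t ^ 2) * w t ^ 2 + v t ^ 2 ≤ A := by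
  refine le_lim (a := 0) (fun t ht => dG o ht) (fun t ht => by positivity) ?_ ht
  have h1 := hA.sub (w_div hμ o)
  rw [sub_zero] at h1
  refine h1.congr fun t => ?_
  ring

include hA in
lemma A_nonneg : 0 ≤ A := ge_of_tendsto hA (Eventually.of_forall fun t => by positivity)

lemma z_mul {f g : ℝ → ℝ} {C : ℝ} (hf : ∀ᶠ t in atTop, |f t| ≤ C)
    (hg : Tendsto g atTop (𝓝 0)) : Tendsto (fun t => g t * f t) atTop (𝓝 0) := by
  have h1 : Tendsto (fun t => |g t| * C) atTop (𝓝 0) := by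
    have := hg.abs.mul_const C
    simpa using this
  refine squeeze_zero_norm' ?_ h1
  filter_upwards [hf] with t ht
  rw [norm_mul, Real.norm_eq_abs, Real.norm_eq_abs]
  exact mul_le_mul_of_nonneg_left ht (abs_nonneg _)

noncomputable def Qf (μ t : ℝ) : ℝ := 1 - μ / t ^ 2
noncomputable def al (μ t : ℝ) : ℝ := μ / (2 * t * (t ^ 2 - μ))
noncomputable def ps (μ t : ℝ) : ℝ := μ * (6 * t ^ 2 - μ) / (4 * (t ^ 2 - μ) ^ 3)

lemma dQ (μ : ℝ) {t : ℝ} (ht : 0 < t) : HasDerivAt (Qf μ) (2 * μ / t ^ 3) t := by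
  unfold Qf
  have h2 : HasDerivAt (fun t : ℝ => t ^ 2) (2 * t) t := by
    simpa using hasDerivAt_pow 2 t
  have h3 := ((hasDerivAt_const t μ).div h2 (by positivity)).const_sub 1
  refine h3.congr_deriv ?_
  field_simp
  ring

lemma dal (μ : ℝ) {t : ℝ} (ht : 0 < t) (hD : 0 < t ^ 2 - μ) :
    HasDerivAt (al μ) (-(μ * (3 * t ^ 2 - μ)) / (2 * t ^ 2 * (t ^ 2 - μ) ^ 2)) t := by
  unfold al
  have h2 : HasDerivAt (fun t : ℝ => 2 * t * (t ^ 2 - μ)) (2 * (t ^ 2 - μ) + 2 * t * (2 * t)) t := by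
    have a1 : HasDerivAt (fun t : ℝ => 2 * t) 2 t := by
      simpa using (hasDerivAt_id t).const_mul 2
    have a2 : HasDerivAt (fun t : ℝ => t ^ 2 - μ) (2 * t) t := by
      simpa using (hasDerivAt_pow 2 t).sub_const μ
    exact a1.mul a2
  have hne : 2 * t * (t ^ 2 - μ) ≠ 0 := by positivity
  have h3 := (hasDerivAt_const t μ).div h2 hne
  refine h3.congr_deriv ?_
  field_simp
  ring

lemma dps (μ : ℝ) {t : ℝ} (hD : 0 < t ^ 2 - μ) :
    HasDerivAt (ps μ) (-(3 / 2 * μ * t * (4 * t ^ 2 + μ)) / (t ^ 2 - μ) ^ 4) t := by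
  unfold ps
  have a2 : HasDerivAt (fun t : ℝ => t ^ 2 - μ) (2 * t) t := by
    simpa using (hasDerivAt_pow 2 t).sub_const μ
  have a3 : HasDerivAt (fun t : ℝ => 4 * (t ^ 2 - μ) ^ 3) (4 * (3 * (t ^ 2 - μ) ^ 2 * (2 * t))) t := by
    have := (a2.pow 3).const_mul 4
    refine this.congr_deriv ?_
    norm_num
  have a4 : HasDerivAt (fun t : ℝ => μ * (6 * t ^ 2 - μ)) (μ * (6 * (2 * t))) t := by
    have : HasDerivAt (fun t : ℝ => t ^ 2) (2 * t) t := by simpa using hasDerivAt_pow 2 t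
    exact ((this.const_mul 6).sub_const μ).const_mul μ
  have h3 := a4.div a3 (by positivity)
  refine h3.congr_deriv ?_
  field_simp
  ring

include hμ o in
lemma dX {t : ℝ} (ht : 0 < t) (hD : 0 < t ^ 2 - μ) :
    HasDerivAt (fun t => Qf μ t * w t ^ 2 + (v t + al μ t * w t) ^ 2 / (1 + ps μ t))
      (2 * al μ t * (Qf μ t * w t ^ 2 + (v t + al μ t * w t) ^ 2 / (1 + ps μ t)) +
        (3 / 2 * μ * t * (4 * t ^ 2 + μ)) / (t ^ 2 - μ) ^ 4 *
          (v t + al μ t * w t) ^ 2 / (1 + ps μ t) ^ 2) t := by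
  have hps : 0 ≤ ps μ t := by
    unfold ps
    apply div_nonneg
    · apply mul_nonneg hμ; nlinarith
    · positivity
  have hp1 : 1 + ps μ t ≠ 0 := by positivity
  have h1 := (dQ μ ht).mul ((o.dw t ht).pow 2)
  have h2 := (o.dv t ht).add ((dal μ ht hD).mul (o.dw t ht))
  have h3 : HasDerivAt (fun t => v t + al μ t * w t)
      (al μ t * (v t + al μ t * w t) - Qf μ t * (1 + ps μ t) * w t) t := by
    refine h2.congr_deriv ?_
    unfold al ps Qf
    field_simp
    ring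
  have h4 := (h3.pow 2).div ((dps μ hD).const_add 1) hp1
  refine (h1.add h4).congr_deriv ?_
  simp only [Nat.cast_ofNat, Nat.add_one_sub_one, pow_one, Pi.pow_apply]
  have hQ : 2 * μ / t ^ 3 = 4 * al μ t * Qf μ t := by
    unfold al Qf
    field_simp
    ring
  rw [hQ]
  field_simp
  ring

include hμ o hA in
/-- the Liouville-Green bound -/
theorem LG {t : ℝ} (ht : 0 < t) (hD : μ < t ^ 2) : (1 - μ / t ^ 2) * w t ^ 4 ≤ A ^ 2 := by
  set X : ℝ → ℝ := fun t => Qf μ t * w t ^ 2 + (v t + al μ t * w t) ^ 2 / (1 + ps μ t) with hX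
  set Y : ℝ → ℝ := fun t => (3 / 2 * μ * t * (4 * t ^ 2 + μ)) / (t ^ 2 - μ) ^ 4 *
          (v t + al μ t * w t) ^ 2 / (1 + ps μ t) ^ 2 with hY
  have hsq : ∀ s, Real.sqrt μ < s → 0 < s ∧ 0 < s ^ 2 - μ := by
    intro s hs
    have h1 : 0 < s := lt_of_le_of_lt (Real.sqrt_nonneg _) hs
    refine ⟨h1, ?_⟩
    have := Real.lt_sq_of_sqrt_lt hs
    linarith
  have hps : ∀ s, Real.sqrt μ < s → 0 ≤ ps μ s := by
    intro s hs
    obtain ⟨h1, h2⟩ := hsq s hs
    unfold ps
    apply div_nonneg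
    · apply mul_nonneg hμ; nlinarith
    · positivity
  have hQ : ∀ s, Real.sqrt μ < s → 0 < Qf μ s := by
    intro s hs
    obtain ⟨h1, h2⟩ := hsq s hs
    unfold Qf
    rw [sub_pos, div_lt_one (by positivity)]
    linarith
  have hX0 : ∀ s, Real.sqrt μ < s → 0 ≤ X s := by
    intro s hs
    have := hQ s hs
    have := hps s hs
    simp only [hX]
    positivity
  have hd : ∀ s, Real.sqrt μ < s → HasDerivAt (fun s => X s ^ 2 / Qf μ s)
      (2 * X s * Y s / Qf μ s) s := by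
    intro s hs
    obtain ⟨h1, h2⟩ := hsq s hs
    have h3 := hQ s hs
    have h4 := ((dX hμ o h1 h2).pow 2).div (dQ μ h1) h3.ne'
    refine h4.congr_deriv ?_
    have hQ' : 2 * μ / s ^ 3 = 4 * al μ s * Qf μ s := by
      unfold al Qf
      field_simp
      ring
    rw [hQ']
    simp only [Nat.cast_ofNat, Nat.add_one_sub_one, pow_one, Pi.pow_apply]
    have e1 : Qf μ s * w s ^ 2 + (v s + al μ s * w s) ^ 2 / (1 + ps μ s) = X s := rfl
    have e2 : (3 / 2 * μ * s * (4 * s ^ 2 + μ)) / (s ^ 2 - μ) ^ 4 *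
          (v s + al μ s * w s) ^ 2 / (1 + ps μ s) ^ 2 = Y s := rfl
    rw [e1, e2]
    field_simp
    ring
  have hY0 : ∀ s, Real.sqrt μ < s → 0 ≤ Y s := by
    intro s hs
    obtain ⟨h1, h2⟩ := hsq s hs
    simp only [hY]
    positivity
  -- limits
  set C := (w 1 ^ 2 + v 1 ^ 2) * Real.exp μ
  have hC : ∀ s, 1 ≤ s → w s ^ 2 ≤ C ∧ v s ^ 2 ≤ C := by
    intro s hs
    have h5 := N_bdd hμ o hs
    constructor <;> nlinarith [sq_nonneg (v s), sq_nonneg (w s)]
  have hw : ∀ᶠ s in atTop, |w s ^ 2| ≤ C := by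
    filter_upwards [eventually_ge_atTop 1] with s hs
    rw [abs_of_nonneg (sq_nonneg _)]
    exact (hC s hs).1
  have hv : ∀ᶠ s in atTop, |v s ^ 2| ≤ C := by
    filter_upwards [eventually_ge_atTop 1] with s hs
    rw [abs_of_nonneg (sq_nonneg _)]
    exact (hC s hs).2
  have hwv : ∀ᶠ s in atTop, |w s * v s| ≤ C := by
    filter_upwards [eventually_ge_atTop 1] with s hs
    have h1 := hC s hs
    rw [abs_le]
    constructor <;> nlinarith [sq_nonneg (w s - v s), sq_nonneg (w s + v s)]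
  have l1 : Tendsto (fun s : ℝ => μ / s ^ 2) atTop (𝓝 0) :=
    tendsto_const_nhds.div_atTop (tendsto_pow_atTop two_ne_zero)
  have lQ : Tendsto (Qf μ) atTop (𝓝 1) := by
    have := l1.const_sub 1
    rw [sub_zero] at this
    exact this
  have lal : Tendsto (al μ) atTop (𝓝 0) := by
    unfold al
    apply tendsto_const_nhds.div_atTop
    apply Tendsto.atTop_mul_atTop₀
    · exact tendsto_id.const_mul_atTop two_pos
    · exact tendsto_atTop_add_const_right _ (-μ) (tendsto_pow_atTop two_ne_zero)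
  have lps : Tendsto (ps μ) atTop (𝓝 0) := by
    have h1 : Tendsto (fun s : ℝ => μ * ((6 + 5 * μ) / (4 * (s ^ 2 - μ) ^ 2))) atTop (𝓝 0) := by
      have : Tendsto (fun s : ℝ => (6 + 5 * μ) / (4 * (s ^ 2 - μ) ^ 2)) atTop (𝓝 0) := by
        apply tendsto_const_nhds.div_atTop
        apply Tendsto.const_mul_atTop (by norm_num)
        apply (tendsto_pow_atTop two_ne_zero).comp
        exact tendsto_atTop_add_const_right _ (-μ) (tendsto_pow_atTop two_ne_zero)
      simpa using this.const_mul μ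
    refine squeeze_zero' ?_ ?_ h1
    · filter_upwards [eventually_gt_atTop (Real.sqrt μ)] with s hs
      exact hps s hs
    · filter_upwards [eventually_gt_atTop (Real.sqrt μ), eventually_ge_atTop (Real.sqrt (μ + 1))]
        with s hs hs1
      obtain ⟨h2, h3⟩ := hsq s hs
      have h4 : 1 ≤ s ^ 2 - μ := by
        have h5 : μ + 1 ≤ s ^ 2 := by
          rw [← Real.sq_sqrt (by linarith : 0 ≤ μ + 1)]
          exact pow_le_pow_left₀ (Real.sqrt_nonneg _) hs1 2
        linarith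
      unfold ps
      rw [mul_div_assoc]
      apply mul_le_mul_of_nonneg_left _ hμ
      rw [div_le_div_iff₀ (by positivity) (by positivity)]
      have h6 : 6 * s ^ 2 - μ ≤ (6 + 5 * μ) * (s ^ 2 - μ) := by nlinarith
      calc (6 * s ^ 2 - μ) * (4 * (s ^ 2 - μ) ^ 2)
          ≤ (6 + 5 * μ) * (s ^ 2 - μ) * (4 * (s ^ 2 - μ) ^ 2) :=
            mul_le_mul_of_nonneg_right h6 (by positivity)
        _ = _ := by ring
  have lth : Tendsto (fun s => (1 + ps μ s)⁻¹) atTop (𝓝 1) := by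
    have := (lps.const_add 1).inv₀ (by norm_num)
    simpa using this
  have lth1 : Tendsto (fun s => (1 + ps μ s)⁻¹ - 1) atTop (𝓝 0) := by
    simpa using lth.sub_const 1
  have m1 : Tendsto (fun s : ℝ => -(μ / s ^ 2) * w s ^ 2) atTop (𝓝 0) :=
    z_mul hw (by simpa using l1.neg)
  have m2 := z_mul hv lth1
  have m3 : Tendsto (fun s => (2 * (al μ s * (1 + ps μ s)⁻¹)) * (w s * v s)) atTop (𝓝 0) := by
    apply z_mul hwv
    simpa using (lal.mul lth).const_mul 2
  have m4 : Tendsto (fun s => (al μ s ^ 2 * (1 + ps μ s)⁻¹) * w s ^ 2) atTop (𝓝 0) := by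
    apply z_mul hw
    simpa using (lal.pow 2).mul lth
  have lX : Tendsto X atTop (𝓝 A) := by
    have := (((hA.add m1).add m2).add m3).add m4
    simp only [add_zero] at this
    refine this.congr fun s => ?_
    simp only [hX, Qf]
    ring
  have lF : Tendsto (fun s => X s ^ 2 / Qf μ s) atTop (𝓝 (A ^ 2)) := by
    have := (lX.pow 2).div lQ one_ne_zero
    rw [div_one] at this
    exact this
  have hts : Real.sqrt μ < t := by
    rw [Real.sqrt_lt' ht]
    exact hD
  have key := le_lim hd (fun s hs => by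
    have := hX0 s hs
    have := hY0 s hs
    have := hQ s hs
    positivity) lF hts
  have hQt := hQ t hts
  have h1 : Qf μ t * w t ^ 2 ≤ X t := by
    have := hps t hts
    simp only [hX]
    have h2 : 0 ≤ (v t + al μ t * w t) ^ 2 / (1 + ps μ t) := by positivity
    linarith
  rw [div_le_iff₀ hQt] at key
  have h2 : (Qf μ t * w t ^ 2) ^ 2 ≤ X t ^ 2 :=
    pow_le_pow_left₀ (by positivity) h1 2
  have h3 : Qf μ t * (Qf μ t * w t ^ 4) ≤ Qf μ t * A ^ 2 := by
    calc Qf μ t * (Qf μ t * w t ^ 4) = (Qf μ t * w t ^ 2) ^ 2 := by ring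
      _ ≤ X t ^ 2 := h2
      _ ≤ A ^ 2 * Qf μ t := key
      _ = _ := by ring
  exact le_of_mul_le_mul_left h3 hQt

lemma ge_zero {f f' K : ℝ → ℝ} {b : ℝ} (hd : ∀ t, 0 < t → t ≤ b → HasDerivAt f (f' t) t)
    (h0 : ∀ t, 0 < t → t ≤ b → 0 ≤ f' t) (hK : Tendsto K (𝓝[>] 0) (𝓝 0))
    (hKf : ∀ t, 0 < t → t ≤ b → -K t ≤ f t) {t : ℝ} (ht : 0 < t) (htb : t ≤ b) : 0 ≤ f t := by
  have h1 : Tendsto (fun s => -K s) (𝓝[>] 0) (𝓝 0) := by simpa using hK.neg
  apply le_of_tendsto h1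
  filter_upwards [Ioc_mem_nhdsGT ht] with s hs
  exact (hKf s hs.1 (hs.2.trans htb)).trans (mono_of hd h0 hs.1 hs.2 htb)

/-- behaviour at the origin -/
structure Zero (μ : ℝ) (w v : ℝ → ℝ) : Prop where
  z1 : Tendsto (fun t => |w t * v t|) (𝓝[>] 0) (𝓝 0)
  z2 : ∃ K : ℝ → ℝ, Tendsto K (𝓝[>] 0) (𝓝 0) ∧
    ∀ t, 0 < t → -K t ≤ (1 - μ / t ^ 2) * w t ^ 2 + v t ^ 2

variable (z : Zero μ w v)

include hμ o z in
lemma G_nonneg {t : ℝ} (ht : 0 < t) : 0 ≤ (1 - μ / t ^ 2) * w t ^ 2 + v t ^ 2 := by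
  obtain ⟨K, hK, hK2⟩ := z.z2
  exact ge_zero (b := t) (fun s hs _ => dG o hs) (fun s hs _ => by positivity) hK
    (fun s hs _ => hK2 s hs) ht le_rfl

include o in
lemma dp {t : ℝ} (ht : 0 < t) :
    HasDerivAt (fun t => w t * v t) (v t ^ 2 + (μ / t ^ 2 - 1) * w t ^ 2) t := by
  refine ((o.dw t ht).mul (o.dv t ht)).congr_deriv ?_
  ring

lemma le_kap {t : ℝ} (ht : 0 < t) (htm : t ≤ Real.sqrt μ) : 0 ≤ μ / t ^ 2 - 1 := by
  rw [sub_nonneg, le_div_iff₀ (by positivity), one_mul]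
  exact (Real.le_sqrt' ht).1 htm

include hμ o z in
lemma p_nonneg {t : ℝ} (ht : 0 < t) (htm : t ≤ Real.sqrt μ) : 0 ≤ w t * v t := by
  refine ge_zero (b := Real.sqrt μ) (fun s hs _ => dp o hs) (fun s hs hs2 => ?_) z.z1
    (fun s hs _ => neg_abs_le _) ht htm
  have := le_kap hs hs2
  positivity

include hμ o z in
/-- the logarithmic derivative below the turning point -/
lemma p_ge {t κ : ℝ} (ht : 0 < t) (htm : t ≤ Real.sqrt μ) (hκ0 : 0 ≤ κ) (hκ : κ ^ 2 ≤ μ / t ^ 2 - 1) :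
    κ * w t ^ 2 ≤ w t * v t := by
  have h1 := G_nonneg hμ o z ht
  have h2 := p_nonneg hμ o z ht htm
  have h3 : (κ * w t ^ 2) ^ 2 ≤ (w t * v t) ^ 2 := by
    have h4 : κ ^ 2 * w t ^ 2 ≤ v t ^ 2 := by nlinarith [sq_nonneg (w t)]
    calc (κ * w t ^ 2) ^ 2 = w t ^ 2 * (κ ^ 2 * w t ^ 2) := by ring
      _ ≤ w t ^ 2 * v t ^ 2 := mul_le_mul_of_nonneg_left h4 (sq_nonneg _)
      _ = _ := by ring
  exact (pow_le_pow_iff_left₀ (by positivity) h2 two_ne_zero).1 h3

include o in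
lemma dW {t : ℝ} (ht : 0 < t) : HasDerivAt (fun t => w t ^ 2) (2 * (w t * v t)) t := by
  refine ((o.dw t ht).pow 2).congr_deriv ?_
  simp only [Nat.cast_ofNat, Nat.add_one_sub_one, pow_one]
  ring

include o z hμ in
/-- crossing the turning point -/
lemma turn {ρ h : ℝ} (hρ : 0 < ρ) (hρμ : μ = ρ ^ 2) (hh : 0 < h) (hh3 : h ^ 3 = ρ / 4) :
    w ρ ^ 2 ≤ 2 * w (ρ + h) ^ 2 := by
  have hsq : Real.sqrt μ = ρ := by rw [hρμ]; exact Real.sqrt_sq hρ.le
  set c : ℝ := 2 * h / ρ with hc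
  have hc0 : 0 < c := by positivity
  have hch : c * h ^ 2 = 1 / 2 := by
    rw [hc]
    field_simp
    linarith
  have dzf : ∀ t : ℝ, HasDerivAt (fun t => 1 - c * (t - ρ) ^ 2) (-(2 * c * (t - ρ))) t := by
    intro t
    have h1 : HasDerivAt (fun t : ℝ => t - ρ) 1 t := (hasDerivAt_id t).sub_const ρ
    refine (((h1.pow 2).const_mul c).const_sub 1).congr_deriv ?_
    simp only [Nat.cast_ofNat, Nat.add_one_sub_one, pow_one]
    ring
  have hz1 : ∀ t, ρ ≤ t → t ≤ ρ + h → 1 / 2 ≤ 1 - c * (t - ρ) ^ 2 := by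
    intro t h1 h2
    have h3 : (t - ρ) ^ 2 ≤ h ^ 2 := pow_le_pow_left₀ (by linarith) (by linarith) 2
    nlinarith
  have hy : ∀ t, ρ ≤ t → t ≤ ρ + h → 0 ≤ 2 * (w t * v t) * (1 - c * (t - ρ) ^ 2) +
      2 * c * (t - ρ) * w t ^ 2 := by
    intro t h1 h2
    have d1 : ∀ s, 0 < s → s ≤ ρ + h → HasDerivAt (fun t => 2 * (w t * v t) * (1 - c * (t - ρ) ^ 2) +
        2 * c * (t - ρ) * w t ^ 2) (2 * (v s ^ 2 + (μ / s ^ 2 - 1) * w s ^ 2) * (1 - c * (s - ρ) ^ 2) +
          2 * c * w s ^ 2) s := by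
      intro s hs _
      have a1 := ((dp o hs).const_mul 2).mul (dzf s)
      have a2 : HasDerivAt (fun t : ℝ => 2 * c * (t - ρ)) (2 * c) s := by
        simpa using ((hasDerivAt_id s).sub_const ρ).const_mul (2 * c)
      refine (a1.add (a2.mul (dW o hs))).congr_deriv ?_
      ring
    have hmono : (2 * (w ρ * v ρ) * (1 - c * (ρ - ρ) ^ 2) + 2 * c * (ρ - ρ) * w ρ ^ 2) ≤
        2 * (w t * v t) * (1 - c * (t - ρ) ^ 2) + 2 * c * (t - ρ) * w t ^ 2 := by
      have hm : MonotoneOn (fun t => 2 * (w t * v t) * (1 - c * (t - ρ) ^ 2) +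
        2 * c * (t - ρ) * w t ^ 2) (Icc ρ t) := by
        apply monotoneOn_of_deriv_nonneg (convex_Icc ρ t)
        · exact fun s hs => (d1 s (by linarith [hs.1]) (hs.2.trans h2)).continuousAt.continuousWithinAt
        · intro s hs
          rw [interior_Icc] at hs
          exact (d1 s (by linarith [hs.1]) (hs.2.le.trans h2)).differentiableAt.differentiableWithinAt
        · intro s hs
          rw [interior_Icc] at hs
          have hs0 : 0 < s := by linarith [hs.1]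
          rw [(d1 s hs0 (hs.2.le.trans h2)).deriv]
          have e1 := hz1 s hs.1.le (hs.2.le.trans h2)
          have e2 : 1 - c * (s - ρ) ^ 2 ≤ 1 := by
            have : 0 ≤ c * (s - ρ) ^ 2 := by positivity
            linarith
          have e3 : 1 - μ / s ^ 2 ≤ c := by
            have e4 : s - ρ ≤ h := by linarith [hs.2]
            have e5 : 1 - μ / s ^ 2 = (s - ρ) * (s + ρ) / s ^ 2 := by
              rw [hρμ]; field_simp; ring
            have e6 : (s + ρ) / s ^ 2 ≤ 2 / ρ := by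
              rw [div_le_div_iff₀ (by positivity) hρ]
              nlinarith [hs.1]
            calc 1 - μ / s ^ 2 = (s - ρ) * ((s + ρ) / s ^ 2) := by rw [e5]; ring
              _ ≤ h * (2 / ρ) := mul_le_mul e4 e6 (by positivity) hh.le
              _ = c := by rw [hc]; ring
          have e7 : 0 ≤ 1 - μ / s ^ 2 := by
            rw [sub_nonneg, div_le_one (by positivity), hρμ]
            exact pow_le_pow_left₀ hρ.le hs.1.le 2
          have e8 : (1 - μ / s ^ 2) * (1 - c * (s - ρ) ^ 2) ≤ c :=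
            calc (1 - μ / s ^ 2) * (1 - c * (s - ρ) ^ 2) ≤ (1 - μ / s ^ 2) * 1 :=
                  mul_le_mul_of_nonneg_left e2 e7
              _ ≤ c := by rw [mul_one]; exact e3
          have e9 : 0 ≤ v s ^ 2 * (1 - c * (s - ρ) ^ 2) := by positivity
          have e10 := mul_le_mul_of_nonneg_right e8 (sq_nonneg (w s))
          nlinarith
      exact hm ⟨le_rfl, h1⟩ ⟨h1, le_rfl⟩ h1
    have hp := p_nonneg hμ o z hρ (by rw [hsq])
    refine le_trans ?_ hmono
    simp only [sub_self]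
    nlinarith
  have d2 : ∀ s, ρ ≤ s → s ≤ ρ + h → HasDerivAt (fun t => w t ^ 2 / (1 - c * (t - ρ) ^ 2))
      ((2 * (w s * v s) * (1 - c * (s - ρ) ^ 2) + 2 * c * (s - ρ) * w s ^ 2) /
        (1 - c * (s - ρ) ^ 2) ^ 2) s := by
    intro s hs1 hs2
    have e1 := hz1 s hs1 hs2
    refine ((dW o (lt_of_lt_of_le hρ hs1)).div (dzf s) (by linarith)).congr_deriv ?_
    ring
  have hm : MonotoneOn (fun t => w t ^ 2 / (1 - c * (t - ρ) ^ 2)) (Icc ρ (ρ + h)) := by
    apply monotoneOn_of_deriv_nonneg (convex_Icc _ _)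
    · exact fun s hs => (d2 s hs.1 hs.2).continuousAt.continuousWithinAt
    · intro s hs
      rw [interior_Icc] at hs
      exact (d2 s hs.1.le hs.2.le).differentiableAt.differentiableWithinAt
    · intro s hs
      rw [interior_Icc] at hs
      rw [(d2 s hs.1.le hs.2.le).deriv]
      exact div_nonneg (hy s hs.1.le hs.2.le) (sq_nonneg _)
  have key := hm ⟨le_rfl, by linarith⟩ ⟨by linarith, le_rfl⟩ (by linarith : ρ ≤ ρ + h)
  simp only [sub_self, add_sub_cancel_left, hch] at key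
  norm_num at key
  linarith

end one

end Pool.Agent.N303.SH
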