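import Pool.Agent.N303.SH.H1

set_option autoImplicit false

/-! Uniform `L^q` bounds for Bessel type functions. -/

open Set Filter Topology MeasureTheory
open scoped ENNReal

namespace Pool.Agent.N303.SH

section

variable {ρ h A : ℝ} {w v : ℝ → ℝ} (hρ : 4 ≤ ρ) (hh : 0 < h) (hh3 : h ^ 3 = ρ / 4)
  (o : Ode (ρ ^ 2) w v) (hA : Tendsto (fun t => w t ^ 2 + v t ^ 2) atTop (𝓝 A))
  (z : Zero (ρ ^ 2) w v)

include hρ hh hh3 in
lemma h_ge : 1 ≤ h := by
  by_contra hc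
  rw [not_le] at hc
  have : h ^ 3 < 1 := pow_lt_one₀ hh.le hc (by norm_num)
  linarith

include hρ hh hh3 o hA z in
lemma bM : w ρ ^ 2 ≤ 5 * A * h := by
  have hρ0 : 0 < ρ := by linarith
  have h1 := turn (sq_nonneg ρ) o z hρ0 rfl hh hh3
  have h2 := LG (sq_nonneg ρ) o hA (t := ρ + h) (by linarith) (by nlinarith)
  have hA0 := A_nonneg hA
  have hge := h_ge hρ hh hh3
  have h3 : h / (ρ + h) ≤ 1 - ρ ^ 2 / (ρ + h) ^ 2 := by
    have e : 1 - ρ ^ 2 / (ρ + h) ^ 2 = h * (2 * ρ + h) / (ρ + h) ^ 2 := by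
      field_simp; ring
    rw [e, div_le_div_iff₀ (by positivity) (by positivity)]
    nlinarith [mul_pos hh hρ0, mul_pos (mul_pos hh hρ0) (add_pos hρ0 hh)]
  have h4 : h / (ρ + h) * w (ρ + h) ^ 4 ≤ A ^ 2 :=
    (mul_le_mul_of_nonneg_right h3 (by positivity)).trans h2
  have h5 : w (ρ + h) ^ 4 ≤ 5 * A ^ 2 * h ^ 2 := by
    have h6 : h * w (ρ + h) ^ 4 ≤ A ^ 2 * (ρ + h) := by
      rw [div_mul_eq_mul_div, div_le_iff₀ (by positivity)] at h4
      exact h4
    have h7 : A ^ 2 * (ρ + h) ≤ h * (5 * A ^ 2 * h ^ 2) := by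
      have h8 : ρ + h ≤ 5 * h ^ 3 := by
        have := le_self_pow₀ hge (by norm_num : 3 ≠ 0)
        linarith
      have := mul_le_mul_of_nonneg_left h8 (sq_nonneg A)
      nlinarith
    exact le_of_mul_le_mul_left (h6.trans h7) hh
  have h9 : (w ρ ^ 2) ^ 2 ≤ (5 * A * h) ^ 2 := by
    calc (w ρ ^ 2) ^ 2 ≤ (2 * w (ρ + h) ^ 2) ^ 2 := pow_le_pow_left₀ (sq_nonneg _) h1 2
      _ = 4 * w (ρ + h) ^ 4 := by ring
      _ ≤ 4 * (5 * A ^ 2 * h ^ 2) := by linarith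
      _ ≤ _ := by nlinarith [sq_nonneg (A * h)]
  exact (pow_le_pow_iff_left₀ (sq_nonneg _) (by positivity) two_ne_zero).1 h9

include hρ o z in
lemma W_mono {x y : ℝ} (hx : 0 < x) (hxy : x ≤ y) (hy : y ≤ ρ) : w x ^ 2 ≤ w y ^ 2 := by
  have hsq : Real.sqrt (ρ ^ 2) = ρ := Real.sqrt_sq (by linarith)
  exact mono_of (a := 0) (b := ρ) (fun t ht _ => dW o ht) (fun t ht hb => by
    have := p_nonneg (sq_nonneg ρ) o z ht (by rw [hsq]; exact hb)
    linarith) hx hxy hy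

include hρ hh hh3 o hA z in
/-- the bound below the turning point -/
lemma below {t : ℝ} (ht : 0 < t) (htρ : t ≤ ρ) : w t ^ 2 * (h + ρ - t) ^ 2 ≤ 5 * A * ρ := by
  have hρ0 : 0 < ρ := by linarith
  have hsq : Real.sqrt (ρ ^ 2) = ρ := Real.sqrt_sq (by linarith)
  have hM := bM hρ hh hh3 o hA z
  have hA0 := A_nonneg hA
  have near : ∀ s, 0 < s → ρ - h ≤ s → s ≤ ρ → w s ^ 2 * (h + ρ - s) ^ 2 ≤ 5 * A * ρ := by
    intro s hs h1 h2
    have h3 := (W_mono hρ o z hs h2 le_rfl).trans hM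
    have h4 : (h + ρ - s) ^ 2 ≤ 4 * h ^ 2 := by nlinarith
    calc w s ^ 2 * (h + ρ - s) ^ 2 ≤ 5 * A * h * (4 * h ^ 2) :=
          mul_le_mul h3 h4 (sq_nonneg _) (by positivity)
      _ = 20 * A * h ^ 3 := by ring
      _ = 5 * A * ρ := by rw [hh3]; ring
  rcases le_or_gt (ρ - h) t with h1 | h1
  · exact near t ht h1 htρ
  · refine le_trans ?_ (near (ρ - h) (by linarith) le_rfl (by linarith))
    refine mono_of (a := 0) (b := ρ - h) (f := fun t => w t ^ 2 * (h + ρ - t) ^ 2)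
      (f' := fun t => 2 * (w t * v t) * (h + ρ - t) ^ 2 - 2 * w t ^ 2 * (h + ρ - t))
      (fun s hs _ => ?_) (fun s hs hsb => ?_) ht h1.le le_rfl
    · have a1 : HasDerivAt (fun t : ℝ => h + ρ - t) (-1) s := by
        simpa using (hasDerivAt_id s).const_sub (h + ρ)
      refine ((dW o hs).mul (a1.pow 2)).congr_deriv ?_
      simp only [Nat.cast_ofNat, Nat.add_one_sub_one, pow_one, Pi.pow_apply]
      ring
    · have hx : h ≤ ρ - s := by linarith
      have hpos : 0 < h + ρ - s := by linarith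
      have hκ : (1 / (h + ρ - s)) ^ 2 ≤ ρ ^ 2 / s ^ 2 - 1 := by
        have e1 : (1 / (h + ρ - s)) ^ 2 ≤ (ρ - s) / ρ := by
          rw [div_pow, one_pow, div_le_div_iff₀ (by positivity) hρ0]
          have e2 : (2 * h) ^ 2 ≤ (h + ρ - s) ^ 2 := pow_le_pow_left₀ (by linarith) (by linarith) 2
          have e3 : h * (2 * h) ^ 2 ≤ (ρ - s) * (h + ρ - s) ^ 2 :=
            mul_le_mul hx e2 (by positivity) (by linarith)
          nlinarith
        have e4 : (ρ - s) / ρ ≤ ρ ^ 2 / s ^ 2 - 1 := by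
          have e5 : ρ ^ 2 / s ^ 2 - 1 = (ρ - s) * (ρ + s) / s ^ 2 := by
            field_simp; ring
          rw [e5, div_le_div_iff₀ hρ0 (by positivity)]
          have e6 : s ^ 2 ≤ (ρ + s) * ρ := by nlinarith
          nlinarith [mul_le_mul_of_nonneg_left e6 (by linarith : 0 ≤ ρ - s)]
        exact e1.trans e4
      have key := p_ge (sq_nonneg ρ) o z hs (by rw [hsq]; linarith) (by positivity) hκ
      have key2 : w s ^ 2 ≤ (w s * v s) * (h + ρ - s) := by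
        have := mul_le_mul_of_nonneg_right key hpos.le
        rw [div_mul_eq_mul_div, one_mul, div_mul_cancel₀ _ hpos.ne'] at this
        exact this
      have := mul_le_mul_of_nonneg_right key2 hpos.le
      nlinarith

include hρ hh hh3 o hA z in
lemma half : w (ρ / 2) ^ 2 ≤ 20 * A / ρ := by
  have h1 := below hρ hh hh3 o hA z (t := ρ / 2) (by linarith) (by linarith)
  have hρ0 : 0 < ρ := by linarith
  rw [le_div_iff₀ hρ0]
  have h2 : (ρ / 2) ^ 2 ≤ (h + ρ - ρ / 2) ^ 2 := pow_le_pow_left₀ (by linarith) (by linarith) 2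
  have h3 := (mul_le_mul_of_nonneg_left h2 (sq_nonneg (w (ρ / 2)))).trans h1
  have h4 : (w (ρ / 2) ^ 2 * ρ) * ρ ≤ (20 * A) * ρ := by nlinarith
  exact le_of_mul_le_mul_right h4 hρ0

include hρ o z in
lemma small {θ : ℝ} (hθ : 0 ≤ θ) (hθρ : θ ≤ ρ) {t : ℝ} (ht : 0 < t) (htρ : t ≤ ρ / 2) :
    w t ^ 2 * t ^ (-θ) ≤ w (ρ / 2) ^ 2 * (ρ / 2) ^ (-θ) := by
  have hρ0 : 0 < ρ := by linarith
  have hsq : Real.sqrt (ρ ^ 2) = ρ := Real.sqrt_sq (by linarith)
  refine mono_of (a := 0) (b := ρ / 2) (f := fun t => w t ^ 2 * t ^ (-θ))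
      (f' := fun t => 2 * (w t * v t) * t ^ (-θ) + w t ^ 2 * (-θ * t ^ (-θ - 1)))
      (fun s hs _ => ?_) (fun s hs hsb => ?_) ht htρ le_rfl
  · exact (dW o hs).mul (Real.hasDerivAt_rpow_const (Or.inl hs.ne'))
  · have hκ : (θ / (2 * s)) ^ 2 ≤ ρ ^ 2 / s ^ 2 - 1 := by
      rw [div_pow, le_sub_iff_add_le, div_add_one (by positivity), div_le_div_iff₀ (by positivity)
        (by positivity)]
      have e1 : θ ^ 2 ≤ ρ ^ 2 := pow_le_pow_left₀ hθ hθρ 2
      have e2 : s ^ 2 ≤ (ρ / 2) ^ 2 := pow_le_pow_left₀ hs.le hsb 2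
      have e3 : θ ^ 2 + (2 * s) ^ 2 ≤ 4 * ρ ^ 2 := by nlinarith
      nlinarith [mul_le_mul_of_nonneg_right e3 (sq_nonneg s)]
    have key := p_ge (sq_nonneg ρ) o z hs (by rw [hsq]; linarith) (by positivity) hκ
    rw [Real.rpow_sub_one hs.ne']
    have e4 : 2 * (w s * v s) * s ^ (-θ) + w s ^ 2 * (-θ * (s ^ (-θ) / s)) =
        2 * s ^ (-θ) * (w s * v s - θ / (2 * s) * w s ^ 2) := by
      field_simp
      ring
    rw [e4]
    have : 0 ≤ s ^ (-θ) := (Real.rpow_pos_of_pos hs _).le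
    have : 0 ≤ w s * v s - θ / (2 * s) * w s ^ 2 := by linarith
    positivity

end

/-! integrals of powers -/

lemma L_Ioi {a c : ℝ} (ha : a < -1) (hc : 0 < c) :
    ∫⁻ t in Ioi c, ENNReal.ofReal (t ^ a) = ENNReal.ofReal (-c ^ (a + 1) / (a + 1)) := by
  rw [← integral_Ioi_rpow_of_lt ha hc, ofReal_integral_eq_lintegral_ofReal
    (integrableOn_Ioi_rpow_of_lt ha hc)]
  filter_upwards [ae_restrict_mem measurableSet_Ioi] with t ht
  exact (Real.rpow_pos_of_pos (hc.trans ht) _).le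

lemma L_Ioc {r b : ℝ} (hr : -1 < r) (hb : 0 ≤ b) :
    ∫⁻ t in Ioc 0 b, ENNReal.ofReal (t ^ r) = ENNReal.ofReal (b ^ (r + 1) / (r + 1)) := by
  have h1 := integral_rpow (a := 0) (b := b) (r := r) (Or.inl hr)
  rw [Real.zero_rpow (by linarith), sub_zero, intervalIntegral.integral_of_le hb] at h1
  rw [← h1, ofReal_integral_eq_lintegral_ofReal]
  · exact (intervalIntegral.intervalIntegrable_rpow' (a := 0) (b := b) hr).1
  · filter_upwards [ae_restrict_mem measurableSet_Ioc] with t ht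
    exact (Real.rpow_pos_of_pos ht.1 _).le

end Pool.Agent.N303.SH
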