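import Pool.Agent.N303.SH.H2

set_option autoImplicit false

/-! Uniform `L^q` bounds for Bessel type functions: the integrals. -/

open Set Filter Topology MeasureTheory
open scoped ENNReal

namespace Pool.Agent.N303.SH

/-- the integrand -/
noncomputable def Jf (q γ : ℝ) (w : ℝ → ℝ) (t : ℝ) : ℝ := (w t ^ 2) ^ (q / 2) * t ^ (-γ)

section

variable {q γ ρ h A : ℝ} {w v : ℝ → ℝ} (hq2 : 2 < q) (hq4 : q < 4) (hγ : 1 < γ)
  (hρ : 4 ≤ ρ) (hh : 0 < h) (hh3 : h ^ 3 = ρ / 4)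
  (o : Ode (ρ ^ 2) w v) (hA : Tendsto (fun t => w t ^ 2 + v t ^ 2) atTop (𝓝 A))
  (z : Zero (ρ ^ 2) w v)

include hq2 hγ hρ hh hh3 o hA z in
lemma part_a (hθ : 2 * γ / q ≤ ρ) : ∫⁻ t in Ioc 0 (ρ / 2), ENNReal.ofReal (Jf q γ w t) ≤
    ENNReal.ofReal (((20 * A) ^ (q / 2) * (1 / 2) ^ (1 - γ)) * ρ ^ (1 - γ)) := by
  have hρ0 : 0 < ρ := by linarith
  have hA0 := A_nonneg hA
  have hq0 : 0 < q := by linarith
  have h1 : ∀ t ∈ Ioc 0 (ρ / 2), Jf q γ w t ≤ (20 * A) ^ (q / 2) * (ρ / 2) ^ (-γ) := by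
    intro t ht
    have h2 := small hρ o z (θ := 2 * γ / q) (by positivity) hθ ht.1 ht.2
    have h3 := half hρ hh hh3 o hA z
    have h4 : w t ^ 2 * t ^ (-(2 * γ / q)) ≤ (20 * A) * (ρ / 2) ^ (-(2 * γ / q)) := by
      refine h2.trans (mul_le_mul_of_nonneg_right ?_ (Real.rpow_nonneg (by linarith) _))
      refine h3.trans ?_
      rw [div_le_iff₀ hρ0]
      nlinarith
    have h5 := Real.rpow_le_rpow (by
      have := (Real.rpow_pos_of_pos ht.1 (-(2 * γ / q))).le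
      positivity) h4 (by positivity : 0 ≤ q / 2)
    rw [Real.mul_rpow (sq_nonneg _) (Real.rpow_nonneg ht.1.le _),
      Real.mul_rpow (by positivity) (Real.rpow_nonneg (by linarith) _),
      ← Real.rpow_mul ht.1.le, ← Real.rpow_mul (by linarith : 0 ≤ ρ / 2)] at h5
    have e : -(2 * γ / q) * (q / 2) = -γ := by field_simp
    rw [e] at h5
    exact h5
  calc ∫⁻ t in Ioc 0 (ρ / 2), ENNReal.ofReal (Jf q γ w t)
      ≤ ∫⁻ _t in Ioc 0 (ρ / 2), ENNReal.ofReal ((20 * A) ^ (q / 2) * (ρ / 2) ^ (-γ)) :=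
        setLIntegral_mono' measurableSet_Ioc fun t ht => ENNReal.ofReal_le_ofReal (h1 t ht)
    _ = ENNReal.ofReal ((20 * A) ^ (q / 2) * (ρ / 2) ^ (-γ)) * ENNReal.ofReal (ρ / 2) := by
        rw [setLIntegral_const, Real.volume_Ioc, sub_zero]
    _ = ENNReal.ofReal (((20 * A) ^ (q / 2) * (1 / 2) ^ (1 - γ)) * ρ ^ (1 - γ)) := by
        rw [← ENNReal.ofReal_mul (by positivity)]
        congr 1
        have e1 : (ρ / 2) ^ (-γ) * (ρ / 2) = (ρ / 2) ^ (1 - γ) := by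
          rw [← Real.rpow_add_one (by positivity)]
          congr 1; ring
        rw [mul_assoc, e1, show ρ / 2 = (1 / 2) * ρ by ring, Real.mul_rpow (by norm_num) hρ0.le]
        ring

/-- the integral of a shifted power -/
lemma shift_int {q h b : ℝ} (hq : 1 < q) (hh : 0 < h) (a : ℝ) :
    ∫⁻ t in Ioc a b, ENNReal.ofReal ((h + b - t) ^ (-q)) ≤ ENNReal.ofReal (h ^ (1 - q) / (q - 1)) := by
  have h1 : ∀ t, (Ioc a b).indicator (fun t => ENNReal.ofReal ((h + b - t) ^ (-q))) t ≤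
      (Ici h).indicator (fun y => ENNReal.ofReal (y ^ (-q))) (h + b - t) := by
    intro t
    by_cases ht : t ∈ Ioc a b
    · rw [indicator_of_mem ht, indicator_of_mem]
      exact mem_Ici.2 (by linarith [ht.2])
    · rw [indicator_of_notMem ht]
      exact zero_le
  rw [← lintegral_indicator measurableSet_Ioc]
  refine (lintegral_mono h1).trans ?_
  rw [lintegral_sub_left_eq_self (fun y => (Ici h).indicator (fun y => ENNReal.ofReal (y ^ (-q))) y)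
    (h + b), lintegral_indicator measurableSet_Ici, setLIntegral_congr Ioi_ae_eq_Ici.symm,
    L_Ioi (by linarith) hh]
  apply ENNReal.ofReal_le_ofReal
  have e : -q + 1 = 1 - q := by ring
  rw [e, show (1 - q) = -(q - 1) by ring, neg_div_neg_eq]

include hq2 hq4 hρ hh hh3 o hA z in
lemma part_b (hγ0 : 0 ≤ γ) : ∫⁻ t in Ioc (ρ / 2) ρ, ENNReal.ofReal (Jf q γ w t) ≤
    ENNReal.ofReal (((5 * A) ^ (q / 2) * (1 / 2) ^ (-γ) * (1 / 4) ^ ((1 - q) / 3) / (q - 1)) *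
      ρ ^ (1 - γ)) := by
  have hρ0 : 0 < ρ := by linarith
  have hA0 := A_nonneg hA
  have h1 : ∀ t ∈ Ioc (ρ / 2) ρ, Jf q γ w t ≤
      ((5 * A * ρ) ^ (q / 2) * (ρ / 2) ^ (-γ)) * (h + ρ - t) ^ (-q) := by
    intro t ht
    have ht0 : 0 < t := by linarith [ht.1]
    have hx : 0 < h + ρ - t := by linarith [ht.2]
    have h2 := below hρ hh hh3 o hA z ht0 ht.2
    have h3 : w t ^ 2 ≤ 5 * A * ρ * (h + ρ - t) ^ (-2 : ℝ) := by
      rw [Real.rpow_neg hx.le, ← div_eq_mul_inv, le_div_iff₀ (Real.rpow_pos_of_pos hx _)]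
      rw [show ((2 : ℝ)) = ((2 : ℕ) : ℝ) by norm_num, Real.rpow_natCast]
      exact h2
    have h4 : (w t ^ 2) ^ (q / 2) ≤ (5 * A * ρ) ^ (q / 2) * (h + ρ - t) ^ (-q) := by
      have h5 := Real.rpow_le_rpow (sq_nonneg _) h3 (by linarith : 0 ≤ q / 2)
      rw [Real.mul_rpow (by positivity) (Real.rpow_nonneg hx.le _), ← Real.rpow_mul hx.le] at h5
      have e : (-2 : ℝ) * (q / 2) = -q := by ring
      rwa [e] at h5
    have h6 : t ^ (-γ) ≤ (ρ / 2) ^ (-γ) :=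
      Real.rpow_le_rpow_of_nonpos (by linarith) ht.1.le (by linarith)
    unfold Jf
    calc (w t ^ 2) ^ (q / 2) * t ^ (-γ) ≤
        ((5 * A * ρ) ^ (q / 2) * (h + ρ - t) ^ (-q)) * (ρ / 2) ^ (-γ) :=
          mul_le_mul h4 h6 (Real.rpow_nonneg ht0.le _) (by positivity)
      _ = _ := by ring
  have hC : 0 ≤ (5 * A * ρ) ^ (q / 2) * (ρ / 2) ^ (-γ) := by positivity
  calc ∫⁻ t in Ioc (ρ / 2) ρ, ENNReal.ofReal (Jf q γ w t)
      ≤ ∫⁻ t in Ioc (ρ / 2) ρ, ENNReal.ofReal ((5 * A * ρ) ^ (q / 2) * (ρ / 2) ^ (-γ)) *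
          ENNReal.ofReal ((h + ρ - t) ^ (-q)) := by
        refine setLIntegral_mono' measurableSet_Ioc fun t ht => ?_
        rw [← ENNReal.ofReal_mul hC]
        exact ENNReal.ofReal_le_ofReal (h1 t ht)
    _ = ENNReal.ofReal ((5 * A * ρ) ^ (q / 2) * (ρ / 2) ^ (-γ)) *
          ∫⁻ t in Ioc (ρ / 2) ρ, ENNReal.ofReal ((h + ρ - t) ^ (-q)) := by
        rw [lintegral_const_mul]
        fun_prop
    _ ≤ ENNReal.ofReal ((5 * A * ρ) ^ (q / 2) * (ρ / 2) ^ (-γ)) *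
          ENNReal.ofReal (h ^ (1 - q) / (q - 1)) := by
        gcongr
        exact shift_int (by linarith) hh _
    _ ≤ _ := by
        rw [← ENNReal.ofReal_mul hC]
        apply ENNReal.ofReal_le_ofReal
        have e1 : h ^ (1 - q) = (1 / 4) ^ ((1 - q) / 3) * ρ ^ ((1 - q) / 3) := by
          rw [← Real.mul_rpow (by norm_num) hρ0.le, show 1 / 4 * ρ = h ^ 3 by rw [hh3]; ring,
            ← Real.rpow_natCast, ← Real.rpow_mul hh.le]
          congr 1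
          push_cast
          ring
        have e2 : (ρ / 2) ^ (-γ) = (1 / 2) ^ (-γ) * ρ ^ (-γ) := by
          rw [← Real.mul_rpow (by norm_num) hρ0.le]; congr 1; ring
        have e3 : (5 * A * ρ) ^ (q / 2) = (5 * A) ^ (q / 2) * ρ ^ (q / 2) :=
          Real.mul_rpow (by positivity) hρ0.le
        have e4 : ρ ^ (q / 2) * ρ ^ (-γ) * ρ ^ ((1 - q) / 3) ≤ ρ ^ (1 - γ) := by
          rw [← Real.rpow_add hρ0, ← Real.rpow_add hρ0]
          apply Real.rpow_le_rpow_of_exponent_le (by linarith)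
          linarith
        rw [e1, e2, e3]
        have e5 : (5 * A) ^ (q / 2) * ρ ^ (q / 2) * ((1 / 2) ^ (-γ) * ρ ^ (-γ)) *
            ((1 / 4) ^ ((1 - q) / 3) * ρ ^ ((1 - q) / 3) / (q - 1)) =
            ((5 * A) ^ (q / 2) * (1 / 2) ^ (-γ) * (1 / 4) ^ ((1 - q) / 3) / (q - 1)) *
              (ρ ^ (q / 2) * ρ ^ (-γ) * ρ ^ ((1 - q) / 3)) := by ring
        rw [e5]
        apply mul_le_mul_of_nonneg_left e4
        have : 0 < q - 1 := by linarith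
        positivity

include hq2 hq4 hρ o hA in
lemma part_c (hγ0 : 0 ≤ γ) : ∫⁻ t in Ioc ρ (2 * ρ), ENNReal.ofReal (Jf q γ w t) ≤
    ENNReal.ofReal (((2 * A ^ 2) ^ (q / 4) / (1 - q / 4)) * ρ ^ (1 - γ)) := by
  have hρ0 : 0 < ρ := by linarith
  have h1 : ∀ t ∈ Ioc ρ (2 * ρ), Jf q γ w t ≤
      ((2 * A ^ 2 * ρ) ^ (q / 4) * ρ ^ (-γ)) * (t - ρ) ^ (-(q / 4)) := by
    intro t ht
    have ht0 : 0 < t := by linarith [ht.1]
    have hx : 0 < t - ρ := by linarith [ht.1]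
    have h2 := LG (sq_nonneg ρ) o hA (t := t) ht0 (by nlinarith [ht.1])
    have h3 : (t - ρ) / (2 * ρ) ≤ 1 - ρ ^ 2 / t ^ 2 := by
      have e : 1 - ρ ^ 2 / t ^ 2 = (t - ρ) * (t + ρ) / t ^ 2 := by
        field_simp; ring
      rw [e, div_le_div_iff₀ (by positivity) (by positivity)]
      have e2 : t ^ 2 ≤ (t + ρ) * (2 * ρ) := by nlinarith [ht.2]
      nlinarith [mul_le_mul_of_nonneg_left e2 hx.le]
    have h4 : w t ^ 4 ≤ 2 * A ^ 2 * ρ * (t - ρ) ^ (-1 : ℝ) := by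
      rw [Real.rpow_neg_one, ← div_eq_mul_inv, le_div_iff₀ hx]
      have h5 := (mul_le_mul_of_nonneg_right h3 (by positivity : 0 ≤ w t ^ 4)).trans h2
      rw [div_mul_eq_mul_div, div_le_iff₀ (by positivity)] at h5
      nlinarith
    have h6 : (w t ^ 2) ^ (q / 2) ≤ (2 * A ^ 2 * ρ) ^ (q / 4) * (t - ρ) ^ (-(q / 4)) := by
      have h7 := Real.rpow_le_rpow (by positivity) h4 (by linarith : 0 ≤ q / 4)
      rw [Real.mul_rpow (by positivity) (Real.rpow_nonneg hx.le _), ← Real.rpow_mul hx.le] at h7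
      have e : (-1 : ℝ) * (q / 4) = -(q / 4) := by ring
      rw [e] at h7
      have e2 : (w t ^ 2) ^ (q / 2) = (w t ^ 4) ^ (q / 4) := by
        rw [show w t ^ 4 = (w t ^ 2) ^ 2 by ring, ← Real.rpow_natCast (w t ^ 2) 2,
          ← Real.rpow_mul (sq_nonneg _)]
        congr 1
        push_cast
        ring
      rwa [e2]
    have h8 : t ^ (-γ) ≤ ρ ^ (-γ) :=
      Real.rpow_le_rpow_of_nonpos hρ0 ht.1.le (by linarith)
    unfold Jf
    calc (w t ^ 2) ^ (q / 2) * t ^ (-γ) ≤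
        ((2 * A ^ 2 * ρ) ^ (q / 4) * (t - ρ) ^ (-(q / 4))) * ρ ^ (-γ) :=
          mul_le_mul h6 h8 (Real.rpow_nonneg ht0.le _) (by positivity)
      _ = _ := by ring
  have hC : 0 ≤ (2 * A ^ 2 * ρ) ^ (q / 4) * ρ ^ (-γ) := by positivity
  have h9 : ∫⁻ t in Ioc ρ (2 * ρ), ENNReal.ofReal ((t - ρ) ^ (-(q / 4))) ≤
      ENNReal.ofReal (ρ ^ (1 - q / 4) / (1 - q / 4)) := by
    have e1 : ∀ t, (Ioc ρ (2 * ρ)).indicator (fun t => ENNReal.ofReal ((t - ρ) ^ (-(q / 4)))) t =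
        (Ioc 0 ρ).indicator (fun y => ENNReal.ofReal (y ^ (-(q / 4)))) (t - ρ) := by
      intro t
      by_cases ht : t ∈ Ioc ρ (2 * ρ)
      · rw [indicator_of_mem ht, indicator_of_mem]
        exact ⟨by linarith [ht.1], by linarith [ht.2]⟩
      · rw [indicator_of_notMem ht, indicator_of_notMem]
        intro h
        exact ht ⟨by linarith [h.1], by linarith [h.2]⟩
    rw [← lintegral_indicator measurableSet_Ioc, lintegral_congr e1,
      lintegral_sub_right_eq_self (fun y => (Ioc 0 ρ).indicator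
        (fun y => ENNReal.ofReal (y ^ (-(q / 4)))) y) ρ, lintegral_indicator measurableSet_Ioc,
      L_Ioc (by linarith) hρ0.le, show -(q / 4) + 1 = 1 - q / 4 by ring]
  calc ∫⁻ t in Ioc ρ (2 * ρ), ENNReal.ofReal (Jf q γ w t)
      ≤ ∫⁻ t in Ioc ρ (2 * ρ), ENNReal.ofReal ((2 * A ^ 2 * ρ) ^ (q / 4) * ρ ^ (-γ)) *
          ENNReal.ofReal ((t - ρ) ^ (-(q / 4))) := by
        refine setLIntegral_mono' measurableSet_Ioc fun t ht => ?_
        rw [← ENNReal.ofReal_mul hC]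
        exact ENNReal.ofReal_le_ofReal (h1 t ht)
    _ = ENNReal.ofReal ((2 * A ^ 2 * ρ) ^ (q / 4) * ρ ^ (-γ)) *
          ∫⁻ t in Ioc ρ (2 * ρ), ENNReal.ofReal ((t - ρ) ^ (-(q / 4))) := by
        rw [lintegral_const_mul]
        fun_prop
    _ ≤ ENNReal.ofReal ((2 * A ^ 2 * ρ) ^ (q / 4) * ρ ^ (-γ)) *
          ENNReal.ofReal (ρ ^ (1 - q / 4) / (1 - q / 4)) := by
        gcongr
    _ = _ := by
        rw [← ENNReal.ofReal_mul hC]
        congr 1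
        have e3 : (2 * A ^ 2 * ρ) ^ (q / 4) = (2 * A ^ 2) ^ (q / 4) * ρ ^ (q / 4) :=
          Real.mul_rpow (by positivity) hρ0.le
        have e4 : ρ ^ (q / 4) * ρ ^ (-γ) * ρ ^ (1 - q / 4) = ρ ^ (1 - γ) := by
          rw [← Real.rpow_add hρ0, ← Real.rpow_add hρ0]
          congr 1; ring
        rw [e3, ← e4]
        ring

include hq2 hγ hρ o hA in
lemma part_d : ∫⁻ t in Ioi (2 * ρ), ENNReal.ofReal (Jf q γ w t) ≤
    ENNReal.ofReal (((4 / 3 * A ^ 2) ^ (q / 4) * 2 ^ (1 - γ) / (γ - 1)) * ρ ^ (1 - γ)) := by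
  have hρ0 : 0 < ρ := by linarith
  have h1 : ∀ t ∈ Ioi (2 * ρ), Jf q γ w t ≤ (4 / 3 * A ^ 2) ^ (q / 4) * t ^ (-γ) := by
    intro t ht
    have ht' : 2 * ρ < t := ht
    have ht0 : 0 < t := by linarith
    have h2 := LG (sq_nonneg ρ) o hA (t := t) ht0 (by nlinarith)
    have h3 : 3 / 4 ≤ 1 - ρ ^ 2 / t ^ 2 := by
      have : ρ ^ 2 / t ^ 2 ≤ 1 / 4 := by
        rw [div_le_div_iff₀ (by positivity) (by norm_num)]
        nlinarith
      linarith
    have h4 : w t ^ 4 ≤ 4 / 3 * A ^ 2 := by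
      have := (mul_le_mul_of_nonneg_right h3 (by positivity : 0 ≤ w t ^ 4)).trans h2
      linarith
    have h7 := Real.rpow_le_rpow (by positivity) h4 (by linarith : 0 ≤ q / 4)
    have e2 : (w t ^ 2) ^ (q / 2) = (w t ^ 4) ^ (q / 4) := by
      rw [show w t ^ 4 = (w t ^ 2) ^ 2 by ring, ← Real.rpow_natCast (w t ^ 2) 2,
        ← Real.rpow_mul (sq_nonneg _)]
      congr 1
      push_cast
      ring
    unfold Jf
    rw [e2]
    exact mul_le_mul_of_nonneg_right h7 (Real.rpow_nonneg ht0.le _)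
  have hC : 0 ≤ (4 / 3 * A ^ 2) ^ (q / 4) := by positivity
  calc ∫⁻ t in Ioi (2 * ρ), ENNReal.ofReal (Jf q γ w t)
      ≤ ∫⁻ t in Ioi (2 * ρ), ENNReal.ofReal ((4 / 3 * A ^ 2) ^ (q / 4)) * ENNReal.ofReal (t ^ (-γ)) := by
        refine setLIntegral_mono' measurableSet_Ioi fun t ht => ?_
        rw [← ENNReal.ofReal_mul hC]
        exact ENNReal.ofReal_le_ofReal (h1 t ht)
    _ = ENNReal.ofReal ((4 / 3 * A ^ 2) ^ (q / 4)) * ∫⁻ t in Ioi (2 * ρ), ENNReal.ofReal (t ^ (-γ)) := by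
        rw [lintegral_const_mul]
        fun_prop
    _ = _ := by
        rw [L_Ioi (by linarith) (by positivity), ← ENNReal.ofReal_mul hC]
        congr 1
        rw [show -γ + 1 = 1 - γ by ring, Real.mul_rpow (by norm_num) hρ0.le]
        have : γ - 1 ≠ 0 := by linarith
        have : 1 - γ ≠ 0 := by linarith
        field_simp
        ring

end

/-- the uniform bound -/
theorem Jbound {q γ A : ℝ} (hq2 : 2 < q) (hq4 : q < 4) (hγ : 1 < γ) (hA0 : 0 ≤ A) :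
    ∃ C : ℝ, 0 ≤ C ∧ ∀ (ρ : ℝ) (w v : ℝ → ℝ), 4 ≤ ρ → 2 * γ / q ≤ ρ → Ode (ρ ^ 2) w v →
      Tendsto (fun t => w t ^ 2 + v t ^ 2) atTop (𝓝 A) → Zero (ρ ^ 2) w v →
        ∫⁻ t in Ioi 0, ENNReal.ofReal (Jf q γ w t) ≤ ENNReal.ofReal (C * ρ ^ (1 - γ)) := by
  have hq1 : 0 < q - 1 := by linarith
  have hq3 : 0 < 1 - q / 4 := by linarith
  have hγ1 : 0 < γ - 1 := by linarith
  refine ⟨((20 * A) ^ (q / 2) * (1 / 2) ^ (1 - γ)) +
    (((5 * A) ^ (q / 2) * (1 / 2) ^ (-γ) * (1 / 4) ^ ((1 - q) / 3) / (q - 1)) +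
    (((2 * A ^ 2) ^ (q / 4) / (1 - q / 4)) +
    ((4 / 3 * A ^ 2) ^ (q / 4) * 2 ^ (1 - γ) / (γ - 1)))), by positivity, ?_⟩
  intro ρ w v hρ hθ o hA z
  have hρ0 : 0 < ρ := by linarith
  set h : ℝ := (ρ / 4) ^ ((1 : ℝ) / 3) with hh
  have hh0 : 0 < h := by positivity
  have hh3 : h ^ 3 = ρ / 4 := by
    rw [hh, ← Real.rpow_natCast, ← Real.rpow_mul (by positivity)]
    norm_num
  have hsub : Ioi (0 : ℝ) ⊆ Ioc 0 (ρ / 2) ∪ (Ioc (ρ / 2) ρ ∪ (Ioc ρ (2 * ρ) ∪ Ioi (2 * ρ))) := by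
    intro t ht
    simp only [mem_union, mem_Ioc, mem_Ioi] at *
    by_cases h1 : t ≤ ρ / 2
    · exact Or.inl ⟨ht, h1⟩
    · by_cases h2 : t ≤ ρ
      · exact Or.inr (Or.inl ⟨not_le.1 h1, h2⟩)
      · by_cases h3 : t ≤ 2 * ρ
        · exact Or.inr (Or.inr (Or.inl ⟨not_le.1 h2, h3⟩))
        · exact Or.inr (Or.inr (Or.inr (not_le.1 h3)))
  calc ∫⁻ t in Ioi 0, ENNReal.ofReal (Jf q γ w t)
      ≤ ∫⁻ t in Ioc 0 (ρ / 2) ∪ (Ioc (ρ / 2) ρ ∪ (Ioc ρ (2 * ρ) ∪ Ioi (2 * ρ))),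
          ENNReal.ofReal (Jf q γ w t) := lintegral_mono_set hsub
    _ ≤ (∫⁻ t in Ioc 0 (ρ / 2), ENNReal.ofReal (Jf q γ w t)) +
        ((∫⁻ t in Ioc (ρ / 2) ρ, ENNReal.ofReal (Jf q γ w t)) +
        ((∫⁻ t in Ioc ρ (2 * ρ), ENNReal.ofReal (Jf q γ w t)) +
        (∫⁻ t in Ioi (2 * ρ), ENNReal.ofReal (Jf q γ w t)))) := by
        refine (lintegral_union_le _ _ _).trans (add_le_add le_rfl ?_)
        refine (lintegral_union_le _ _ _).trans (add_le_add le_rfl ?_)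
        exact lintegral_union_le _ _ _
    _ ≤ _ := by
        rw [add_mul, add_mul, add_mul, ENNReal.ofReal_add (by positivity) (by positivity),
          ENNReal.ofReal_add (by positivity) (by positivity),
          ENNReal.ofReal_add (by positivity) (by positivity)]
        exact add_le_add (part_a hq2 hγ hρ hh0 hh3 o hA z hθ)
          (add_le_add (part_b hq2 hq4 hρ hh0 hh3 o hA z (by linarith))
            (add_le_add (part_c hq2 hq4 hρ o hA (by linarith)) (part_d hq2 hγ hρ o hA)))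

end Pool.Agent.N303.SH
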