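import Pool.Agent.N303.SH.H3
import Pool.Agent.N303.SH.G

set_option autoImplicit false

/-! Uniform `L^q` bounds for the Bessel functions of the sphere. -/

open Set Filter Topology MeasureTheory
open scoped ENNReal

namespace Pool.Agent.N303.SH

/-- half of the dimension of the sphere -/
noncomputable def sc (c : ℕ) : ℝ := ((c : ℝ) + 1) / 2

noncomputable def wk (c k : ℕ) (t : ℝ) : ℝ := t ^ sc c * be c k t
noncomputable def ak (c k : ℕ) : ℝ := k + sc c
noncomputable def vk (c k : ℕ) (t : ℝ) : ℝ := ak c k / t * wk c k t - wk c (k + 1) t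
noncomputable def mk (c k : ℕ) : ℝ := ak c k * (ak c k - 1)

variable {c : ℕ}

lemma d_wk (k : ℕ) {t : ℝ} (ht : 0 < t) : HasDerivAt (wk c k) (vk c k t) t := by
  have h1 := (Real.hasDerivAt_rpow_const (p := sc c) (Or.inl ht.ne')).mul (T1 c k ht)
  refine h1.congr_deriv ?_
  unfold vk wk ak
  rw [Real.rpow_sub_one ht.ne']
  field_simp
  ring

lemma d_wk2 (k : ℕ) {t : ℝ} (ht : 0 < t) :
    HasDerivAt (wk c (k + 1)) (wk c k t - ak c k / t * wk c (k + 1) t) t := by
  have h1 := (Real.hasDerivAt_rpow_const (p := sc c) (Or.inl ht.ne')).mul (T2 c k ht)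
  refine h1.congr_deriv ?_
  unfold wk ak
  rw [Real.rpow_sub_one ht.ne']
  have e : ((k + c + 1 : ℕ) : ℝ) = k + 2 * sc c := by
    unfold sc; push_cast; ring
  rw [e]
  field_simp
  ring

lemma vk_succ (k : ℕ) {t : ℝ} (ht : 0 < t) :
    vk c (k + 1) t = wk c k t - ak c k / t * wk c (k + 1) t :=
  (d_wk (k + 1) ht).unique (d_wk2 k ht)

lemma ode_k (k : ℕ) : Ode (mk c k) (wk c k) (vk c k) := by
  refine ⟨fun t ht => d_wk k ht, fun t ht => ?_⟩
  have h0 : HasDerivAt (fun t : ℝ => ak c k / t) (-ak c k / t ^ 2) t := by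
    have := (hasDerivAt_const t (ak c k)).div (hasDerivAt_id t) ht.ne'
    refine this.congr_deriv ?_
    simp
  have h1 := (h0.mul (d_wk (c := c) k ht)).sub (d_wk2 (c := c) k ht)
  refine h1.congr_deriv ?_
  unfold vk mk
  field_simp
  ring

lemma sc_ge (hc : 1 ≤ c) : 1 ≤ sc c := by
  unfold sc
  have : (1:ℝ) ≤ c := by exact_mod_cast hc
  linarith

lemma ak_ge (hc : 1 ≤ c) (k : ℕ) : (k : ℝ) + 1 ≤ ak c k := by
  unfold ak
  linarith [sc_ge hc]

lemma mk_nonneg (hc : 1 ≤ c) (k : ℕ) : 0 ≤ mk c k := by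
  have := ak_ge hc k
  have : (0:ℝ) ≤ k := Nat.cast_nonneg k
  unfold mk
  apply mul_nonneg <;> linarith

lemma lim_all (hc : 1 ≤ c) : ∃ A : ℝ, ∀ k, Tendsto (fun t => wk c k t ^ 2 + vk c k t ^ 2) atTop (𝓝 A) := by
  obtain ⟨A, hA⟩ := N_lim (mk_nonneg hc 0) (ode_k (c := c) 0)
  refine ⟨A, fun k => ?_⟩
  induction k with
  | zero => exact hA
  | succ k ih =>
    set a := ak c k with ha
    set C := (wk c k 1 ^ 2 + vk c k 1 ^ 2) * Real.exp (mk c k)
    set C' := (wk c (k + 1) 1 ^ 2 + vk c (k + 1) 1 ^ 2) * Real.exp (mk c (k + 1))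
    have b1 : ∀ t, 1 ≤ t → wk c k t ^ 2 + vk c k t ^ 2 ≤ C := fun t ht =>
      N_bdd (mk_nonneg hc k) (ode_k k) ht
    have b2 : ∀ t, 1 ≤ t → wk c (k + 1) t ^ 2 + vk c (k + 1) t ^ 2 ≤ C' := fun t ht =>
      N_bdd (mk_nonneg hc (k + 1)) (ode_k (k + 1)) ht
    have l1 : Tendsto (fun t : ℝ => a / t) atTop (𝓝 0) := tendsto_const_nhds.div_atTop tendsto_id
    have m1 : Tendsto (fun t => (-(2 * (a / t))) * (wk c k t * vk c k t)) atTop (𝓝 0) := by
      apply z_mul (C := C)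
      · filter_upwards [eventually_ge_atTop 1] with t ht
        have := b1 t ht
        rw [abs_le]
        constructor <;> nlinarith [sq_nonneg (wk c k t - vk c k t), sq_nonneg (wk c k t + vk c k t)]
      · simpa using (l1.const_mul 2).neg
    have m2 : Tendsto (fun t => (a / t) ^ 2 * wk c k t ^ 2) atTop (𝓝 0) := by
      apply z_mul (C := C)
      · filter_upwards [eventually_ge_atTop 1] with t ht
        have := b1 t ht
        rw [abs_of_nonneg (sq_nonneg _)]
        nlinarith [sq_nonneg (vk c k t)]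
      · simpa using l1.pow 2
    have m3 : Tendsto (fun t => (-(2 * (a / t))) * (wk c k t * wk c (k + 1) t)) atTop (𝓝 0) := by
      apply z_mul (C := C + C')
      · filter_upwards [eventually_ge_atTop 1] with t ht
        have := b1 t ht
        have := b2 t ht
        rw [abs_le]
        constructor <;> nlinarith [sq_nonneg (wk c k t - wk c (k + 1) t),
          sq_nonneg (wk c k t + wk c (k + 1) t), sq_nonneg (vk c k t), sq_nonneg (vk c (k + 1) t)]
      · simpa using (l1.const_mul 2).neg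
    have m4 : Tendsto (fun t => (a / t) ^ 2 * wk c (k + 1) t ^ 2) atTop (𝓝 0) := by
      apply z_mul (C := C')
      · filter_upwards [eventually_ge_atTop 1] with t ht
        have := b2 t ht
        rw [abs_of_nonneg (sq_nonneg _)]
        nlinarith [sq_nonneg (vk c (k + 1) t)]
      · simpa using l1.pow 2
    have key := (((ih.add m1).add m2).add m3).add m4
    simp only [add_zero] at key
    refine key.congr' ?_
    filter_upwards [eventually_gt_atTop 0] with t ht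
    rw [vk_succ k ht]
    have e : wk c (k + 1) t = a / t * wk c k t - vk c k t := by
      unfold vk; ring
    rw [← ha]
    rw [e]
    ring

lemma wk_le (k : ℕ) {t : ℝ} (ht : 0 < t) : |wk c k t| ≤ (sg (c + 2)).real univ * t ^ sc c := by
  unfold wk
  rw [abs_mul, abs_of_pos (Real.rpow_pos_of_pos ht _), mul_comm]
  exact mul_le_mul_of_nonneg_right (be_le c k ht) (Real.rpow_nonneg ht.le _)

lemma zero_k (hc : 1 ≤ c) (k : ℕ) : Zero (mk c k) (wk c k) (vk c k) := by
  set a := ak c k with ha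
  set C := (sg (c + 2)).real univ with hC
  have hC0 : 0 ≤ C := measureReal_nonneg
  have hs := sc_ge hc
  have ha0 : 0 ≤ a := by
    have := ak_ge hc k
    have : (0:ℝ) ≤ k := Nat.cast_nonneg k
    linarith
  have l1 : Tendsto (fun t : ℝ => t ^ (2 * sc c - 1)) (𝓝[>] 0) (𝓝 0) := by
    have h1 : ContinuousAt (fun t : ℝ => t ^ (2 * sc c - 1)) 0 :=
      Real.continuousAt_rpow_const _ _ (Or.inr (by linarith))
    have h2 := h1.tendsto.mono_left (nhdsWithin_le_nhds (s := Ioi 0))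
    rwa [Real.zero_rpow (by linarith)] at h2
  have l2 : Tendsto (fun t : ℝ => t ^ (2 * sc c)) (𝓝[>] 0) (𝓝 0) := by
    have h1 : ContinuousAt (fun t : ℝ => t ^ (2 * sc c)) 0 :=
      Real.continuousAt_rpow_const _ _ (Or.inr (by linarith))
    have h2 := h1.tendsto.mono_left (nhdsWithin_le_nhds (s := Ioi 0))
    rwa [Real.zero_rpow (by linarith)] at h2
  have hpow : ∀ t : ℝ, 0 < t → t ^ sc c * (1 / t * t ^ sc c) = t ^ (2 * sc c - 1) := by
    intro t ht
    rw [one_div, ← Real.rpow_neg_one, ← Real.rpow_add ht, ← Real.rpow_add ht]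
    congr 1; ring
  have hpow2 : ∀ t : ℝ, 0 < t → t ^ sc c * t ^ sc c = t ^ (2 * sc c) := by
    intro t ht
    rw [← Real.rpow_add ht]
    congr 1; ring
  have hw : ∀ t : ℝ, 0 < t → |wk c k t| ≤ C * t ^ sc c := fun t ht => wk_le k ht
  have hw' : ∀ t : ℝ, 0 < t → |wk c (k + 1) t| ≤ C * t ^ sc c := fun t ht => wk_le (k + 1) ht
  refine ⟨?_, fun t => 2 * a * C ^ 2 * t ^ (2 * sc c - 1), ?_, ?_⟩
  · have l3 : Tendsto (fun t : ℝ => C ^ 2 * a * t ^ (2 * sc c - 1) + C ^ 2 * t ^ (2 * sc c))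
        (𝓝[>] 0) (𝓝 0) := by
      simpa using (l1.const_mul (C ^ 2 * a)).add (l2.const_mul (C ^ 2))
    refine squeeze_zero' (Eventually.of_forall fun t => abs_nonneg _) ?_ l3
    filter_upwards [self_mem_nhdsWithin] with t ht
    have ht' : 0 < t := ht
    have hp := Real.rpow_pos_of_pos ht' (sc c)
    have hv : |vk c k t| ≤ a / t * (C * t ^ sc c) + C * t ^ sc c := by
      unfold vk
      calc |ak c k / t * wk c k t - wk c (k + 1) t| ≤ |ak c k / t * wk c k t| + |wk c (k + 1) t| :=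
            abs_sub _ _
        _ ≤ _ := by
            rw [abs_mul, abs_of_nonneg (div_nonneg ha0 ht'.le)]
            exact add_le_add (mul_le_mul_of_nonneg_left (hw t ht') (by positivity)) (hw' t ht')
    rw [abs_mul]
    calc |wk c k t| * |vk c k t| ≤ (C * t ^ sc c) * (a / t * (C * t ^ sc c) + C * t ^ sc c) :=
          mul_le_mul (hw t ht') hv (abs_nonneg _) (by positivity)
      _ = C ^ 2 * a * (t ^ sc c * (1 / t * t ^ sc c)) + C ^ 2 * (t ^ sc c * t ^ sc c) := by ring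
      _ = _ := by rw [hpow t ht', hpow2 t ht']
  · simpa using l1.const_mul (2 * a * C ^ 2)
  · intro t ht
    have e1 : (1 - mk c k / t ^ 2) * wk c k t ^ 2 + vk c k t ^ 2 =
        wk c k t ^ 2 + a / t ^ 2 * wk c k t ^ 2 + wk c (k + 1) t ^ 2 -
          2 * (a / t) * (wk c k t * wk c (k + 1) t) := by
      unfold mk vk
      field_simp
      ring
    rw [e1]
    have hp := Real.rpow_pos_of_pos ht (sc c)
    have h2 : |wk c k t * wk c (k + 1) t| ≤ (C * t ^ sc c) * (C * t ^ sc c) := by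
      rw [abs_mul]
      exact mul_le_mul (hw t ht) (hw' t ht) (abs_nonneg _) (by positivity)
    have h3 : 2 * (a / t) * (wk c k t * wk c (k + 1) t) ≤ 2 * a * C ^ 2 * t ^ (2 * sc c - 1) := by
      rw [← hpow t ht]
      calc 2 * (a / t) * (wk c k t * wk c (k + 1) t) ≤ 2 * (a / t) * ((C * t ^ sc c) * (C * t ^ sc c)) :=
            mul_le_mul_of_nonneg_left ((le_abs_self _).trans h2) (by positivity)
        _ = _ := by ring
    have h4 : 0 ≤ a / t ^ 2 * wk c k t ^ 2 := by positivity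
    nlinarith [sq_nonneg (wk c k t), sq_nonneg (wk c (k + 1) t)]

/-- the integrand for the Bessel functions -/
lemma Jf_eq (k : ℕ) (q : ℝ) {t : ℝ} (ht : 0 < t) :
    Jf q (sc c * (q - 2)) (wk c k) t = |be c k t| ^ q * t ^ (c + 1) := by
  unfold Jf wk
  have e1 : (t ^ sc c * be c k t) ^ 2 = (t ^ sc c * |be c k t|) ^ (2 : ℝ) := by
    rw [show (2 : ℝ) = ((2 : ℕ) : ℝ) by norm_num, Real.rpow_natCast, mul_pow, mul_pow, sq_abs]
  rw [e1, ← Real.rpow_mul (by positivity), show 2 * (q / 2) = q by ring,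
    Real.mul_rpow (Real.rpow_nonneg ht.le _) (abs_nonneg _), ← Real.rpow_mul ht.le]
  have e2 : t ^ (sc c * q) * t ^ (-(sc c * (q - 2))) = t ^ (c + 1) := by
    rw [← Real.rpow_add ht, ← Real.rpow_natCast]
    congr 1
    unfold sc
    push_cast
    ring
  calc t ^ (sc c * q) * |be c k t| ^ q * t ^ (-(sc c * (q - 2))) =
      |be c k t| ^ q * (t ^ (sc c * q) * t ^ (-(sc c * (q - 2)))) := by ring
    _ = _ := by rw [e2]

lemma fin_k (hc : 1 ≤ c) {q : ℝ} (hq : 0 < q) (hγ : 1 < sc c * (q - 2)) (k : ℕ) :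
    ∫⁻ t in Ioi 0, ENNReal.ofReal (|be c k t| ^ q * t ^ (c + 1)) ≠ ⊤ := by
  set C := (sg (c + 2)).real univ with hC
  have hC0 : 0 ≤ C := measureReal_nonneg
  set B := (wk c k 1 ^ 2 + vk c k 1 ^ 2) * Real.exp (mk c k)
  have hB0 : 0 ≤ B := by positivity
  have h1 : ∫⁻ t in Ioc 0 1, ENNReal.ofReal (|be c k t| ^ q * t ^ (c + 1)) ≤ ENNReal.ofReal (C ^ q) := by
    calc ∫⁻ t in Ioc 0 1, ENNReal.ofReal (|be c k t| ^ q * t ^ (c + 1)) ≤
        ∫⁻ _t in Ioc (0:ℝ) 1, ENNReal.ofReal (C ^ q) := by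
          refine setLIntegral_mono' measurableSet_Ioc fun t ht => ENNReal.ofReal_le_ofReal ?_
          have h2 : |be c k t| ^ q ≤ C ^ q := Real.rpow_le_rpow (abs_nonneg _) (be_le c k ht.1) hq.le
          have h3 : t ^ (c + 1) ≤ 1 := pow_le_one₀ ht.1.le ht.2
          calc |be c k t| ^ q * t ^ (c + 1) ≤ C ^ q * 1 :=
                mul_le_mul h2 h3 (by have := ht.1.le; positivity) (by positivity)
            _ = C ^ q := mul_one _
      _ = ENNReal.ofReal (C ^ q) := by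
          rw [setLIntegral_const, Real.volume_Ioc, sub_zero, ENNReal.ofReal_one, mul_one]
  have h2 : ∫⁻ t in Ioi 1, ENNReal.ofReal (|be c k t| ^ q * t ^ (c + 1)) ≤
      ENNReal.ofReal (B ^ (q / 2)) * ENNReal.ofReal (-1 ^ (-(sc c * (q - 2)) + 1) / (-(sc c * (q - 2)) + 1)) := by
    rw [← L_Ioi (by linarith) one_pos, ← lintegral_const_mul _ (by fun_prop)]
    refine setLIntegral_mono' measurableSet_Ioi fun t ht => ?_
    have ht1 : 1 < t := ht
    have ht0 : 0 < t := by linarith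
    rw [← ENNReal.ofReal_mul (by positivity), ← Jf_eq k q ht0]
    apply ENNReal.ofReal_le_ofReal
    unfold Jf
    refine mul_le_mul_of_nonneg_right ?_ (Real.rpow_nonneg ht0.le _)
    apply Real.rpow_le_rpow (sq_nonneg _) _ (by positivity)
    have := N_bdd (mk_nonneg hc k) (ode_k k) ht1.le
    nlinarith [sq_nonneg (vk c k t)]
  have hsub : Ioi (0:ℝ) ⊆ Ioc 0 1 ∪ Ioi 1 := by
    intro t ht
    by_cases h : t ≤ 1
    · exact Or.inl ⟨ht, h⟩
    · exact Or.inr (not_le.1 h)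
  refine ne_top_of_le_ne_top ?_ ((lintegral_mono_set hsub).trans (lintegral_union_le _ _ _))
  exact ENNReal.add_ne_top.2 ⟨ne_top_of_le_ne_top ENNReal.ofReal_ne_top h1,
    ne_top_of_le_ne_top (ENNReal.mul_ne_top ENNReal.ofReal_ne_top ENNReal.ofReal_ne_top) h2⟩

/-- the uniform bound for the Bessel functions -/
theorem bess (hc : 1 ≤ c) {q : ℝ} (hq2 : 2 < q) (hq4 : q < 4) (hγ : 1 < sc c * (q - 2)) :
    ∃ C : ℝ, 0 ≤ C ∧ ∀ k : ℕ, ∫⁻ t in Ioi 0, ENNReal.ofReal (|be c k t| ^ q * t ^ (c + 1)) ≤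
      ENNReal.ofReal (C * ((k : ℝ) + 1) ^ (1 - sc c * (q - 2))) := by
  obtain ⟨A, hA⟩ := lim_all hc
  have hA0 : 0 ≤ A := A_nonneg (hA 0)
  set γ := sc c * (q - 2) with hγd
  obtain ⟨C, hC0, hC⟩ := Jbound hq2 hq4 hγ hA0
  set k0 : ℕ := max 4 ⌈2 * γ / q⌉₊ with hk0
  set D : ℝ := ∑ k ∈ Finset.range k0, (∫⁻ t in Ioi 0, ENNReal.ofReal (|be c k t| ^ q * t ^ (c + 1))).toReal *
    ((k : ℝ) + 1) ^ (γ - 1) with hD
  have hD0 : 0 ≤ D := Finset.sum_nonneg fun k _ => by positivity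
  refine ⟨C * 2 ^ (γ - 1) + D, by positivity, fun k => ?_⟩
  have hk1 : (0:ℝ) < (k : ℝ) + 1 := by positivity
  rcases lt_or_ge k k0 with hk | hk
  · have h1 : (∫⁻ t in Ioi 0, ENNReal.ofReal (|be c k t| ^ q * t ^ (c + 1))).toReal ≤
        D * ((k : ℝ) + 1) ^ (1 - γ) := by
      have h2 : (∫⁻ t in Ioi 0, ENNReal.ofReal (|be c k t| ^ q * t ^ (c + 1))).toReal *
          ((k : ℝ) + 1) ^ (γ - 1) ≤ D :=
        Finset.single_le_sum (f := fun k : ℕ => (∫⁻ t in Ioi 0,
          ENNReal.ofReal (|be c k t| ^ q * t ^ (c + 1))).toReal * ((k : ℝ) + 1) ^ (γ - 1))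
          (fun i _ => by positivity) (Finset.mem_range.2 hk)
      have h3 := mul_le_mul_of_nonneg_right h2 (Real.rpow_nonneg hk1.le (1 - γ))
      rw [mul_assoc, ← Real.rpow_add hk1] at h3
      have e : γ - 1 + (1 - γ) = 0 := by ring
      rwa [e, Real.rpow_zero, mul_one] at h3
    rw [← ENNReal.ofReal_toReal (fin_k hc (by linarith) hγ k)]
    apply ENNReal.ofReal_le_ofReal
    refine h1.trans ?_
    apply mul_le_mul_of_nonneg_right _ (Real.rpow_nonneg hk1.le _)
    have : 0 ≤ C * 2 ^ (γ - 1) := by positivity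
    linarith
  · have hk4 : 4 ≤ k := (le_max_left _ _).trans hk
    have hkθ : 2 * γ / q ≤ k := by
      have h1 := Nat.le_ceil (2 * γ / q)
      have h2 : (⌈2 * γ / q⌉₊ : ℝ) ≤ k := by exact_mod_cast (le_max_right _ _).trans hk
      linarith
    have hk4' : (4:ℝ) ≤ k := by exact_mod_cast hk4
    set ρ := Real.sqrt (mk c k) with hρd
    have hρ2 : ρ ^ 2 = mk c k := Real.sq_sqrt (mk_nonneg hc k)
    have ha := ak_ge hc k
    have hmk : (k : ℝ) ^ 2 ≤ mk c k := by
      unfold mk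
      nlinarith
    have hρk : (k : ℝ) ≤ ρ := by
      rw [hρd]
      exact Real.le_sqrt_of_sq_le hmk
    have h1 := hC ρ (wk c k) (vk c k) (by linarith) (by linarith) (by rw [hρ2]; exact ode_k k) (hA k)
      (by rw [hρ2]; exact zero_k hc k)
    have h2 : ∫⁻ t in Ioi 0, ENNReal.ofReal (|be c k t| ^ q * t ^ (c + 1)) =
        ∫⁻ t in Ioi 0, ENNReal.ofReal (Jf q γ (wk c k) t) := by
      refine setLIntegral_congr_fun measurableSet_Ioi fun t ht => ?_
      rw [hγd, Jf_eq k q ht]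
    rw [h2]
    refine h1.trans (ENNReal.ofReal_le_ofReal ?_)
    have h3 : ρ ^ (1 - γ) ≤ 2 ^ (γ - 1) * ((k : ℝ) + 1) ^ (1 - γ) := by
      have h4 : ((k : ℝ) + 1) / 2 ≤ ρ := by linarith
      have h5 : ρ ^ (1 - γ) ≤ (((k : ℝ) + 1) / 2) ^ (1 - γ) :=
        Real.rpow_le_rpow_of_nonpos (by positivity) h4 (by linarith)
      refine h5.trans (le_of_eq ?_)
      rw [Real.div_rpow hk1.le (by norm_num), show (1 - γ) = -(γ - 1) by ring,
        Real.rpow_neg (by norm_num : (0:ℝ) ≤ 2), div_inv_eq_mul, mul_comm]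
    have hr := Real.rpow_nonneg hk1.le (1 - γ)
    calc C * ρ ^ (1 - γ) ≤ C * (2 ^ (γ - 1) * ((k : ℝ) + 1) ^ (1 - γ)) :=
          mul_le_mul_of_nonneg_left h3 hC0
      _ ≤ _ := by nlinarith [mul_nonneg hD0 hr]

end Pool.Agent.N303.SH
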