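import Pool.Agent.N303.SH.D

set_option autoImplicit false

/-! The `L²` bound for the multipliers and the interpolation. -/

open MeasureTheory Metric Set Filter Topology
open scoped ENNReal RealInnerProductSpace Pointwise

namespace Pool.Agent.N303.SH

variable {n : ℕ}

/-- index set of the orthonormal basis of the polynomials -/
abbrev Ix (n m : ℕ) := (k : Fin (m + 1)) × Fin (dk n k)

/-- the orthonormal basis -/
noncomputable def ee (n m : ℕ) (p : Ix n m) : C(S n, ℝ) := e n p.1 p.2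

lemma ee_on (m : ℕ) (p q : Ix n m) : ip (ee n m p) (ee n m q) = if p = q then 1 else 0 := by
  unfold ee
  by_cases h : (p.1 : ℕ) = q.1
  · obtain ⟨⟨k, hk⟩, i⟩ := p
    obtain ⟨⟨l, hl⟩, j⟩ := q
    simp only at h
    subst h
    simp only
    rw [e_on]
    by_cases hij : i = j
    · subst hij
      simp
    · rw [if_neg hij, if_neg]
      intro h2
      apply hij
      simpa using h2
  · rw [e_ne h, if_neg]
    rintro rfl
    exact h rfl

lemma sum_Ix {M : Type*} [AddCommMonoid M] (m : ℕ) (f : (k : ℕ) → Fin (dk n k) → M) :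
    ∑ p : Ix n m, f p.1 p.2 = ∑ k ∈ Finset.range (m + 1), ∑ i, f k i := by
  rw [Fintype.sum_sigma]
  exact Fin.sum_univ_eq_sum_range (fun k => ∑ i, f k i) (m + 1)

/-- Bessel's inequality, real case -/
lemma bessel_r (M : ℕ) {h : S n → ℝ} (hh : MemLp h 2 (sg n)) :
    ∑ p : Ix n M, (∫ y, ee n M p y * h y ∂(sg n)) ^ 2 ≤ ∫ y, h y ^ 2 ∂(sg n) := by
  have hi : Integrable h (sg n) := hh.integrable (by norm_num)
  have hi2 : Integrable (fun y => h y ^ 2) (sg n) := hh.integrable_sq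
  have hei : ∀ f : C(S n, ℝ), Integrable (fun y => f y * h y) (sg n) := by
    intro f
    refine Integrable.bdd_mul (c := ‖f‖) hi f.continuous.aestronglyMeasurable ?_
    exact Eventually.of_forall fun y => f.norm_coe_le_norm y
  set lam : Ix n M → ℝ := fun p => ∫ y, ee n M p y * h y ∂(sg n) with hlam
  set P : C(S n, ℝ) := ∑ p, lam p • ee n M p with hP
  have h1 : 0 ≤ ∫ y, (h y - P y) ^ 2 ∂(sg n) := integral_nonneg fun y => sq_nonneg _
  have h2 : ∫ y, (h y - P y) ^ 2 ∂(sg n) = ∫ y, h y ^ 2 ∂(sg n) - 2 * ∫ y, P y * h y ∂(sg n) + ip P P := by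
    unfold ip
    have e1 : ∀ y, (h y - P y) ^ 2 = h y ^ 2 - 2 * (P y * h y) + P y * P y := by intro y; ring
    simp only [e1]
    have a1 : Integrable (fun y => h y ^ 2 - 2 * (P y * h y)) (sg n) :=
      hi2.sub ((hei P).const_mul 2)
    rw [integral_add a1 (int_mul P P), integral_sub hi2
      ((hei P).const_mul 2), integral_const_mul]
  have h3 : ip P P = ∑ p, lam p ^ 2 := by
    rw [hP, ip_sum]
    refine Finset.sum_congr rfl fun p _ => ?_
    rw [ip_smul, ip_comm, ip_sum, Finset.sum_eq_single p]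
    · rw [ip_smul, ee_on, if_pos rfl]; ring
    · intro q _ hq
      rw [ip_smul, ee_on, if_neg (Ne.symm hq), mul_zero]
    · simp
  have h4 : ∫ y, P y * h y ∂(sg n) = ∑ p, lam p ^ 2 := by
    have e1 : ∀ y, P y * h y = ∑ p, lam p * (ee n M p y * h y) := by
      intro y
      rw [hP, ContinuousMap.sum_apply, Finset.sum_mul]
      refine Finset.sum_congr rfl fun p _ => ?_
      simp only [ContinuousMap.smul_apply, smul_eq_mul]
      ring
    simp only [e1]
    rw [integral_finsetSum _ fun p _ => (hei _).const_mul _]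
    refine Finset.sum_congr rfl fun p _ => ?_
    rw [integral_const_mul]
    simp only [hlam]
    ring
  rw [h2, h3, h4] at h1
  linarith

/-- Bessel's inequality -/
lemma bessel (M : ℕ) {h : S n → ℂ} (hh : MemLp h 2 (sg n)) :
    ∑ p : Ix n M, ‖∫ y, (ee n M p y : ℂ) * h y ∂(sg n)‖ ^ 2 ≤ ∫ y, ‖h y‖ ^ 2 ∂(sg n) := by
  have hi : Integrable h (sg n) := hh.integrable (by norm_num)
  have hr := bessel_r M hh.re
  have hm := bessel_r M hh.im
  have h1 : ∀ p : Ix n M, ‖∫ y, (ee n M p y : ℂ) * h y ∂(sg n)‖ ^ 2 =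
      (∫ y, ee n M p y * RCLike.re (h y) ∂(sg n)) ^ 2 + (∫ y, ee n M p y * RCLike.im (h y) ∂(sg n)) ^ 2 := by
    intro p
    have hint := int_cg hi (ee n M p)
    rw [Complex.sq_norm, Complex.normSq_apply]
    have e1 : (∫ y, (ee n M p y : ℂ) * h y ∂(sg n)).re = ∫ y, ee n M p y * RCLike.re (h y) ∂(sg n) := by
      have := integral_re hint
      rw [← RCLike.re_eq_complex_re, ← this]
      congr 1
      ext y
      simp
    have e2 : (∫ y, (ee n M p y : ℂ) * h y ∂(sg n)).im = ∫ y, ee n M p y * RCLike.im (h y) ∂(sg n) := by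
      have := integral_im hint
      rw [← RCLike.im_eq_complex_im, ← this]
      congr 1
      ext y
      simp
    rw [e1, e2]
    ring
  have h2 : ∫ y, ‖h y‖ ^ 2 ∂(sg n) = ∫ y, RCLike.re (h y) ^ 2 ∂(sg n) + ∫ y, RCLike.im (h y) ^ 2 ∂(sg n) := by
    rw [← integral_add hh.re.integrable_sq hh.im.integrable_sq]
    congr 1
    ext y
    rw [Complex.sq_norm, Complex.normSq_apply]
    simp
    ring
  simp only [h1]
  rw [Finset.sum_add_distrib, h2]
  exact add_le_add hr hm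

/-- coefficients -/
noncomputable def lm (m M : ℕ) (g : S n → ℂ) (a : Ix n m) (p : Ix n M) : ℂ :=
  ∫ y, (ee n M p y : ℂ) * ((ee n m a y : ℂ) * g y) ∂(sg n)

/-- the multiplier operator -/
noncomputable def Tc (m M : ℕ) (c : ℕ → ℂ) (g : S n → ℂ) (x : S n) : ℂ :=
  ∫ y, Kr m M c x y * g y ∂(sg n)

lemma Zf_apply (k : ℕ) (x y : S n) : Zf k x y = ∑ i, e n k i x * e n k i y := by
  unfold Zf
  rw [ContinuousMap.sum_apply]
  simp

lemma Zs_apply (m : ℕ) (x y : S n) : Zs m x y = ∑ a : Ix n m, ee n m a x * ee n m a y := by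
  unfold Zs ee
  rw [ContinuousMap.sum_apply, sum_Ix m (fun k i => e n k i x * e n k i y)]
  exact Finset.sum_congr rfl fun k _ => Zf_apply k x y

lemma Tc_eq (m M : ℕ) (c : ℕ → ℂ) {g : S n → ℂ} (hg : Integrable g (sg n)) (x : S n) :
    Tc m M c g x = ((zs n m x)⁻¹ : ℝ) * ∑ a : Ix n m, (ee n m a x : ℂ) *
      ∑ p : Ix n M, (c p.1 * (ee n M p x : ℂ)) * lm m M g a p := by
  unfold Tc
  have h1 : ∀ y, Kr m M c x y * g y = ((zs n m x)⁻¹ : ℝ) * ∑ a : Ix n m, (ee n m a x : ℂ) *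
      ∑ p : Ix n M, (c p.1 * (ee n M p x : ℂ)) * ((ee n M p y : ℂ) * ((ee n m a y : ℂ) * g y)) := by
    intro y
    have e1 : ∑ l ∈ Finset.range (M + 1), c l * ((Zs m x y * Zf l x y : ℝ) : ℂ) =
        ∑ a : Ix n m, (ee n m a x : ℂ) * ∑ p : Ix n M, (c p.1 * (ee n M p x : ℂ)) *
          ((ee n M p y : ℂ) * (ee n m a y : ℂ)) := by
      have e2 : ∑ l ∈ Finset.range (M + 1), c l * (Zf l x y : ℂ) =
          ∑ p : Ix n M, c p.1 * (ee n M p x : ℂ) * (ee n M p y : ℂ) := by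
        unfold ee
        rw [sum_Ix M (fun k i => c k * (e n k i x : ℂ) * (e n k i y : ℂ))]
        refine Finset.sum_congr rfl fun l _ => ?_
        rw [Zf_apply]
        push_cast
        rw [Finset.mul_sum]
        refine Finset.sum_congr rfl fun i _ => ?_
        ring
      calc ∑ l ∈ Finset.range (M + 1), c l * ((Zs m x y * Zf l x y : ℝ) : ℂ) =
          (Zs m x y : ℂ) * ∑ l ∈ Finset.range (M + 1), c l * (Zf l x y : ℂ) := by
            rw [Finset.mul_sum]
            refine Finset.sum_congr rfl fun l _ => ?_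
            push_cast
            ring
        _ = _ := by
            rw [e2, Zs_apply]
            push_cast
            rw [Finset.sum_mul]
            refine Finset.sum_congr rfl fun a _ => ?_
            rw [mul_assoc, Finset.mul_sum]
            congr 1
            refine Finset.sum_congr rfl fun p _ => ?_
            ring
    unfold Kr
    rw [e1, mul_assoc, Finset.sum_mul]
    congr 1
    refine Finset.sum_congr rfl fun a _ => ?_
    rw [mul_assoc, Finset.sum_mul]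
    congr 1
    refine Finset.sum_congr rfl fun p _ => ?_
    ring
  have hint : ∀ (a : Ix n m) (p : Ix n M),
      Integrable (fun y => (ee n M p y : ℂ) * ((ee n m a y : ℂ) * g y)) (sg n) :=
    fun a p => int_cg (int_cg hg _) _
  simp only [h1]
  rw [integral_const_mul, integral_finsetSum _ fun a _ => (integrable_finsetSum _ fun p _ =>
    (hint a p).const_mul _).const_mul _]
  congr 1
  refine Finset.sum_congr rfl fun a _ => ?_
  rw [integral_const_mul, integral_finsetSum _ fun p _ => (hint a p).const_mul _]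
  congr 1
  refine Finset.sum_congr rfl fun p _ => ?_
  rw [integral_const_mul]
  rfl

/-- the `L²` masses -/
noncomputable def nl (m M : ℕ) (z : ℝ) (g : S n → ℂ) (p : Ix n M) : ℝ :=
  z⁻¹ * ∑ a : Ix n m, ‖lm m M g a p‖ ^ 2

lemma nl_nonneg (m M : ℕ) {z : ℝ} (hz : 0 < z) (g : S n → ℂ) (p : Ix n M) : 0 ≤ nl m M z g p := by
  unfold nl
  positivity

lemma sum_sq_ee (m : ℕ) (x : S n) : ∑ a : Ix n m, ee n m a x ^ 2 = zs n m x := by
  rw [← Zs_self, Zs_apply]
  simp only [sq]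

lemma nl_sum (m M : ℕ) {z : ℝ} (hz : 0 < z) (hzx : ∀ x : S n, zs n m x = z) {g : S n → ℂ}
    (hg : MemLp g 2 (sg n)) : ∑ p : Ix n M, nl m M z g p ≤ ∫ y, ‖g y‖ ^ 2 ∂(sg n) := by
  have hm : ∀ f : C(S n, ℝ), MemLp (fun y => (f y : ℂ) * g y) 2 (sg n) := by
    intro f
    have hf : AEStronglyMeasurable (fun y => (f y : ℂ)) (sg n) :=
      (Complex.continuous_ofReal.comp f.continuous).aestronglyMeasurable
    refine MemLp.of_le_mul (c := ‖f‖) hg (hf.mul hg.1) (Eventually.of_forall fun y => ?_)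
    rw [norm_mul, Complex.norm_real]
    exact mul_le_mul_of_nonneg_right (f.norm_coe_le_norm y) (norm_nonneg _)
  have h1 : ∑ p : Ix n M, nl m M z g p = z⁻¹ * ∑ a : Ix n m, ∑ p : Ix n M, ‖lm m M g a p‖ ^ 2 := by
    unfold nl
    rw [← Finset.mul_sum, Finset.sum_comm]
  rw [h1]
  have h2 : ∑ a : Ix n m, ∑ p : Ix n M, ‖lm m M g a p‖ ^ 2 ≤
      ∑ a : Ix n m, ∫ y, ‖(ee n m a y : ℂ) * g y‖ ^ 2 ∂(sg n) :=
    Finset.sum_le_sum fun a _ => bessel M (hm (ee n m a))
  have h3 : ∑ a : Ix n m, ∫ y, ‖(ee n m a y : ℂ) * g y‖ ^ 2 ∂(sg n) = z * ∫ y, ‖g y‖ ^ 2 ∂(sg n) := by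
    rw [← integral_finsetSum _ fun a _ => (hm (ee n m a)).integrable_norm_pow two_ne_zero,
      ← integral_const_mul]
    congr 1
    ext y
    have e1 : ∀ a : Ix n m, ‖(ee n m a y : ℂ) * g y‖ ^ 2 = ee n m a y ^ 2 * ‖g y‖ ^ 2 := by
      intro a
      rw [norm_mul, mul_pow, Complex.norm_real, Real.norm_eq_abs, sq_abs]
    simp only [e1]
    rw [← Finset.sum_mul, sum_sq_ee, hzx]
  rw [h3] at h2
  calc z⁻¹ * ∑ a : Ix n m, ∑ p : Ix n M, ‖lm m M g a p‖ ^ 2 ≤ z⁻¹ * (z * ∫ y, ‖g y‖ ^ 2 ∂(sg n)) :=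
        mul_le_mul_of_nonneg_left h2 (by positivity)
    _ = _ := by field_simp

lemma comb_sq (M : ℕ) (d : Ix n M → ℂ) :
    ∫ x, ‖∑ p : Ix n M, d p * (ee n M p x : ℂ)‖ ^ 2 ∂(sg n) = ∑ p, ‖d p‖ ^ 2 := by
  set u : C(S n, ℝ) := ∑ p, (d p).re • ee n M p with hu
  set v : C(S n, ℝ) := ∑ p, (d p).im • ee n M p with hv
  have h1 : ∀ x, ‖∑ p : Ix n M, d p * (ee n M p x : ℂ)‖ ^ 2 = u x * u x + v x * v x := by
    intro x
    have e2 : ∑ p : Ix n M, d p * (ee n M p x : ℂ) = (⟨u x, v x⟩ : ℂ) := by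
      apply Complex.ext
      · simp [hu, ContinuousMap.sum_apply]
      · simp [hv, ContinuousMap.sum_apply]
    rw [e2, Complex.sq_norm, Complex.normSq_mk]
  have h2 : ∀ a : Ix n M → ℝ, ip (∑ p, a p • ee n M p) (∑ p, a p • ee n M p) = ∑ p, a p ^ 2 := by
    intro a
    rw [ip_sum]
    refine Finset.sum_congr rfl fun p _ => ?_
    rw [ip_smul, ip_comm, ip_sum, Finset.sum_eq_single p]
    · rw [ip_smul, ee_on, if_pos rfl]; ring
    · intro q _ hq
      rw [ip_smul, ee_on, if_neg (Ne.symm hq), mul_zero]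
    · simp
  simp only [h1]
  rw [integral_add (int_mul u u) (int_mul v v)]
  change ip u u + ip v v = _
  rw [hu, hv, h2, h2, ← Finset.sum_add_distrib]
  refine Finset.sum_congr rfl fun p _ => ?_
  rw [Complex.sq_norm, Complex.normSq_apply]
  ring

lemma Tc_cont (m M : ℕ) (c : ℕ → ℂ) {z : ℝ} (hzx : ∀ x : S n, zs n m x = z) {g : S n → ℂ}
    (hg : Integrable g (sg n)) : Continuous (Tc m M c g) := by
  have : Tc m M c g = fun x => ((z)⁻¹ : ℝ) * ∑ a : Ix n m, (ee n m a x : ℂ) *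
      ∑ p : Ix n M, (c p.1 * (ee n M p x : ℂ)) * lm m M g a p := by
    funext x
    rw [Tc_eq m M c hg x, hzx]
  rw [this]
  fun_prop

/-- the `L²` bound -/
lemma Tc_two (m M : ℕ) (c : ℕ → ℂ) {z : ℝ} (hz : 0 < z) (hzx : ∀ x : S n, zs n m x = z)
    {g : S n → ℂ} (hg : Integrable g (sg n)) :
    ∫ x, ‖Tc m M c g x‖ ^ 2 ∂(sg n) ≤ ∑ p : Ix n M, ‖c p.1‖ ^ 2 * nl m M z g p := by
  have h1 : ∀ x, ‖Tc m M c g x‖ ^ 2 ≤ z⁻¹ * ∑ a : Ix n m,
      ‖∑ p : Ix n M, (c p.1 * lm m M g a p) * (ee n M p x : ℂ)‖ ^ 2 := by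
    intro x
    rw [Tc_eq m M c hg x, hzx, norm_mul, Complex.norm_real, Real.norm_eq_abs,
      abs_of_pos (inv_pos.2 hz), mul_pow]
    have e1 : ∀ a : Ix n m, ∑ p : Ix n M, (c p.1 * (ee n M p x : ℂ)) * lm m M g a p =
        ∑ p : Ix n M, (c p.1 * lm m M g a p) * (ee n M p x : ℂ) := by
      intro a
      exact Finset.sum_congr rfl fun p _ => by ring
    simp only [e1]
    have e2 : ‖∑ a : Ix n m, (ee n m a x : ℂ) *
        ∑ p : Ix n M, (c p.1 * lm m M g a p) * (ee n M p x : ℂ)‖ ^ 2 ≤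
        (∑ a : Ix n m, ee n m a x ^ 2) * ∑ a : Ix n m,
          ‖∑ p : Ix n M, (c p.1 * lm m M g a p) * (ee n M p x : ℂ)‖ ^ 2 := by
      refine (pow_le_pow_left₀ (norm_nonneg _) (norm_sum_le _ _) 2).trans ?_
      have e3 : ∀ a : Ix n m, ‖(ee n m a x : ℂ) *
          ∑ p : Ix n M, (c p.1 * lm m M g a p) * (ee n M p x : ℂ)‖ = |ee n m a x| *
          ‖∑ p : Ix n M, (c p.1 * lm m M g a p) * (ee n M p x : ℂ)‖ := by
        intro a
        rw [norm_mul, Complex.norm_real, Real.norm_eq_abs]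
      simp only [e3]
      refine (Finset.sum_mul_sq_le_sq_mul_sq _ _ _).trans ?_
      simp only [sq_abs]
      exact le_rfl
    rw [sum_sq_ee, hzx] at e2
    calc z⁻¹ ^ 2 * _ ≤ z⁻¹ ^ 2 * (z * ∑ a : Ix n m,
          ‖∑ p : Ix n M, (c p.1 * lm m M g a p) * (ee n M p x : ℂ)‖ ^ 2) :=
          mul_le_mul_of_nonneg_left e2 (by positivity)
      _ = _ := by field_simp
  have hc : ∀ a : Ix n m, Continuous fun x : S n =>
      ‖∑ p : Ix n M, (c p.1 * lm m M g a p) * (ee n M p x : ℂ)‖ ^ 2 := by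
    intro a
    fun_prop
  have hint : ∀ a : Ix n m, Integrable (fun x : S n =>
      ‖∑ p : Ix n M, (c p.1 * lm m M g a p) * (ee n M p x : ℂ)‖ ^ 2) (sg n) :=
    fun a => int_c ⟨_, hc a⟩
  calc ∫ x, ‖Tc m M c g x‖ ^ 2 ∂(sg n) ≤ ∫ x, z⁻¹ * ∑ a : Ix n m,
      ‖∑ p : Ix n M, (c p.1 * lm m M g a p) * (ee n M p x : ℂ)‖ ^ 2 ∂(sg n) := by
        refine integral_mono (int_c ⟨_, ((Tc_cont m M c hzx hg).norm.pow 2)⟩)
          ((integrable_finsetSum _ fun a _ => hint a).const_mul _) h1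
    _ = z⁻¹ * ∑ a : Ix n m, ∑ p : Ix n M, ‖c p.1 * lm m M g a p‖ ^ 2 := by
        rw [integral_const_mul, integral_finsetSum _ fun a _ => hint a]
        congr 1
        exact Finset.sum_congr rfl fun a _ => comb_sq M _
    _ = _ := by
        unfold nl
        rw [Finset.sum_comm, Finset.mul_sum]
        refine Finset.sum_congr rfl fun p _ => ?_
        simp only [norm_mul, mul_pow]
        rw [← Finset.mul_sum]
        ring

end Pool.Agent.N303.SH
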