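import Pool.Agent.N303.SH.K1
import Pool.Agent.N303.SH.H2

set_option autoImplicit false

/-! Interpolation between the `L²` and the `L^∞` bound. -/

open MeasureTheory Metric Set Filter Topology
open scoped ENNReal RealInnerProductSpace Pointwise

namespace Pool.Agent.N303.SH

variable {n : ℕ}

/-- the large part of `g` -/
noncomputable def gs (g : S n → ℂ) (s : ℝ) : S n → ℂ := {y | s < ‖g y‖}.indicator g

lemma gs_meas {g : S n → ℂ} (hg : Measurable g) (s : ℝ) : Measurable (gs g s) :=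
  hg.indicator (measurableSet_lt measurable_const hg.norm)

lemma gs_le (g : S n → ℂ) (s : ℝ) (y : S n) : ‖gs g s y‖ ≤ ‖g y‖ := by
  unfold gs
  by_cases h : y ∈ {y | s < ‖g y‖}
  · rw [indicator_of_mem h]
  · rw [indicator_of_notMem h, norm_zero]; exact norm_nonneg _

lemma sub_gs_le (g : S n → ℂ) {s : ℝ} (hs : 0 ≤ s) (y : S n) : ‖g y - gs g s y‖ ≤ s := by
  unfold gs
  by_cases h : y ∈ {y | s < ‖g y‖}
  · rw [indicator_of_mem h, sub_self, norm_zero]; exact hs
  · rw [indicator_of_notMem h, sub_zero]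
    exact not_lt.1 h

lemma gs_memLp {g : S n → ℂ} (hg : Measurable g) {p : ℝ≥0∞} (hp : MemLp g p (sg n)) (s : ℝ) :
    MemLp (gs g s) p (sg n) :=
  hp.mono (gs_meas hg s).aestronglyMeasurable (Eventually.of_forall fun y => gs_le g s y)

/-- the masses of the large parts -/
noncomputable def nu (m M : ℕ) (z q : ℝ) (g : S n → ℂ) (p : Ix n M) : ℝ≥0∞ :=
  ∫⁻ s in Ioi 0, ENNReal.ofReal (s ^ (q - 3) * nl m M z (gs g s) p)

lemma gs_prod {g : S n → ℂ} (hg : Measurable g) : Measurable fun p : ℝ × S n => gs g p.1 p.2 := by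
  have : (fun p : ℝ × S n => gs g p.1 p.2) =
      {p : ℝ × S n | p.1 < ‖g p.2‖}.indicator (fun p => g p.2) := by
    funext p
    unfold gs
    by_cases h : p.1 < ‖g p.2‖
    · rw [indicator_of_mem (show p.2 ∈ {y | p.1 < ‖g y‖} from h),
        indicator_of_mem (show p ∈ {p : ℝ × S n | p.1 < ‖g p.2‖} from h)]
    · rw [indicator_of_notMem (show p.2 ∉ {y | p.1 < ‖g y‖} from h),
        indicator_of_notMem (show p ∉ {p : ℝ × S n | p.1 < ‖g p.2‖} from h)]
  rw [this]
  exact (hg.comp measurable_snd).indicator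
    (measurableSet_lt measurable_fst (hg.comp measurable_snd).norm)

lemma nl_meas (m M : ℕ) (z : ℝ) {g : S n → ℂ} (hg : Measurable g) (p : Ix n M) :
    Measurable fun s => nl m M z (gs g s) p := by
  unfold nl lm
  have h1 : ∀ a : Ix n m, Measurable fun s => ∫ y, (ee n M p y : ℂ) * ((ee n m a y : ℂ) * gs g s y) ∂(sg n) := by
    intro a
    have h2 : Measurable fun q : ℝ × S n => (ee n M p q.2 : ℂ) * ((ee n m a q.2 : ℂ) * gs g q.1 q.2) := by
      have e1 : Measurable fun q : ℝ × S n => (ee n M p q.2 : ℂ) :=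
        ((Complex.continuous_ofReal.comp (ee n M p).continuous).measurable).comp measurable_snd
      have e2 : Measurable fun q : ℝ × S n => (ee n m a q.2 : ℂ) :=
        ((Complex.continuous_ofReal.comp (ee n m a).continuous).measurable).comp measurable_snd
      exact e1.mul (e2.mul (gs_prod hg))
    exact (h2.stronglyMeasurable.integral_prod_right').measurable
  exact (Finset.measurable_sum _ fun a _ => ((h1 a).norm.pow_const 2)).const_mul _

lemma nu_sum (m M : ℕ) {z q : ℝ} (hz : 0 < z) (hzx : ∀ x : S n, zs n m x = z) (hq : 2 < q)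
    {g : S n → ℂ} (hg : Measurable g) (hg2 : MemLp g 2 (sg n)) :
    ∑ p : Ix n M, nu m M z q g p ≤ ENNReal.ofReal (1 / (q - 2)) * ∫⁻ y, ‖g y‖ₑ ^ q ∂(sg n) := by
  have hm : ∀ p : Ix n M, Measurable fun s : ℝ => ENNReal.ofReal (s ^ (q - 3) * nl m M z (gs g s) p) := by
    intro p
    exact ((measurable_id.pow_const _).mul (nl_meas m M z hg p)).ennreal_ofReal
  unfold nu
  rw [← lintegral_finsetSum _ fun p _ => hm p]
  have h1 : ∀ s ∈ Ioi (0:ℝ), ∑ p : Ix n M, ENNReal.ofReal (s ^ (q - 3) * nl m M z (gs g s) p) ≤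
      ∫⁻ y, ENNReal.ofReal (s ^ (q - 3)) * ‖gs g s y‖ₑ ^ 2 ∂(sg n) := by
    intro s hs
    have hs0 : (0:ℝ) ≤ s ^ (q - 3) := Real.rpow_nonneg (le_of_lt hs) _
    rw [← ENNReal.ofReal_sum_of_nonneg fun p _ => mul_nonneg hs0 (nl_nonneg m M hz _ p),
      ← Finset.mul_sum, ENNReal.ofReal_mul hs0, lintegral_const_mul _ ((gs_meas hg s).enorm.pow_const 2)]
    gcongr
    have h2 := nl_sum m M hz hzx (gs_memLp hg hg2 s)
    refine (ENNReal.ofReal_le_ofReal h2).trans (le_of_eq ?_)
    rw [ofReal_integral_eq_lintegral_ofReal ((gs_memLp hg hg2 s).integrable_norm_pow two_ne_zero)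
      (Eventually.of_forall fun y => by positivity)]
    refine lintegral_congr fun y => ?_
    rw [ENNReal.ofReal_pow (norm_nonneg _), ofReal_norm]
  refine (setLIntegral_mono' measurableSet_Ioi h1).trans ?_
  rw [lintegral_lintegral_swap]
  · rw [← lintegral_const_mul _ (hg.enorm.pow_const q)]
    refine lintegral_mono fun y => ?_
    have h3 : ∀ s ∈ Ioi (0:ℝ), ENNReal.ofReal (s ^ (q - 3)) * ‖gs g s y‖ₑ ^ 2 ≤
        (Ioc 0 ‖g y‖).indicator (fun s => ENNReal.ofReal (s ^ (q - 3))) s * ‖g y‖ₑ ^ 2 := by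
      intro s hs
      unfold gs
      by_cases h : y ∈ {y | s < ‖g y‖}
      · rw [indicator_of_mem h, indicator_of_mem (show s ∈ Ioc 0 ‖g y‖ from ⟨hs, le_of_lt h⟩)]
      · rw [indicator_of_notMem h]
        simp
    refine (setLIntegral_mono' measurableSet_Ioi h3).trans ?_
    rw [lintegral_mul_const _ (by
      exact Measurable.indicator (by fun_prop) measurableSet_Ioc)]
    have h4 : ∫⁻ s in Ioi (0:ℝ), (Ioc 0 ‖g y‖).indicator (fun s => ENNReal.ofReal (s ^ (q - 3))) s ≤
        ENNReal.ofReal (‖g y‖ ^ (q - 2) / (q - 2)) := by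
      refine (setLIntegral_le_lintegral _ _).trans ?_
      rw [lintegral_indicator measurableSet_Ioc, L_Ioc (by linarith) (norm_nonneg _),
        show q - 3 + 1 = q - 2 by ring]
    refine (mul_le_mul_left h4 _).trans (le_of_eq ?_)
    rw [← ofReal_norm, ← ENNReal.ofReal_pow (norm_nonneg _), ← ENNReal.ofReal_mul (by
      have : 0 < q - 2 := by linarith
      positivity), ENNReal.ofReal_rpow_of_nonneg (norm_nonneg _) (by linarith),
      ← ENNReal.ofReal_mul (by
        have : 0 < q - 2 := by linarith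
        positivity)]
    congr 1
    rcases (norm_nonneg (g y)).eq_or_lt with h | h
    · rw [← h, Real.zero_rpow (by linarith), Real.zero_rpow (by linarith)]; simp
    · have e : ‖g y‖ ^ q = ‖g y‖ ^ (q - 2) * ‖g y‖ ^ 2 := by
        rw [← Real.rpow_natCast ‖g y‖ 2, ← Real.rpow_add h]
        congr 1; push_cast; ring
      rw [e]
      ring
  · apply Measurable.aemeasurable
    have e1 : Measurable fun p : ℝ × S n => ENNReal.ofReal (p.1 ^ (q - 3)) :=
      (measurable_fst.pow_const _).ennreal_ofReal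
    exact e1.mul ((gs_prod hg).enorm.pow_const 2)

/-- the square of the `L^∞` bound -/
noncomputable def A2 (M : ℕ) (z : ℝ) (ζ : ℕ → ℝ) (c : ℕ → ℂ) : ℝ :=
  z⁻¹ * ∑ l ∈ Finset.range (M + 1), ‖c l‖ ^ 2 * ζ l

lemma Tc_sup (m M : ℕ) (c : ℕ → ℂ) {z : ℝ} (hz : 0 < z) (hzx : ∀ x : S n, zs n m x = z)
    {ζ : ℕ → ℝ} (hζ : ∀ l (x : S n), ze n l x = ζ l) {g : S n → ℂ} {B : ℝ} (hB : 0 ≤ B)
    (hgB : ∀ y, ‖g y‖ ≤ B) (x : S n) : ‖Tc m M c g x‖ ≤ B * Real.sqrt (A2 M z ζ c) := by
  have h1 := Kr_norm m M c x (by rw [hzx]; exact hz)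
  have hKc : Continuous (fun y => Kr m M c x y) := by
    unfold Kr
    fun_prop
  have hKi : Integrable (fun y => ‖Kr m M c x y‖) (sg n) := int_c ⟨_, hKc.norm⟩
  have h2 : ‖Tc m M c g x‖ ≤ B * ∫ y, ‖Kr m M c x y‖ ∂(sg n) := by
    unfold Tc
    calc ‖∫ y, Kr m M c x y * g y ∂(sg n)‖ ≤ ∫ y, B * ‖Kr m M c x y‖ ∂(sg n) := by
          refine norm_integral_le_of_norm_le (hKi.const_mul B) (Eventually.of_forall fun y => ?_)
          rw [norm_mul, mul_comm]
          exact mul_le_mul_of_nonneg_right (hgB y) (norm_nonneg _)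
      _ = _ := integral_const_mul _ _
  refine h2.trans (mul_le_mul_of_nonneg_left ?_ hB)
  apply Real.le_sqrt_of_sq_le
  refine h1.trans (le_of_eq ?_)
  unfold A2
  rw [hzx]
  congr 1
  exact Finset.sum_congr rfl fun l _ => by rw [hζ]

lemma Tc_zero (m M : ℕ) (c : ℕ → ℂ) {z : ℝ} (hz : 0 < z) (hzx : ∀ x : S n, zs n m x = z)
    {ζ : ℕ → ℝ} (hζ : ∀ l (x : S n), ze n l x = ζ l) (h0 : A2 M z ζ c = 0) (g : S n → ℂ) (x : S n) :
    Tc m M c g x = 0 := by
  have h1 := Kr_norm m M c x (by rw [hzx]; exact hz)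
  have hKc : Continuous (fun y => Kr m M c x y) := by
    unfold Kr
    fun_prop
  have hKi : Integrable (fun y => ‖Kr m M c x y‖) (sg n) := int_c ⟨_, hKc.norm⟩
  have h2 : (zs n m x)⁻¹ * ∑ l ∈ Finset.range (M + 1), ‖c l‖ ^ 2 * ze n l x = 0 := by
    rw [← h0]
    unfold A2
    rw [hzx]
    congr 1
    exact Finset.sum_congr rfl fun l _ => by rw [hζ]
  rw [h2] at h1
  have h3 : ∫ y, ‖Kr m M c x y‖ ∂(sg n) = 0 := by
    have := pow_eq_zero_iff (two_ne_zero) |>.1 (le_antisymm h1 (sq_nonneg _))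
    exact this
  rw [integral_eq_zero_iff_of_nonneg (fun y => norm_nonneg _) hKi] at h3
  unfold Tc
  rw [integral_eq_zero_of_ae]
  filter_upwards [h3] with y hy
  have : Kr m M c x y = 0 := norm_eq_zero.1 hy
  rw [this]
  simp

lemma Tc_sub (m M : ℕ) (c : ℕ → ℂ) {f g : S n → ℂ} (hf : Integrable f (sg n))
    (hg : Integrable g (sg n)) (x : S n) :
    Tc m M c f x - Tc m M c g x = Tc m M c (fun y => f y - g y) x := by
  have hKc : Continuous (fun y => Kr m M c x y) := by
    unfold Kr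
    fun_prop
  obtain ⟨C, hC⟩ := isCompact_univ.exists_bound_of_continuousOn hKc.continuousOn
  have hi : ∀ {f : S n → ℂ}, Integrable f (sg n) → Integrable (fun y => Kr m M c x y * f y) (sg n) := by
    intro f hf
    exact hf.bdd_mul (c := C) hKc.aestronglyMeasurable (Eventually.of_forall fun y => hC y (mem_univ y))
  unfold Tc
  rw [← integral_sub (hi hf) (hi hg)]
  congr 1
  ext y
  ring

/-- interpolation -/
theorem Q1 (m M : ℕ) (c : ℕ → ℂ) {z q : ℝ} (hz : 0 < z) (hzx : ∀ x : S n, zs n m x = z)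
    {ζ : ℕ → ℝ} (hζ : ∀ l (x : S n), ze n l x = ζ l) (hζ0 : ∀ l, 0 ≤ ζ l) (hq : 2 < q)
    {g : S n → ℂ} (hg : Measurable g) (hg2 : MemLp g 2 (sg n)) :
    ∫⁻ x, ‖Tc m M c g x‖ₑ ^ q ∂(sg n) ≤ ENNReal.ofReal (2 ^ q * q) *
      ∑ p : Ix n M, ENNReal.ofReal (A2 M z ζ c ^ ((q - 2) / 2) * ‖c p.1‖ ^ 2) * nu m M z q g p := by
  have hq0 : 0 < q := by linarith
  have hgi : Integrable g (sg n) := hg2.integrable (by norm_num)
  have hA0 : 0 ≤ A2 M z ζ c := by
    unfold A2
    have : 0 ≤ ∑ l ∈ Finset.range (M + 1), ‖c l‖ ^ 2 * ζ l :=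
      Finset.sum_nonneg fun l _ => mul_nonneg (sq_nonneg _) (hζ0 l)
    positivity
  rcases hA0.eq_or_lt with h0 | h0
  · have h1 : ∀ x, Tc m M c g x = 0 := fun x => Tc_zero m M c hz hzx hζ h0.symm g x
    simp [h1, hq0]
  · set A := Real.sqrt (A2 M z ζ c) with hA
    have hApos : 0 < A := Real.sqrt_pos.2 h0
    have hTc := Tc_cont m M c hzx hgi
    have key := lintegral_rpow_eq_lintegral_meas_lt_mul (sg n) (f := fun x => ‖Tc m M c g x‖ / (2 * A))
      (Eventually.of_forall fun x => by positivity) (hTc.norm.div_const _).measurable.aemeasurable hq0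
    have h1 : ∫⁻ x, ‖Tc m M c g x‖ₑ ^ q ∂(sg n) = ENNReal.ofReal ((2 * A) ^ q) *
        ∫⁻ x, ENNReal.ofReal ((‖Tc m M c g x‖ / (2 * A)) ^ q) ∂(sg n) := by
      rw [← lintegral_const_mul _ (by
        have := (hTc.norm.div_const (2 * A)).measurable
        exact (this.pow_const q).ennreal_ofReal)]
      refine lintegral_congr fun x => ?_
      rw [← ofReal_norm, ENNReal.ofReal_rpow_of_nonneg (norm_nonneg _) hq0.le,
        ← ENNReal.ofReal_mul (by positivity)]
      congr 1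
      rw [← Real.mul_rpow (by positivity) (by positivity)]
      congr 1
      field_simp
    have h2 : ∀ t ∈ Ioi (0:ℝ), (sg n) {x | t < ‖Tc m M c g x‖ / (2 * A)} * ENNReal.ofReal (t ^ (q - 1)) ≤
        ∑ p : Ix n M, ENNReal.ofReal (A ^ (-2 : ℝ) * ‖c p.1‖ ^ 2) *
          ENNReal.ofReal (t ^ (q - 3) * nl m M z (gs g t) p) := by
      intro t ht
      have ht0 : 0 < t := ht
      have hgsi : Integrable (gs g t) (sg n) := (gs_memLp hg hg2 t).integrable (by norm_num)
      have hTs := Tc_cont m M c hzx hgsi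
      have h3 : {x | t < ‖Tc m M c g x‖ / (2 * A)} ⊆ {x | (A * t) ^ 2 ≤ ‖Tc m M c (gs g t) x‖ ^ 2} := by
        intro x hx
        simp only [mem_ofPred_eq] at hx ⊢
        rw [lt_div_iff₀ (by positivity)] at hx
        have h4 := Tc_sub m M c hgi hgsi x
        have h5 := Tc_sup m M c hz hzx hζ ht0.le (fun y => sub_gs_le g ht0.le y) x
        rw [← h4] at h5
        have h6 := norm_sub_norm_le (Tc m M c g x) (Tc m M c (gs g t) x)
        apply pow_le_pow_left₀ (by positivity)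
        nlinarith
      have h7 := mul_meas_ge_le_integral_of_nonneg (μ := sg n) (f := fun x => ‖Tc m M c (gs g t) x‖ ^ 2)
        (Eventually.of_forall fun x => by positivity) (int_c ⟨_, hTs.norm.pow 2⟩) ((A * t) ^ 2)
      have h8 := h7.trans (Tc_two m M c hz hzx hgsi)
      have h9 : (sg n) {x | t < ‖Tc m M c g x‖ / (2 * A)} ≤
          ENNReal.ofReal (((A * t) ^ 2)⁻¹ * ∑ p : Ix n M, ‖c p.1‖ ^ 2 * nl m M z (gs g t) p) := by
        refine (measure_mono h3).trans ?_
        rw [← ENNReal.ofReal_toReal (measure_ne_top (sg n) {x | (A * t) ^ 2 ≤ ‖Tc m M c (gs g t) x‖ ^ 2})]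
        apply ENNReal.ofReal_le_ofReal
        rw [← div_eq_inv_mul, le_div_iff₀ (by positivity), mul_comm]
        exact h8
      refine (mul_le_mul_left h9 _).trans ?_
      have hn0 : ∀ p : Ix n M, 0 ≤ nl m M z (gs g t) p := fun p => nl_nonneg m M hz _ p
      have ht3 : 0 ≤ t ^ (q - 3) := Real.rpow_nonneg ht0.le _
      have hA2 : 0 ≤ A ^ (-2 : ℝ) := Real.rpow_nonneg hApos.le _
      rw [← ENNReal.ofReal_mul (by
        have : 0 ≤ ∑ p : Ix n M, ‖c p.1‖ ^ 2 * nl m M z (gs g t) p :=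
          Finset.sum_nonneg fun p _ => mul_nonneg (sq_nonneg _) (hn0 p)
        positivity)]
      have e1 : ∀ p : Ix n M, ENNReal.ofReal (A ^ (-2 : ℝ) * ‖c p.1‖ ^ 2) *
          ENNReal.ofReal (t ^ (q - 3) * nl m M z (gs g t) p) = ENNReal.ofReal
            ((A ^ (-2 : ℝ) * ‖c p.1‖ ^ 2) * (t ^ (q - 3) * nl m M z (gs g t) p)) := by
        intro p
        rw [← ENNReal.ofReal_mul (by positivity : 0 ≤ A ^ (-2 : ℝ) * ‖c p.1‖ ^ 2)]
      simp only [e1]
      rw [← ENNReal.ofReal_sum_of_nonneg fun p _ => by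
        have := hn0 p
        positivity]
      apply ENNReal.ofReal_le_ofReal
      apply le_of_eq
      rw [mul_assoc, Finset.sum_mul, Finset.mul_sum]
      refine Finset.sum_congr rfl fun p _ => ?_
      have e2 : t ^ (q - 1) = t ^ (q - 3) * t ^ 2 := by
        rw [← Real.rpow_natCast t 2, ← Real.rpow_add ht0]
        congr 1; push_cast; ring
      have e3 : A ^ (-2 : ℝ) = (A ^ 2)⁻¹ := by
        rw [Real.rpow_neg hApos.le, ← Real.rpow_natCast A 2]
        norm_num
      rw [e2, e3, mul_pow]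
      field_simp
    rw [h1, key]
    have h10 : ∫⁻ t in Ioi (0:ℝ), (sg n) {x | t < ‖Tc m M c g x‖ / (2 * A)} * ENNReal.ofReal (t ^ (q - 1)) ≤
        ∑ p : Ix n M, ENNReal.ofReal (A ^ (-2 : ℝ) * ‖c p.1‖ ^ 2) * nu m M z q g p := by
      refine (setLIntegral_mono' measurableSet_Ioi h2).trans ?_
      rw [lintegral_finsetSum]
      · refine Finset.sum_le_sum fun p _ => ?_
        unfold nu
        rw [lintegral_const_mul]
        exact ((measurable_id.pow_const _).mul (nl_meas m M z hg p)).ennreal_ofReal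
      · intro p _
        exact ((measurable_id.pow_const _).mul (nl_meas m M z hg p)).ennreal_ofReal.const_mul _
    calc ENNReal.ofReal ((2 * A) ^ q) * (ENNReal.ofReal q * ∫⁻ t in Ioi (0:ℝ),
          (sg n) {x | t < ‖Tc m M c g x‖ / (2 * A)} * ENNReal.ofReal (t ^ (q - 1)))
        ≤ ENNReal.ofReal ((2 * A) ^ q) * (ENNReal.ofReal q *
          ∑ p : Ix n M, ENNReal.ofReal (A ^ (-2 : ℝ) * ‖c p.1‖ ^ 2) * nu m M z q g p) := by
          gcongr
      _ = _ := by
          rw [← mul_assoc, ← ENNReal.ofReal_mul (by positivity), Finset.mul_sum, Finset.mul_sum]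
          refine Finset.sum_congr rfl fun p _ => ?_
          rw [← mul_assoc, ← mul_assoc, ← ENNReal.ofReal_mul (by positivity),
            ← ENNReal.ofReal_mul (by positivity)]
          congr 2
          have e4 : A2 M z ζ c ^ ((q - 2) / 2) = A ^ (q - 2) := by
            rw [hA, Real.sqrt_eq_rpow, ← Real.rpow_mul h0.le]
            congr 1; ring
          have e5 : A ^ q * A ^ (-2 : ℝ) = A ^ (q - 2) := by
            rw [← Real.rpow_add hApos]; congr 1
          rw [e4, ← e5, Real.mul_rpow (by norm_num) hApos.le]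
          ring

end Pool.Agent.N303.SH
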