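import Pool.Agent.N303.SH.K2
import Pool.Agent.N303.SH.H4

set_option autoImplicit false

/-! The estimate for one block. -/

open MeasureTheory Metric Set Filter Topology Measure
open scoped ENNReal RealInnerProductSpace Pointwise

namespace Pool.Agent.N303.SH

/-- Polar coordinates. -/
lemma polar {n : ℕ} (hn : 0 < n) (f : E n → ℝ≥0∞) (hf : Measurable f) :
    ∫⁻ x, f x = ∫⁻ w : S n, (∫⁻ r in Ioi (0 : ℝ), ENNReal.ofReal (r ^ (n - 1)) * f (r • (w : E n)))
      ∂(sg n) := by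
  haveI : Nonempty (Fin n) := ⟨⟨0, hn⟩⟩
  haveI : Nontrivial (E n) := inferInstance
  have hfr : Module.finrank ℝ (E n) = n := by simp
  have h0 := (volume : Measure (E n)).measurePreserving_homeomorphUnitSphereProd
  rw [hfr] at h0
  calc ∫⁻ x, f x = ∫⁻ x in ({0}ᶜ : Set (E n)), f x := by
        rw [restrict_compl_singleton]
    _ = ∫⁻ x : ({(0 : E n)}ᶜ : Set (E n)), f x ∂((volume : Measure (E n)).comap (↑)) := by
        rw [lintegral_subtype_comap (measurableSet_singleton _).compl]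
    _ = ∫⁻ p, f ((p.2 : ℝ) • (p.1 : E n))
          ∂((volume : Measure (E n)).toSphere.prod (volumeIoiPow (n - 1))) := by
        rw [← h0.lintegral_comp_emb (Homeomorph.measurableEmbedding _)]
        apply lintegral_congr
        intro x
        congr 1
        have hx : ‖(x : E n)‖ ≠ 0 := norm_ne_zero_iff.2 x.2
        simp [smul_smul, hx]
    _ = ∫⁻ w, ∫⁻ r, f ((r : ℝ) • (w : E n)) ∂(volumeIoiPow (n - 1))
          ∂((volume : Measure (E n)).toSphere) := by
        rw [lintegral_prod]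
        apply Measurable.aemeasurable
        exact hf.comp ((measurable_subtype_coe.comp measurable_snd).smul
          (measurable_subtype_coe.comp measurable_fst))
    _ = ∫⁻ w, (∫⁻ r in Ioi (0 : ℝ), ENNReal.ofReal (r ^ (n - 1)) * f (r • (w : E n)))
          ∂((volume : Measure (E n)).toSphere) := by
        apply lintegral_congr
        intro w
        rw [volumeIoiPow, lintegral_withDensity_eq_lintegral_mul]
        · simp only [Pi.mul_apply]
          rw [lintegral_subtype_comap measurableSet_Ioi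
            (fun r : ℝ => ENNReal.ofReal (r ^ (n - 1)) * f (r • (w : E n)))]
        · exact (measurable_subtype_coe.pow_const _).ennreal_ofReal
        · exact hf.comp (measurable_subtype_coe.smul measurable_const)

/-- the Fourier transform of `g dσ` -/
noncomputable def ft {n : ℕ} (g : S n → ℂ) (ξ : E n) : ℂ :=
  ∫ x, Complex.exp (-(2 * Real.pi * ⟪(x : E n), ξ⟫ : ℝ) * Complex.I) * g x ∂(sg n)

lemma ft_cont {n : ℕ} {g : S n → ℂ} (hg : Integrable g (sg n)) : Continuous (ft g) := by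
  unfold ft
  apply continuous_of_dominated (bound := fun x => ‖g x‖)
  · intro ξ
    have : Continuous fun x : S n => Complex.exp (-(2 * Real.pi * ⟪(x : E n), ξ⟫ : ℝ) * Complex.I) := by
      fun_prop
    exact this.aestronglyMeasurable.mul hg.1
  · intro ξ
    refine Eventually.of_forall fun x => ?_
    rw [norm_mul, ← Complex.ofReal_neg, Complex.norm_exp_ofReal_mul_I, one_mul]
  · exact hg.norm
  · refine Eventually.of_forall fun x => ?_
    fun_prop

variable {c : ℕ}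

/-- the scalars -/
noncomputable def Ic (c k : ℕ) (r : ℝ) : ℂ := Ik (e0 c) (e1 c) k r

lemma Ic_cont (c k : ℕ) : Continuous (Ic c k) := by
  have h1 : Continuous (Fk (e0 c) (e1 c) k) :=
    continuous_iff_continuousAt.2 fun t => (Fk_deriv c k t).continuousAt
  have h2 : Ic c k = fun r => Fk (e0 c) (e1 c) k (2 * Real.pi * r) := by
    funext r
    exact Ik_eq _ _ k r
  rw [h2]
  fun_prop

lemma cp_cont {n : ℕ} (k : ℕ) (g : S n → ℂ) : Continuous (cp k g) := by
  unfold cp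
  fun_prop

lemma ft_cp (k : ℕ) (g : S (c + 2) → ℂ) (r : ℝ) (w : S (c + 2)) :
    ft (cp k g) (r • (w : E (c + 2))) = Ic c k r * cp k g w := by
  unfold ft
  have h1 : ∀ x : S (c + 2), Complex.exp (-(2 * Real.pi * ⟪(x : E (c + 2)), r • (w : E (c + 2))⟫ : ℝ) * Complex.I) *
      cp k g x = ∑ i, (∫ y, (e (c + 2) k i y : ℂ) * g y ∂(sg (c + 2))) *
        (Complex.exp (-(2 * Real.pi * ⟪(x : E (c + 2)), r • (w : E (c + 2))⟫ : ℝ) * Complex.I) *
          (e (c + 2) k i x : ℂ)) := by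
    intro x
    unfold cp
    rw [Finset.mul_sum]
    exact Finset.sum_congr rfl fun i _ => by ring
  simp only [h1]
  rw [integral_finsetSum]
  · unfold cp Ic
    rw [Finset.mul_sum]
    refine Finset.sum_congr rfl fun i _ => ?_
    rw [integral_const_mul, FHc (on_e c) k (e_mem k i) r w]
    ring
  · intro i _
    apply Integrable.const_mul
    apply int_cc
    fun_prop

/-- the sum of the components with degrees in `J` -/
noncomputable def blk {n : ℕ} (J : Finset ℕ) (g : S n → ℂ) (x : S n) : ℂ := ∑ k ∈ J, cp k g x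

lemma ft_blk (J : Finset ℕ) (g : S (c + 2) → ℂ) (ξ : E (c + 2)) :
    ft (blk J g) ξ = ∑ k ∈ J, ft (cp k g) ξ := by
  unfold ft blk
  rw [← integral_finsetSum]
  · congr 1
    ext x
    rw [Finset.mul_sum]
  · intro k _
    apply int_cc
    have := cp_cont k g
    fun_prop

/-- coefficients of the kernel -/
noncomputable def ck (J : Finset ℕ) (m : ℕ) (γ : ℕ → ℂ) (l : ℕ) : ℂ :=
  ∑ k ∈ J, if l ≤ k + m ∧ k ≤ l + m then γ k else 0

lemma ck_of {J : Finset ℕ} {m : ℕ} (hsep : ∀ k ∈ J, ∀ k' ∈ J, k ≠ k' → k + 2 * m < k' ∨ k' + 2 * m < k)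
    (γ : ℕ → ℂ) {k l : ℕ} (hk : k ∈ J) (h1 : l ≤ k + m) (h2 : k ≤ l + m) : ck J m γ l = γ k := by
  unfold ck
  rw [Finset.sum_eq_single k]
  · rw [if_pos ⟨h1, h2⟩]
  · intro k' hk' hne
    rw [if_neg]
    intro h
    rcases hsep k hk k' hk' (Ne.symm hne) with h3 | h3 <;> omega
  · intro h; exact absurd hk h

lemma ck_norm {J : Finset ℕ} {m : ℕ} (hsep : ∀ k ∈ J, ∀ k' ∈ J, k ≠ k' → k + 2 * m < k' ∨ k' + 2 * m < k)
    (γ : ℕ → ℂ) (l : ℕ) : ck J m γ l = 0 ∨ ∃ k ∈ J, ck J m γ l = γ k := by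
  by_cases h : ∃ k ∈ J, l ≤ k + m ∧ k ≤ l + m
  · obtain ⟨k, hk, h1, h2⟩ := h
    exact Or.inr ⟨k, hk, ck_of hsep γ hk h1 h2⟩
  · left
    unfold ck
    refine Finset.sum_eq_zero fun k hk => ?_
    rw [if_neg]
    intro h3
    exact h ⟨k, hk, h3⟩

/-- the transform of a block as a multiplier -/
lemma ft_blk_Tc {K : Set ℕ} {J : Finset ℕ} {m M : ℕ} (hJK : ∀ k ∈ J, k ∈ K)
    (hsep : ∀ k ∈ K, ∀ k' ∈ J, k ≠ k' → k + 2 * m < k' ∨ k' + 2 * m < k)
    (hM : ∀ k ∈ J, k + m ≤ M) {g : S (c + 2) → ℂ} (hgi : Integrable g (sg (c + 2)))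
    (hg : Deg K g) (r : ℝ) (w : S (c + 2)) (hz : zs (c + 2) m w ≠ 0) :
    ft (blk J g) (r • (w : E (c + 2))) = Tc m M (ck J m fun k => Ic c k r) g w := by
  have hsepJ : ∀ k ∈ J, ∀ k' ∈ J, k ≠ k' → k + 2 * m < k' ∨ k' + 2 * m < k :=
    fun k hk k' hk' h => hsep k (hJK k hk) k' hk' h
  rw [ft_blk]
  unfold Tc
  rw [Kr_int hgi hg m M (ck J m fun k => Ic c k r) (fun k => if k ∈ J then Ic c k r else 0) ?_ ?_ w hz]
  · have hsub : J ⊆ Finset.range (m + M + 1) := by
      intro k hk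
      have := hM k hk
      rw [Finset.mem_range]
      omega
    rw [← Finset.sum_subset hsub]
    · refine Finset.sum_congr rfl fun k hk => ?_
      rw [ft_cp, if_pos hk]
    · intro k _ hk
      rw [if_neg hk, zero_mul]
  · intro k hk l h1 h2
    by_cases hkJ : k ∈ J
    · rw [if_pos hkJ]
      exact ck_of hsepJ _ hkJ h1 h2
    · rw [if_neg hkJ]
      unfold ck
      refine Finset.sum_eq_zero fun k' hk' => ?_
      rw [if_neg]
      intro h3
      rcases hsep k hk k' hk' (fun h => hkJ (h ▸ hk')) with h4 | h4 <;> omega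
  · intro l hl
    unfold ck
    refine Finset.sum_eq_zero fun k' hk' => ?_
    rw [if_neg]
    intro h3
    have := hM k' hk'
    omega

/-- Jensen -/
lemma jensen {s : Finset ℕ} {ζ a : ℕ → ℝ} (hζ : ∀ l, 0 ≤ ζ l) (ha : ∀ l, 0 ≤ a l) {Z p : ℝ}
    (hZ : ∑ l ∈ s, ζ l = Z) (hZ0 : 0 < Z) (hp : 1 ≤ p) :
    (Z⁻¹ * ∑ l ∈ s, a l * ζ l) ^ p ≤ Z⁻¹ * ∑ l ∈ s, a l ^ p * ζ l := by
  have h := Real.rpow_arith_mean_le_arith_mean_rpow s (fun l => ζ l / Z) a
    (fun l _ => div_nonneg (hζ l) hZ0.le) (by rw [← Finset.sum_div, hZ, div_self hZ0.ne'])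
    (fun l _ => ha l) hp
  have e1 : ∑ l ∈ s, ζ l / Z * a l = Z⁻¹ * ∑ l ∈ s, a l * ζ l := by
    rw [Finset.mul_sum]
    exact Finset.sum_congr rfl fun l _ => by rw [div_eq_mul_inv]; ring
  have e2 : ∑ l ∈ s, ζ l / Z * a l ^ p = Z⁻¹ * ∑ l ∈ s, a l ^ p * ζ l := by
    rw [Finset.mul_sum]
    exact Finset.sum_congr rfl fun l _ => by rw [div_eq_mul_inv]; ring
  rw [e1, e2] at h
  exact h

lemma pow_max {X Y p : ℝ} (hX : 0 ≤ X) (hY : 0 ≤ Y) (hp : 1 < p) :
    X ^ (p - 1) * Y ≤ X ^ p + Y ^ p := by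
  have h1 : ∀ a : ℝ, 0 ≤ a → a ^ (p - 1) * a = a ^ p := by
    intro a ha
    rcases ha.eq_or_lt with h | h
    · rw [← h, mul_zero, Real.zero_rpow (by linarith)]
    · rw [← Real.rpow_add_one h.ne']; congr 1; ring
  have hXp := Real.rpow_nonneg hX p
  have hYp := Real.rpow_nonneg hY p
  rcases le_total X Y with h | h
  · calc X ^ (p - 1) * Y ≤ Y ^ (p - 1) * Y :=
          mul_le_mul_of_nonneg_right (Real.rpow_le_rpow hX h (by linarith)) hY
      _ = Y ^ p := h1 Y hY
      _ ≤ _ := by linarith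
  · calc X ^ (p - 1) * Y ≤ X ^ (p - 1) * X :=
          mul_le_mul_of_nonneg_left h (Real.rpow_nonneg hX _)
      _ = X ^ p := h1 X hX
      _ ≤ _ := by linarith

end Pool.Agent.N303.SH
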