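import Pool.Agent.N303.SH.K3

set_option autoImplicit false

/-! The estimate for one block. -/

open MeasureTheory Metric Set Filter Topology Measure
open scoped ENNReal RealInnerProductSpace Pointwise

namespace Pool.Agent.N303.SH

variable {c : ℕ}

lemma ck_cont (J : Finset ℕ) (m l : ℕ) : Continuous fun r => ck J m (fun k => Ic c k r) l := by
  unfold ck
  refine continuous_finsetSum _ fun k _ => ?_
  by_cases h : l ≤ k + m ∧ k ≤ l + m
  · simp only [if_pos h]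
    exact Ic_cont c k
  · simp only [if_neg h]
    exact continuous_const

lemma ck_int {J : Finset ℕ} {m : ℕ} (hsep : ∀ k ∈ J, ∀ k' ∈ J, k ≠ k' → k + 2 * m < k' ∨ k' + 2 * m < k)
    {q b : ℝ} (hq : 0 < q) (hbk : ∀ k ∈ J, ∫⁻ r in Ioi 0, ENNReal.ofReal (‖Ic c k r‖ ^ q * r ^ (c + 1)) ≤ ENNReal.ofReal b)
    (l : ℕ) : ∫⁻ r in Ioi 0, ENNReal.ofReal (‖ck J m (fun k => Ic c k r) l‖ ^ q * r ^ (c + 1)) ≤
      ENNReal.ofReal b := by
  by_cases h : ∃ k ∈ J, l ≤ k + m ∧ k ≤ l + m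
  · obtain ⟨k, hk, h1, h2⟩ := h
    have e : ∀ r, ck J m (fun k => Ic c k r) l = Ic c k r := fun r => ck_of hsep _ hk h1 h2
    simp only [e]
    exact hbk k hk
  · have e : ∀ r, ck J m (fun k => Ic c k r) l = 0 := by
      intro r
      unfold ck
      refine Finset.sum_eq_zero fun k hk => ?_
      rw [if_neg]
      intro h3
      exact h ⟨k, hk, h3⟩
    simp only [e, norm_zero, Real.zero_rpow hq.ne', zero_mul, ENNReal.ofReal_zero]
    simp

lemma coef_bd {q z Z : ℝ} (hq : 2 < q) (hz : 0 < z) (hZ0 : 0 < Z) {ζ : ℕ → ℝ} (hζ0 : ∀ l, 0 ≤ ζ l)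
    {M : ℕ} (hZ : ∑ l ∈ Finset.range (M + 1), ζ l = Z) (d : ℕ → ℂ) (p : ℕ) :
    A2 M z ζ d ^ ((q - 2) / 2) * ‖d p‖ ^ 2 ≤ (Z / z) ^ ((q - 2) / 2) *
      (Z⁻¹ * ∑ l ∈ Finset.range (M + 1), ‖d l‖ ^ q * ζ l + ‖d p‖ ^ q) := by
  set X : ℝ := Z⁻¹ * ∑ l ∈ Finset.range (M + 1), ‖d l‖ ^ 2 * ζ l with hX
  have hX0 : 0 ≤ X := by
    have : 0 ≤ ∑ l ∈ Finset.range (M + 1), ‖d l‖ ^ 2 * ζ l :=
      Finset.sum_nonneg fun l _ => mul_nonneg (sq_nonneg _) (hζ0 l)
    positivity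
  have e1 : A2 M z ζ d = (Z / z) * X := by
    unfold A2
    rw [hX]
    field_simp
  have hsq : ∀ l, (‖d l‖ ^ 2) ^ (q / 2) = ‖d l‖ ^ q := by
    intro l
    rw [← Real.rpow_natCast ‖d l‖ 2, ← Real.rpow_mul (norm_nonneg _)]
    congr 1; push_cast; ring
  have h1 := pow_max hX0 (sq_nonneg ‖d p‖) (p := q / 2) (by linarith)
  have h2 := jensen (s := Finset.range (M + 1)) hζ0 (a := fun l => ‖d l‖ ^ 2) (fun l => sq_nonneg _) hZ hZ0
    (p := q / 2) (by linarith)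
  simp only [hsq] at h1 h2
  rw [e1, Real.mul_rpow (by positivity) hX0, mul_assoc]
  apply mul_le_mul_of_nonneg_left _ (by positivity)
  rw [show (q - 2) / 2 = q / 2 - 1 by ring]
  exact h1.trans (add_le_add h2 le_rfl)

theorem block {K : Set ℕ} {J : Finset ℕ} {m M : ℕ} (hJK : ∀ k ∈ J, k ∈ K)
    (hsep : ∀ k ∈ K, ∀ k' ∈ J, k ≠ k' → k + 2 * m < k' ∨ k' + 2 * m < k)
    (hM : ∀ k ∈ J, k + m ≤ M) {q b z Z : ℝ} (hq : 2 < q) (hb : 0 ≤ b)
    (hbk : ∀ k ∈ J, ∫⁻ r in Ioi 0, ENNReal.ofReal (‖Ic c k r‖ ^ q * r ^ (c + 1)) ≤ ENNReal.ofReal b)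
    (hz : 0 < z) (hzx : ∀ x : S (c + 2), zs (c + 2) m x = z)
    (hZ0 : 0 < Z) (hZx : ∀ x : S (c + 2), zs (c + 2) M x = Z)
    {g : S (c + 2) → ℂ} (hgm : Measurable g) (hg2 : MemLp g 2 (sg (c + 2))) (hg : Deg K g) :
    ∫⁻ ξ, ‖ft (blk J g) ξ‖ₑ ^ q ≤
      ENNReal.ofReal (2 ^ q * q * ((Z / z) ^ ((q - 2) / 2) * (2 * b)) * (1 / (q - 2))) *
        ∫⁻ y, ‖g y‖ₑ ^ q ∂(sg (c + 2)) := by
  have hgi : Integrable g (sg (c + 2)) := hg2.integrable (by norm_num)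
  have hq0 : 0 < q := by linarith
  have hsepJ : ∀ k ∈ J, ∀ k' ∈ J, k ≠ k' → k + 2 * m < k' ∨ k' + 2 * m < k :=
    fun k hk k' hk' h => hsep k (hJK k hk) k' hk' h
  obtain ⟨x0⟩ : Nonempty (S (c + 2)) := ⟨⟨e0 c, by simpa using (on_e c).hu⟩⟩
  set ζ : ℕ → ℝ := fun l => ze (c + 2) l x0 with hζd
  have hζ : ∀ l (x : S (c + 2)), ze (c + 2) l x = ζ l := fun l x => ze_const l x x0
  have hζ0 : ∀ l, 0 ≤ ζ l := fun l => ze_nonneg l x0
  have hZ : ∑ l ∈ Finset.range (M + 1), ζ l = Z := hZx x0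
  have hbc : Continuous (blk J g) := by
    unfold blk
    exact continuous_finsetSum _ fun k _ => cp_cont k g
  have hftc : Continuous (ft (blk J g)) := ft_cont (int_cc hbc)
  have hft : Measurable fun ξ : E (c + 2) => ‖ft (blk J g) ξ‖ₑ ^ q :=
    hftc.measurable.enorm.pow_const q
  rw [polar (by omega) _ hft, lintegral_lintegral_swap]
  swap
  · apply Measurable.aemeasurable
    have e1 : Measurable fun p : S (c + 2) × ℝ => ENNReal.ofReal (p.2 ^ (c + 2 - 1)) :=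
      (measurable_snd.pow_const _).ennreal_ofReal
    have e2 : Measurable fun p : S (c + 2) × ℝ => ‖ft (blk J g) (p.2 • (p.1 : E (c + 2)))‖ₑ ^ q :=
      hft.comp (measurable_snd.smul (measurable_subtype_coe.comp measurable_fst))
    exact e1.mul e2
  set B : Ix (c + 2) M → ℝ≥0∞ := fun p => nu m M z q g p with hB
  set D : ℝ → ℕ → ℂ := fun r => ck J m fun k => Ic c k r with hD
  have h1 : ∀ r ∈ Ioi (0:ℝ), ∫⁻ w : S (c + 2), ENNReal.ofReal (r ^ (c + 2 - 1)) *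
      ‖ft (blk J g) (r • (w : E (c + 2)))‖ₑ ^ q ∂(sg (c + 2)) ≤
      ∑ p : Ix (c + 2) M, (ENNReal.ofReal (2 ^ q * q) * ENNReal.ofReal ((Z / z) ^ ((q - 2) / 2)) * B p) *
        ENNReal.ofReal ((Z⁻¹ * ∑ l ∈ Finset.range (M + 1), ‖D r l‖ ^ q * ζ l + ‖D r p.1‖ ^ q) * r ^ (c + 1)) := by
    intro r hr
    have hr0 : 0 < r := hr
    have e1 : ∀ w : S (c + 2), ft (blk J g) (r • (w : E (c + 2))) = Tc m M (D r) g w := by
      intro w
      exact ft_blk_Tc hJK hsep hM hgi hg r w (by rw [hzx]; exact hz.ne')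
    simp only [e1]
    have hTc := Tc_cont m M (D r) hzx hgi
    rw [lintegral_const_mul _ (hTc.measurable.enorm.pow_const q)]
    have h2 := Q1 m M (D r) hz hzx hζ hζ0 hq hgm hg2
    calc ENNReal.ofReal (r ^ (c + 2 - 1)) * ∫⁻ w, ‖Tc m M (D r) g w‖ₑ ^ q ∂(sg (c + 2)) ≤
        ENNReal.ofReal (r ^ (c + 1)) * (ENNReal.ofReal (2 ^ q * q) * ∑ p : Ix (c + 2) M,
          ENNReal.ofReal (A2 M z ζ (D r) ^ ((q - 2) / 2) * ‖D r p.1‖ ^ 2) * nu m M z q g p) := by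
          have e5 : c + 2 - 1 = c + 1 := rfl
          rw [e5]
          exact mul_le_mul' le_rfl h2
      _ ≤ ENNReal.ofReal (r ^ (c + 1)) * (ENNReal.ofReal (2 ^ q * q) * ∑ p : Ix (c + 2) M,
          ENNReal.ofReal ((Z / z) ^ ((q - 2) / 2) *
            (Z⁻¹ * ∑ l ∈ Finset.range (M + 1), ‖D r l‖ ^ q * ζ l + ‖D r p.1‖ ^ q)) * B p) := by
          refine mul_le_mul' le_rfl (mul_le_mul' le_rfl (Finset.sum_le_sum fun p _ => ?_))
          refine mul_le_mul' (ENNReal.ofReal_le_ofReal ?_) le_rfl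
          exact coef_bd hq hz hZ0 hζ0 hZ (D r) p.1
      _ = _ := by
          rw [Finset.mul_sum, Finset.mul_sum]
          refine Finset.sum_congr rfl fun p _ => ?_
          have hnn : 0 ≤ Z⁻¹ * ∑ l ∈ Finset.range (M + 1), ‖D r l‖ ^ q * ζ l + ‖D r p.1‖ ^ q := by
            have : 0 ≤ ∑ l ∈ Finset.range (M + 1), ‖D r l‖ ^ q * ζ l :=
              Finset.sum_nonneg fun l _ => mul_nonneg (by positivity) (hζ0 l)
            positivity
          rw [ENNReal.ofReal_mul (p := (Z / z) ^ ((q - 2) / 2)) (by positivity),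
            ENNReal.ofReal_mul (q := r ^ (c + 1)) hnn]
          ring
  refine (setLIntegral_mono' measurableSet_Ioi h1).trans ?_
  have hDc : ∀ l, Continuous fun r => D r l := fun l => ck_cont J m l
  have hmeas : ∀ p : Ix (c + 2) M, Measurable fun r : ℝ => ENNReal.ofReal ((Z⁻¹ *
      ∑ l ∈ Finset.range (M + 1), ‖D r l‖ ^ q * ζ l + ‖D r p.1‖ ^ q) * r ^ (c + 1)) := by
    intro p
    have a1 : ∀ l, Measurable fun r => ‖D r l‖ ^ q := fun l => (hDc l).norm.measurable.pow_const q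
    apply Measurable.ennreal_ofReal
    apply Measurable.mul _ (measurable_id.pow_const _)
    exact ((Finset.measurable_sum _ fun l _ => (a1 l).mul_const _).const_mul _).add (a1 _)
  rw [lintegral_finsetSum _ fun p _ => (hmeas p).const_mul _]
  have h3 : ∀ p : Ix (c + 2) M, ∫⁻ r in Ioi 0, ENNReal.ofReal ((Z⁻¹ *
      ∑ l ∈ Finset.range (M + 1), ‖D r l‖ ^ q * ζ l + ‖D r p.1‖ ^ q) * r ^ (c + 1)) ≤
      ENNReal.ofReal (2 * b) := by
    intro p
    have a0 : ∀ l, Measurable fun r : ℝ => ENNReal.ofReal (‖D r l‖ ^ q * r ^ (c + 1)) := by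
      intro l
      exact (((hDc l).norm.measurable.pow_const q).mul (measurable_id.pow_const _)).ennreal_ofReal
    have a1 : ∀ r ∈ Ioi (0:ℝ), ENNReal.ofReal ((Z⁻¹ *
      ∑ l ∈ Finset.range (M + 1), ‖D r l‖ ^ q * ζ l + ‖D r p.1‖ ^ q) * r ^ (c + 1)) =
      (∑ l ∈ Finset.range (M + 1), ENNReal.ofReal (Z⁻¹ * ζ l) * ENNReal.ofReal (‖D r l‖ ^ q * r ^ (c + 1))) +
        ENNReal.ofReal (‖D r p.1‖ ^ q * r ^ (c + 1)) := by
      intro r hr
      have hr0 : (0:ℝ) ≤ r := le_of_lt hr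
      have e1 : ∀ l, ENNReal.ofReal (Z⁻¹ * ζ l) * ENNReal.ofReal (‖D r l‖ ^ q * r ^ (c + 1)) =
          ENNReal.ofReal (Z⁻¹ * ζ l * (‖D r l‖ ^ q * r ^ (c + 1))) := by
        intro l
        rw [← ENNReal.ofReal_mul (mul_nonneg (by positivity) (hζ0 l))]
      simp only [e1]
      have e2 : ∀ l, 0 ≤ Z⁻¹ * ζ l * (‖D r l‖ ^ q * r ^ (c + 1)) := by
        intro l
        have := hζ0 l
        positivity
      rw [← ENNReal.ofReal_sum_of_nonneg fun l _ => e2 l, ← ENNReal.ofReal_add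
        (Finset.sum_nonneg fun l _ => e2 l) (by positivity)]
      congr 1
      rw [add_mul, Finset.mul_sum, Finset.sum_mul]
      congr 1
      exact Finset.sum_congr rfl fun l _ => by ring
    rw [setLIntegral_congr_fun measurableSet_Ioi a1,
      lintegral_add_left (Finset.measurable_sum _ fun l _ => (a0 l).const_mul _),
      lintegral_finsetSum _ fun l _ => (a0 l).const_mul _]
    have a2 : ∑ l ∈ Finset.range (M + 1), ∫⁻ r in Ioi 0, ENNReal.ofReal (Z⁻¹ * ζ l) *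
        ENNReal.ofReal (‖D r l‖ ^ q * r ^ (c + 1)) ≤ ENNReal.ofReal b := by
      calc ∑ l ∈ Finset.range (M + 1), ∫⁻ r in Ioi 0, ENNReal.ofReal (Z⁻¹ * ζ l) *
          ENNReal.ofReal (‖D r l‖ ^ q * r ^ (c + 1)) ≤
          ∑ l ∈ Finset.range (M + 1), ENNReal.ofReal (Z⁻¹ * ζ l) * ENNReal.ofReal b := by
            refine Finset.sum_le_sum fun l _ => ?_
            rw [lintegral_const_mul _ (a0 l)]
            gcongr
            exact ck_int hsepJ hq0 hbk l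
        _ = ENNReal.ofReal b := by
            rw [← Finset.sum_mul, ← ENNReal.ofReal_sum_of_nonneg fun l _ =>
              mul_nonneg (by positivity) (hζ0 l), ← Finset.mul_sum, hZ, inv_mul_cancel₀ hZ0.ne',
              ENNReal.ofReal_one, one_mul]
    rw [two_mul, ENNReal.ofReal_add hb hb]
    exact add_le_add a2 (ck_int hsepJ hq0 hbk p.1)
  calc ∑ p : Ix (c + 2) M, ∫⁻ r in Ioi 0, (ENNReal.ofReal (2 ^ q * q) *
        ENNReal.ofReal ((Z / z) ^ ((q - 2) / 2)) * B p) *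
        ENNReal.ofReal ((Z⁻¹ * ∑ l ∈ Finset.range (M + 1), ‖D r l‖ ^ q * ζ l + ‖D r p.1‖ ^ q) * r ^ (c + 1))
      ≤ ∑ p : Ix (c + 2) M, (ENNReal.ofReal (2 ^ q * q) *
        ENNReal.ofReal ((Z / z) ^ ((q - 2) / 2)) * B p) * ENNReal.ofReal (2 * b) := by
        refine Finset.sum_le_sum fun p _ => ?_
        rw [lintegral_const_mul _ (hmeas p)]
        gcongr
        exact h3 p
    _ = (ENNReal.ofReal (2 ^ q * q) * ENNReal.ofReal ((Z / z) ^ ((q - 2) / 2)) *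
          ENNReal.ofReal (2 * b)) * ∑ p : Ix (c + 2) M, B p := by
        rw [Finset.mul_sum]
        exact Finset.sum_congr rfl fun p _ => by ring
    _ ≤ (ENNReal.ofReal (2 ^ q * q) * ENNReal.ofReal ((Z / z) ^ ((q - 2) / 2)) *
          ENNReal.ofReal (2 * b)) * (ENNReal.ofReal (1 / (q - 2)) * ∫⁻ y, ‖g y‖ₑ ^ q ∂(sg (c + 2))) := by
        gcongr
        exact nu_sum m M hz hzx hq hgm hg2
    _ = _ := by
        rw [← mul_assoc, ← ENNReal.ofReal_mul (by positivity), ← ENNReal.ofReal_mul (by positivity),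
          ← ENNReal.ofReal_mul (by positivity)]
        congr 2
        ring

end Pool.Agent.N303.SH
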