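import Pool.Agent.N303.SH.K4

set_option autoImplicit false

/-! Dyadic blocks. -/

open MeasureTheory Metric Set Filter Topology Measure
open scoped ENNReal RealInnerProductSpace Pointwise

namespace Pool.Agent.N303.SH

variable {c : ℕ}

lemma Fk_cont (c k : ℕ) : Continuous (Fk (e0 c) (e1 c) k) :=
  continuous_iff_continuousAt.2 fun t => (Fk_deriv c k t).continuousAt

lemma Ic_int {q : ℝ} (hq : 0 < q) (k : ℕ) :
    ∫⁻ r in Ioi 0, ENNReal.ofReal (‖Ic c k r‖ ^ q * r ^ (c + 1)) ≤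
      ∫⁻ t in Ioi 0, ENNReal.ofReal (|be c k t| ^ q * t ^ (c + 1)) := by
  set F : ℝ → ℝ≥0∞ := fun t => ENNReal.ofReal (‖Fk (e0 c) (e1 c) k t‖ ^ q * t ^ (c + 1)) with hF
  have hFm : Measurable F :=
    (((Fk_cont c k).norm.measurable.pow_const q).mul (measurable_id.pow_const _)).ennreal_ofReal
  have hpi : (0:ℝ) < 2 * Real.pi := by positivity
  have hpi1 : (1:ℝ) ≤ 2 * Real.pi := by linarith [Real.pi_gt_three]
  have e1 : ∫⁻ t in Ioi 0, ENNReal.ofReal (|be c k t| ^ q * t ^ (c + 1)) = ∫⁻ t in Ioi 0, F t := by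
    refine setLIntegral_congr_fun measurableSet_Ioi fun t ht => ?_
    rw [hF]
    simp only
    rw [norm_Fk c k ht]
  rw [e1, ← lintegral_indicator measurableSet_Ioi, ← lintegral_indicator measurableSet_Ioi]
  have e2 : ∀ r : ℝ, (Ioi (0:ℝ)).indicator (fun r => ENNReal.ofReal (‖Ic c k r‖ ^ q * r ^ (c + 1))) r ≤
      (Ioi (0:ℝ)).indicator F (2 * Real.pi * r) := by
    intro r
    by_cases hr : r ∈ Ioi (0:ℝ)
    · have hr0 : 0 < r := hr
      rw [indicator_of_mem hr, indicator_of_mem (mem_Ioi.2 (by positivity))]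
      rw [hF]
      simp only
      unfold Ic
      rw [Ik_eq]
      apply ENNReal.ofReal_le_ofReal
      apply mul_le_mul_of_nonneg_left _ (by positivity)
      exact pow_le_pow_left₀ hr0.le (by nlinarith) _
    · rw [indicator_of_notMem hr]
      exact zero_le
  refine (lintegral_mono e2).trans ?_
  have hm : Measurable ((Ioi (0:ℝ)).indicator F) := hFm.indicator measurableSet_Ioi
  have e3 := lintegral_map hm (measurable_const_mul (2 * Real.pi)) (μ := (volume : Measure ℝ))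
  rw [Real.map_volume_mul_left hpi.ne', lintegral_smul_measure] at e3
  rw [← e3, smul_eq_mul]
  have h4 : ENNReal.ofReal |(2 * Real.pi)⁻¹| ≤ 1 := by
    rw [abs_of_pos (by positivity), ← ENNReal.ofReal_one]
    apply ENNReal.ofReal_le_ofReal
    exact inv_le_one_of_one_le₀ hpi1
  calc _ ≤ 1 * ∫⁻ a, (Ioi (0:ℝ)).indicator F a := mul_le_mul' h4 le_rfl
    _ = _ := one_mul _

theorem Ic_bd (hc : 1 ≤ c) {q : ℝ} (hq2 : 2 < q) (hq4 : q < 4) (hγ : 1 < sc c * (q - 2)) :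
    ∃ C : ℝ, 0 ≤ C ∧ ∀ k : ℕ, ∫⁻ r in Ioi 0, ENNReal.ofReal (‖Ic c k r‖ ^ q * r ^ (c + 1)) ≤
      ENNReal.ofReal (C * ((k : ℝ) + 1) ^ (1 - sc c * (q - 2))) := by
  obtain ⟨C, hC0, hC⟩ := bess hc hq2 hq4 hγ
  exact ⟨C, hC0, fun k => (Ic_int (by linarith) k).trans (hC k)⟩

end Pool.Agent.N303.SH
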