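import Pool.Agent.N303.SH.K3

set_option autoImplicit false

/-! Convergence of the expansions in harmonics after the Fourier transform. -/

open MeasureTheory Metric Set Filter Topology Measure
open scoped ENNReal RealInnerProductSpace Pointwise

namespace Pool.Agent.N303.SH

variable {n : ℕ}

lemma poly_near (F : C(S n, ℝ)) {ε : ℝ} (hε : 0 < ε) : ∃ N, ∃ p ∈ P n N, ‖F - p‖ < ε := by
  have hsep : (vC (n := n)).range.SeparatesPoints := by
    intro x y hxy
    have h1 : ∃ i, (x : E n) i ≠ (y : E n) i := by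
      by_contra h
      push Not at h
      apply hxy
      apply Subtype.ext
      ext i
      exact h i
    obtain ⟨i, hi⟩ := h1
    refine ⟨xc i, ⟨xc i, ?_, rfl⟩, hi⟩
    exact ⟨MvPolynomial.X i, by simp [vC]⟩
  obtain ⟨⟨g, p, hp⟩, hg⟩ :=
    ContinuousMap.exists_mem_subalgebra_near_continuousMap_of_separatesPoints _ hsep F ε hε
  refine ⟨p.totalDegree, vC p, mem_P.2 ⟨p, le_rfl, rfl⟩, ?_⟩
  rw [norm_sub_rev]
  have : (vC p : C(S n, ℝ)) = g := hp
  rw [this]
  exact hg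

/-- partial sums -/
noncomputable def AN (N : ℕ) (g : S n → ℂ) (F : C(S n, ℝ)) : ℂ :=
  ∑ k ∈ Finset.range (N + 1), ∑ i, (ip (e n k i) F : ℂ) * ∫ y, (e n k i y : ℂ) * g y ∂(sg n)

lemma AN_sub (N : ℕ) (g : S n → ℂ) (F G : C(S n, ℝ)) : AN N g (F - G) = AN N g F - AN N g G := by
  unfold AN
  rw [← Finset.sum_sub_distrib]
  refine Finset.sum_congr rfl fun k _ => ?_
  rw [← Finset.sum_sub_distrib]
  refine Finset.sum_congr rfl fun i _ => ?_
  rw [ip_sub]
  push_cast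
  ring

lemma ip_self_le (F : C(S n, ℝ)) : ip F F ≤ ‖F‖ ^ 2 * (sg n).real univ := by
  unfold ip
  calc ∫ x, F x * F x ∂(sg n) ≤ ∫ _, ‖F‖ ^ 2 ∂(sg n) := by
        apply integral_mono (int_mul F F) (integrable_const _)
        intro x
        simp only
        have h1 := F.norm_coe_le_norm x
        rw [Real.norm_eq_abs] at h1
        rw [← sq, ← sq_abs]
        exact pow_le_pow_left₀ (abs_nonneg _) h1 2
    _ = _ := by
        rw [integral_const, smul_eq_mul, mul_comm]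

lemma AN_le (N : ℕ) {g : S n → ℂ} (hg : MemLp g 2 (sg n)) (F : C(S n, ℝ)) :
    ‖AN N g F‖ ≤ ‖F‖ * (Real.sqrt ((sg n).real univ) * Real.sqrt (∫ y, ‖g y‖ ^ 2 ∂(sg n))) := by
  have h1 : AN N g F = ∑ p : Ix n N, (ip (ee n N p) F : ℂ) * ∫ y, (ee n N p y : ℂ) * g y ∂(sg n) := by
    unfold AN
    rw [← sum_Ix N fun k i => (ip (e n k i) F : ℂ) * ∫ y, (e n k i y : ℂ) * g y ∂(sg n)]
    rfl
  have hF2 : MemLp (fun x => F x) 2 (sg n) := by
    refine MemLp.of_bound F.continuous.aestronglyMeasurable ‖F‖ ?_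
    exact Eventually.of_forall fun y => F.norm_coe_le_norm y
  have h2 := bessel_r N hF2
  have h3 := bessel N hg
  have h4 : ∑ p : Ix n N, |ip (ee n N p) F| ^ 2 ≤ ip F F := by
    simp only [sq_abs]
    refine h2.trans (le_of_eq ?_)
    unfold ip
    congr 1
    ext x
    ring
  rw [h1]
  calc ‖∑ p : Ix n N, (ip (ee n N p) F : ℂ) * ∫ y, (ee n N p y : ℂ) * g y ∂(sg n)‖
      ≤ ∑ p : Ix n N, |ip (ee n N p) F| * ‖∫ y, (ee n N p y : ℂ) * g y ∂(sg n)‖ := by
        refine (norm_sum_le _ _).trans (le_of_eq ?_)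
        refine Finset.sum_congr rfl fun p _ => ?_
        rw [norm_mul, Complex.norm_real, Real.norm_eq_abs]
    _ ≤ Real.sqrt (∑ p : Ix n N, |ip (ee n N p) F| ^ 2) *
        Real.sqrt (∑ p : Ix n N, ‖∫ y, (ee n N p y : ℂ) * g y ∂(sg n)‖ ^ 2) :=
        Real.sum_mul_le_sqrt_mul_sqrt _ _ _
    _ ≤ Real.sqrt (‖F‖ ^ 2 * (sg n).real univ) * Real.sqrt (∫ y, ‖g y‖ ^ 2 ∂(sg n)) := by
        gcongr
        exact h4.trans (ip_self_le F)
    _ = _ := by
        rw [Real.sqrt_mul (sq_nonneg _), Real.sqrt_sq (norm_nonneg _)]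
        ring

lemma AN_tendsto {g : S n → ℂ} (hg : MemLp g 2 (sg n)) (F : C(S n, ℝ)) :
    Tendsto (fun N => AN N g F) atTop (𝓝 (∫ y, (F y : ℂ) * g y ∂(sg n))) := by
  have hgi : Integrable g (sg n) := hg.integrable (by norm_num)
  set B : ℝ := Real.sqrt ((sg n).real univ) * Real.sqrt (∫ y, ‖g y‖ ^ 2 ∂(sg n)) with hB
  set D : ℝ := ∫ y, ‖g y‖ ∂(sg n) with hD
  have hD0 : 0 ≤ D := integral_nonneg fun y => norm_nonneg _
  have hB0 : 0 ≤ B := by positivity
  rw [Metric.tendsto_atTop]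
  intro ε hε
  obtain ⟨N, p, hp, hpn⟩ := poly_near F (ε := ε / (D + B + 1)) (by positivity)
  refine ⟨N, fun M hM => ?_⟩
  have h1 : AN M g p = ∫ y, (p y : ℂ) * g y ∂(sg n) := (int_exp hgi M (P_mono hM hp)).symm
  have h2 : AN M g F - ∫ y, (F y : ℂ) * g y ∂(sg n) =
      AN M g (F - p) - ∫ y, ((F - p : C(S n, ℝ)) y : ℂ) * g y ∂(sg n) := by
    have e1 : ∫ y, ((F - p : C(S n, ℝ)) y : ℂ) * g y ∂(sg n) =
        ∫ y, (F y : ℂ) * g y ∂(sg n) - ∫ y, (p y : ℂ) * g y ∂(sg n) := by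
      rw [← integral_sub (int_cg hgi F) (int_cg hgi p)]
      congr 1
      ext y
      simp only [ContinuousMap.sub_apply]
      push_cast
      ring
    rw [AN_sub, e1, h1]
    ring
  have h3 : ‖∫ y, ((F - p : C(S n, ℝ)) y : ℂ) * g y ∂(sg n)‖ ≤ ‖F - p‖ * D := by
    rw [hD, ← integral_const_mul]
    apply norm_integral_le_of_norm_le (hgi.norm.const_mul _)
    refine Eventually.of_forall fun y => ?_
    rw [norm_mul, Complex.norm_real]
    exact mul_le_mul_of_nonneg_right ((F - p).norm_coe_le_norm y) (norm_nonneg _)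
  rw [dist_eq_norm, h2]
  calc ‖AN M g (F - p) - ∫ y, ((F - p : C(S n, ℝ)) y : ℂ) * g y ∂(sg n)‖ ≤
      ‖AN M g (F - p)‖ + ‖∫ y, ((F - p : C(S n, ℝ)) y : ℂ) * g y ∂(sg n)‖ := norm_sub_le _ _
    _ ≤ ‖F - p‖ * B + ‖F - p‖ * D := add_le_add (AN_le M hg _) h3
    _ = ‖F - p‖ * (D + B) := by ring
    _ ≤ ε / (D + B + 1) * (D + B) := mul_le_mul_of_nonneg_right hpn.le (by positivity)
    _ < ε := by
        rw [div_mul_eq_mul_div, div_lt_iff₀ (by positivity)]
        nlinarith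

/-- the real and imaginary parts of the exponential -/
noncomputable def cosC (ξ : E n) : C(S n, ℝ) := ⟨fun x => Real.cos (2 * Real.pi * ⟪(x : E n), ξ⟫), by fun_prop⟩
noncomputable def sinC (ξ : E n) : C(S n, ℝ) := ⟨fun x => Real.sin (2 * Real.pi * ⟪(x : E n), ξ⟫), by fun_prop⟩

lemma exp_cs (ξ : E n) (x : S n) : Complex.exp (-(2 * Real.pi * ⟪(x : E n), ξ⟫ : ℝ) * Complex.I) =
    (cosC ξ x : ℂ) - Complex.I * (sinC ξ x : ℂ) := by
  rw [← Complex.ofReal_neg, Complex.exp_ofReal_mul_I, Real.cos_neg, Real.sin_neg]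
  unfold cosC sinC
  simp only [ContinuousMap.coe_mk]
  push_cast
  ring

lemma ft_cs {g : S n → ℂ} (hgi : Integrable g (sg n)) (ξ : E n) : ft g ξ =
    ∫ y, (cosC ξ y : ℂ) * g y ∂(sg n) - Complex.I * ∫ y, (sinC ξ y : ℂ) * g y ∂(sg n) := by
  unfold ft
  rw [← integral_const_mul, ← integral_sub (int_cg hgi _) ((int_cg hgi _).const_mul _)]
  congr 1
  ext x
  rw [exp_cs]
  ring

lemma blk_cont (J : Finset ℕ) (g : S n → ℂ) : Continuous (blk J g) := by
  unfold blk
  exact continuous_finsetSum _ fun k _ => cp_cont k g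

lemma int_F_blk (g : S n → ℂ) (N : ℕ) (F : C(S n, ℝ)) :
    ∫ y, (F y : ℂ) * blk (Finset.range (N + 1)) g y ∂(sg n) = AN N g F := by
  have h1 : ∀ y, (F y : ℂ) * blk (Finset.range (N + 1)) g y = ∑ k ∈ Finset.range (N + 1), ∑ i,
      (((e n k i y * F y : ℝ)) : ℂ) * ∫ z, (e n k i z : ℂ) * g z ∂(sg n) := by
    intro y
    unfold blk cp
    rw [Finset.mul_sum]
    refine Finset.sum_congr rfl fun k _ => ?_
    rw [Finset.mul_sum]
    refine Finset.sum_congr rfl fun i _ => ?_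
    push_cast
    ring
  have h2 : ∀ k i, Integrable (fun y => (((e n k i y * F y : ℝ)) : ℂ) *
      ∫ z, (e n k i z : ℂ) * g z ∂(sg n)) (sg n) := by
    intro k i
    apply Integrable.mul_const
    exact (int_mul (e n k i) F).ofReal
  simp only [h1]
  rw [integral_finsetSum _ fun k _ => integrable_finsetSum _ fun i _ => h2 k i]
  unfold AN
  refine Finset.sum_congr rfl fun k _ => ?_
  rw [integral_finsetSum _ fun i _ => h2 k i]
  refine Finset.sum_congr rfl fun i _ => ?_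
  have e3 : ∫ a, ((e n k i a * F a : ℝ) : ℂ) ∂(sg n) = ((∫ a, e n k i a * F a ∂(sg n) : ℝ) : ℂ) :=
    integral_ofReal
  rw [integral_mul_const, e3]
  rfl

lemma ft_blk_AN (g : S n → ℂ) (N : ℕ) (ξ : E n) : ft (blk (Finset.range (N + 1)) g) ξ =
    AN N g (cosC ξ) - Complex.I * AN N g (sinC ξ) := by
  rw [ft_cs (int_cc (blk_cont _ g)), int_F_blk, int_F_blk]

theorem ft_tendsto {g : S n → ℂ} (hg : MemLp g 2 (sg n)) (ξ : E n) :
    Tendsto (fun N => ft (blk (Finset.range N) g) ξ) atTop (𝓝 (ft g ξ)) := by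
  rw [← tendsto_add_atTop_iff_nat 1, ft_cs (hg.integrable (by norm_num))]
  simp only [ft_blk_AN]
  exact (AN_tendsto hg _).sub ((AN_tendsto hg _).const_mul _)

/-- the dyadic blocks -/
noncomputable def dj (K : Set ℕ) (j : ℕ) : Finset ℕ :=
  open Classical in match j with
  | 0 => ({0} : Finset ℕ).filter (· ∈ K)
  | j + 1 => (Finset.Ico (2 ^ j) (2 ^ (j + 1))).filter (· ∈ K)

lemma blk_union {J J' : Finset ℕ} (h : Disjoint J J') (g : S n → ℂ) (x : S n) :
    blk (J ∪ J') g x = blk J g x + blk J' g x := by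
  classical
  unfold blk
  exact Finset.sum_union h

lemma blk_filter {K : Set ℕ} {g : S n → ℂ} (hg : Deg K g) (J : Finset ℕ) (x : S n) :
    open Classical in blk (J.filter (· ∈ K)) g x = blk J g x := by
  classical
  unfold blk
  apply Finset.sum_subset (Finset.filter_subset _ _)
  intro k hk hk2
  apply cp_eq_zero hg
  intro h
  exact hk2 (Finset.mem_filter.2 ⟨hk, h⟩)

lemma blk_dyadic {K : Set ℕ} {g : S n → ℂ} (hg : Deg K g) (N : ℕ) (x : S n) :
    blk (Finset.range (2 ^ N)) g x = ∑ j ∈ Finset.range (N + 1), blk (dj K j) g x := by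
  classical
  induction N with
  | zero =>
    rw [zero_add, Finset.sum_range_one, pow_zero]
    unfold dj
    rw [blk_filter hg]
    rfl
  | succ N ih =>
    rw [Finset.sum_range_succ, ← ih]
    have h1 : Finset.range (2 ^ (N + 1)) = Finset.range (2 ^ N) ∪ Finset.Ico (2 ^ N) (2 ^ (N + 1)) := by
      rw [Finset.range_eq_Ico, Finset.range_eq_Ico, Finset.Ico_union_Ico_eq_Ico (Nat.zero_le _)
        (Nat.pow_le_pow_right (by norm_num) (Nat.le_succ N))]
    rw [h1, blk_union]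
    · congr 1
      unfold dj
      rw [blk_filter hg]
    · rw [Finset.range_eq_Ico]
      exact Finset.Ico_disjoint_Ico_consecutive _ _ _

lemma ft_sum_fun {ι : Type*} (s : Finset ι) (f : ι → S n → ℂ) (hf : ∀ i, Integrable (f i) (sg n)) (ξ : E n) :
    ft (fun x => ∑ i ∈ s, f i x) ξ = ∑ i ∈ s, ft (f i) ξ := by
  unfold ft
  have h1 : ∀ x : S n, Complex.exp (-(2 * Real.pi * ⟪(x : E n), ξ⟫ : ℝ) * Complex.I) * ∑ i ∈ s, f i x =
      ∑ i ∈ s, Complex.exp (-(2 * Real.pi * ⟪(x : E n), ξ⟫ : ℝ) * Complex.I) * f i x := by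
    intro x
    rw [Finset.mul_sum]
  simp only [h1]
  refine integral_finsetSum _ fun i _ => ?_
  refine Integrable.bdd_mul (c := 1) (hf i) ?_ ?_
  · have : Continuous fun x : S n => Complex.exp (-(2 * Real.pi * ⟪(x : E n), ξ⟫ : ℝ) * Complex.I) := by
      fun_prop
    exact this.aestronglyMeasurable
  · refine Eventually.of_forall fun x => ?_
    rw [← Complex.ofReal_neg, Complex.norm_exp_ofReal_mul_I]

theorem ft_le_tsum {K : Set ℕ} {g : S n → ℂ} (hg2 : MemLp g 2 (sg n)) (hg : Deg K g) (ξ : E n) :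
    ‖ft g ξ‖ₑ ≤ ∑' j, ‖ft (blk (dj K j) g) ξ‖ₑ := by
  have h1 : Tendsto (fun N : ℕ => 2 ^ N) atTop atTop := tendsto_pow_atTop_atTop_of_one_lt (by norm_num)
  have h2 := ((ft_tendsto hg2 ξ).comp h1).enorm
  refine le_of_tendsto h2 (Eventually.of_forall fun N => ?_)
  simp only [Function.comp_apply]
  have h3 : blk (Finset.range (2 ^ N)) g = fun x => ∑ j ∈ Finset.range (N + 1), blk (dj K j) g x := by
    funext x
    exact blk_dyadic hg N x
  rw [h3, ft_sum_fun _ _ fun j => int_cc (blk_cont _ g)]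
  exact (enorm_sum_le _ _).trans (ENNReal.sum_le_tsum _)

end Pool.Agent.N303.SH
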