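import Pool.Agent.N303.SH.K5
import Pool.Agent.N303.SH.K6

set_option autoImplicit false

/-! Dyadic blocks. -/

open MeasureTheory Metric Set Filter Topology Measure
open scoped ENNReal RealInnerProductSpace Pointwise

namespace Pool.Agent.N303.SH

variable {c : ℕ}

lemma V_pos (c : ℕ) : 0 < (sg (c + 2)).real univ := by
  obtain ⟨x0⟩ : Nonempty (S (c + 2)) := ⟨⟨e0 c, by simpa using (on_e c).hu⟩⟩
  have h1 := zs_mul (n := c + 2) 0 x0
  have h2 := le_finrank (d := c + 1) (by omega) 0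
  have h3 : (1:ℝ) ≤ Module.finrank ℝ (P (c + 2) 0) := by
    have : 1 ≤ Module.finrank ℝ (P (c + 2) 0) := by simpa using h2
    exact_mod_cast this
  rcases (measureReal_nonneg (μ := sg (c + 2)) (s := univ)).lt_or_eq with h | h
  · exact h
  · rw [← h, mul_zero] at h1
    linarith

lemma zs_pos (m : ℕ) (x : S (c + 2)) : 0 < zs (c + 2) m x := by
  have h1 := zs_mul (n := c + 2) m x
  have h2 := le_finrank (d := c + 1) (by omega) m
  have h3 : (1:ℝ) ≤ Module.finrank ℝ (P (c + 2) m) := by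
    have : 1 ≤ Module.finrank ℝ (P (c + 2) m) := le_trans (Nat.one_le_pow _ _ (Nat.succ_pos _)) h2
    exact_mod_cast this
  have hV := V_pos c
  by_contra h
  push Not at h
  nlinarith

lemma zs_const (m : ℕ) (x y : S (c + 2)) : zs (c + 2) m x = zs (c + 2) m y := by
  unfold zs
  exact Finset.sum_congr rfl fun k _ => ze_const k x y

lemma ratio (m M : ℕ) (x : S (c + 2)) : zs (c + 2) M x / zs (c + 2) m x ≤
    2 * (((c : ℝ) + 1) * ((M : ℝ) + 1) / ((m : ℝ) + 1)) ^ (c + 1) := by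
  have hV := V_pos c
  have h1 : zs (c + 2) M x * (sg (c + 2)).real univ ≤ 2 * ((M : ℝ) + 1) ^ (c + 1) := by
    rw [zs_mul]
    exact_mod_cast finrank_le (c + 1) M
  have h2 : (((m : ℝ) + 1) / ((c : ℝ) + 1)) ^ (c + 1) ≤ zs (c + 2) m x * (sg (c + 2)).real univ := by
    rw [zs_mul]
    have h3 := le_finrank (d := c + 1) (by omega) m
    have h4 : ((((m / (c + 1) + 1 : ℕ) : ℝ)) ^ (c + 1)) ≤ Module.finrank ℝ (P (c + 2) m) := by
      exact_mod_cast h3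
    refine le_trans (pow_le_pow_left₀ (by positivity) ?_ _) h4
    rw [div_le_iff₀ (by positivity)]
    have h5 : m + 1 ≤ (m / (c + 1) + 1) * (c + 1) := by
      have := Nat.lt_div_mul_add (a := m) (b := c + 1) (by omega)
      nlinarith
    exact_mod_cast h5
  have hz := zs_pos m x
  rw [div_le_iff₀ hz]
  have h6 : 2 * (((c : ℝ) + 1) * ((M : ℝ) + 1) / ((m : ℝ) + 1)) ^ (c + 1) *
      (((m : ℝ) + 1) / ((c : ℝ) + 1)) ^ (c + 1) = 2 * ((M : ℝ) + 1) ^ (c + 1) := by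
    rw [mul_assoc, ← mul_pow]
    congr 2
    field_simp
  have h7 : 0 < 2 * (((c : ℝ) + 1) * ((M : ℝ) + 1) / ((m : ℝ) + 1)) ^ (c + 1) := by positivity
  have h8 := mul_le_mul_of_nonneg_left h2 h7.le
  rw [h6] at h8
  have h9 := h1.trans h8
  rw [← mul_assoc] at h9
  exact le_of_mul_le_mul_right h9 hV

lemma ratio2 {δ c0 : ℝ} (hc0 : 0 < c0) {N m : ℕ} (hN : 1 ≤ N)
    (hm : c0 * (N : ℝ) ^ (1 - δ) / 8 ≤ (m : ℝ) + 1) (x : S (c + 2)) :
    zs (c + 2) (3 * N) x / zs (c + 2) m x ≤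
      2 * (32 * ((c : ℝ) + 1) / c0) ^ (c + 1) * ((N : ℝ) ^ δ) ^ (c + 1) := by
  refine (ratio m (3 * N) x).trans ?_
  rw [mul_assoc, ← mul_pow]
  have hN' : (1:ℝ) ≤ N := by exact_mod_cast hN
  apply mul_le_mul_of_nonneg_left _ (by norm_num)
  apply pow_le_pow_left₀ (by positivity)
  have h0 : (0:ℝ) < (N : ℝ) ^ (1 - δ) := by positivity
  calc ((c : ℝ) + 1) * (((3 * N : ℕ) : ℝ) + 1) / ((m : ℝ) + 1) ≤
      ((c : ℝ) + 1) * (4 * N) / (c0 * (N : ℝ) ^ (1 - δ) / 8) := by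
        apply div_le_div₀ (by positivity) _ (by positivity) hm
        apply mul_le_mul_of_nonneg_left _ (by positivity)
        push_cast
        linarith
    _ = 32 * ((c : ℝ) + 1) / c0 * (N : ℝ) ^ δ := by
        have h1 : (N : ℝ) = (N : ℝ) ^ (1 - δ) * (N : ℝ) ^ δ := by
          rw [← Real.rpow_add (by linarith)]
          simp
        have h2 : ((c : ℝ) + 1) * (4 * N) / (c0 * (N : ℝ) ^ (1 - δ) / 8) =
            ((c : ℝ) + 1) * (4 * ((N : ℝ) ^ (1 - δ) * (N : ℝ) ^ δ)) / (c0 * (N : ℝ) ^ (1 - δ) / 8) := by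
          rw [← h1]
        rw [h2]
        field_simp
        ring

/-- the sparseness condition -/
def Sparse (δ c0 : ℝ) (K : Set ℕ) : Prop :=
  ∀ k ∈ K, ∀ k' ∈ K, k < k' → (k : ℝ) + c0 * (k : ℝ) ^ (1 - δ) ≤ k'

lemma sep_dyadic {δ c0 : ℝ} (hc0 : 0 < c0) (hc1 : c0 ≤ 1) (hδ0 : 0 ≤ δ) (hδ1 : δ < 1) {K : Set ℕ}
    (hK : Sparse δ c0 K) {N m : ℕ} (hN : 1 ≤ N) (hm : (m : ℝ) ≤ c0 * (N : ℝ) ^ (1 - δ) / 8) {k k' : ℕ}
    (hk : k ∈ K) (hk' : k' ∈ K) (hlt : k < k') (h : N ≤ k ∨ N ≤ k') : k + 2 * m < k' := by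
  have hN' : (1:ℝ) ≤ N := by exact_mod_cast hN
  have hNd : (N : ℝ) ^ (1 - δ) ≤ N := by
    calc (N : ℝ) ^ (1 - δ) ≤ (N : ℝ) ^ (1:ℝ) := Real.rpow_le_rpow_of_exponent_le hN' (by linarith)
      _ = N := Real.rpow_one _
  have hNp : (0:ℝ) < (N : ℝ) ^ (1 - δ) := by positivity
  rcases Nat.eq_zero_or_pos m with hm0 | hm0
  · rw [hm0]; omega
  have hm1 : (1:ℝ) ≤ m := by exact_mod_cast hm0
  have hgap := hK k hk k' hk' hlt
  have goal : (k : ℝ) + 2 * m < k' := by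
    by_cases hkN : (N : ℝ) / 2 ≤ k
    · have h1 : ((N : ℝ) / 2) ^ (1 - δ) ≤ (k : ℝ) ^ (1 - δ) :=
        Real.rpow_le_rpow (by positivity) hkN (by linarith)
      have h2 : (N : ℝ) ^ (1 - δ) / 2 ≤ ((N : ℝ) / 2) ^ (1 - δ) := by
        rw [Real.div_rpow (by positivity) (by norm_num)]
        apply div_le_div_of_nonneg_left hNp.le (by positivity)
        calc (2:ℝ) ^ (1 - δ) ≤ (2:ℝ) ^ (1:ℝ) := Real.rpow_le_rpow_of_exponent_le (by norm_num) (by linarith)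
          _ = 2 := Real.rpow_one _
      have h3 : c0 * ((N : ℝ) ^ (1 - δ) / 2) ≤ c0 * (k : ℝ) ^ (1 - δ) :=
        mul_le_mul_of_nonneg_left (h2.trans h1) hc0.le
      nlinarith
    · push Not at hkN
      have h4 : (N : ℝ) ≤ k' := by
        rcases h with h | h
        · exact_mod_cast h.trans hlt.le
        · exact_mod_cast h
      have h5 : c0 * (N : ℝ) ^ (1 - δ) ≤ N := by nlinarith
      nlinarith
  exact_mod_cast goal

theorem dyad (hc : 1 ≤ c) {q δ c0 : ℝ} (hq2 : 2 < q) (hq4 : q < 4) (hδ0 : 0 ≤ δ) (hδ1 : δ < 1)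
    (hc0 : 0 < c0) (hc1 : c0 ≤ 1) (hη : 1 < sc c * (q - 2) * (1 - δ)) :
    ∃ C : ℝ, 0 ≤ C ∧ ∀ (K : Set ℕ), Sparse δ c0 K → ∀ g : S (c + 2) → ℂ, Measurable g →
      MemLp g 2 (sg (c + 2)) → Deg K g → ∀ j, ∫⁻ ξ, ‖ft (blk (dj K j) g) ξ‖ₑ ^ q ≤
        ENNReal.ofReal (C * ((2:ℝ) ^ j) ^ (1 - sc c * (q - 2) * (1 - δ))) * ∫⁻ y, ‖g y‖ₑ ^ q ∂(sg (c + 2)) := by
  classical
  have hs1 := sc_ge hc
  set γ := sc c * (q - 2) with hγd
  have hγ0 : 0 < γ := by
    rw [hγd]; nlinarith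
  have hγ1 : 1 < γ := by nlinarith
  obtain ⟨B, hB0, hB⟩ := Ic_bd hc hq2 hq4 hγ1
  obtain ⟨x0⟩ : Nonempty (S (c + 2)) := ⟨⟨e0 c, by simpa using (on_e c).hu⟩⟩
  set R : ℝ := 2 * (32 * ((c : ℝ) + 1) / c0) ^ (c + 1) with hR
  have hR0 : 0 < R := by rw [hR]; positivity
  have hq3 : 0 < q - 2 := by linarith
  set D : ℝ := 2 ^ q * q * (1 * (2 * B)) * (1 / (q - 2)) with hD
  set D2 : ℝ := 2 ^ q * q * (R ^ ((q - 2) / 2) * (2 * B)) * (1 / (q - 2)) * 2 ^ (γ * (1 - δ) - 1) with hD2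
  have hD0 : 0 ≤ D := by rw [hD]; positivity
  have hD20 : 0 ≤ D2 := by rw [hD2]; positivity
  refine ⟨D + D2, by positivity, fun K hK g hgm hg2 hg j => ?_⟩
  cases j with
  | zero =>
    have hJ : ∀ k ∈ dj K 0, k ∈ K ∧ k = 0 := by
      intro k hk
      unfold dj at hk
      simp only [Finset.mem_filter, Finset.mem_singleton] at hk
      exact ⟨hk.2, hk.1⟩
    have h1 := block (c := c) (K := K) (J := dj K 0) (m := 0) (M := 0) (fun k hk => (hJ k hk).1)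
      (fun k _ k' hk' hne => by
        have := (hJ k' hk').2
        omega)
      (fun k hk => by rw [(hJ k hk).2]) hq2 hB0
      (fun k hk => by
        have h2 := hB k
        rw [(hJ k hk).2] at h2 ⊢
        simpa using h2)
      (zs_pos 0 x0) (fun x => zs_const 0 x x0) (zs_pos 0 x0) (fun x => zs_const 0 x x0) hgm hg2 hg
    refine h1.trans ?_
    refine mul_le_mul' (ENNReal.ofReal_le_ofReal ?_) le_rfl
    rw [div_self (zs_pos 0 x0).ne', Real.one_rpow, pow_zero, Real.one_rpow, mul_one]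
    linarith
  | succ j =>
    set N : ℕ := 2 ^ j with hN
    have hN1 : 1 ≤ N := Nat.one_le_pow _ _ (by norm_num)
    have hN1' : (1:ℝ) ≤ N := by exact_mod_cast hN1
    have hN0 : (0:ℝ) < N := by linarith
    set m : ℕ := ⌊c0 * (N : ℝ) ^ (1 - δ) / 8⌋₊ with hm
    have hm1 : (m : ℝ) ≤ c0 * (N : ℝ) ^ (1 - δ) / 8 := Nat.floor_le (by positivity)
    have hm2 : c0 * (N : ℝ) ^ (1 - δ) / 8 ≤ (m : ℝ) + 1 := (Nat.lt_floor_add_one _).le
    have hNd : (N : ℝ) ^ (1 - δ) ≤ N := by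
      calc (N : ℝ) ^ (1 - δ) ≤ (N : ℝ) ^ (1:ℝ) := Real.rpow_le_rpow_of_exponent_le hN1' (by linarith)
        _ = N := Real.rpow_one _
    have hmN : m ≤ N := by
      have : (m : ℝ) ≤ N := by nlinarith
      exact_mod_cast this
    have hJ : ∀ k ∈ dj K (j + 1), k ∈ K ∧ N ≤ k ∧ k < 2 * N := by
      intro k hk
      unfold dj at hk
      simp only [Finset.mem_filter, Finset.mem_Ico] at hk
      refine ⟨hk.2, hk.1.1, ?_⟩
      have := hk.1.2
      rw [pow_succ] at this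
      omega
    have h1 := block (c := c) (K := K) (J := dj K (j + 1)) (m := m) (M := 3 * N) (fun k hk => (hJ k hk).1)
      (fun k hk k' hk' hne => by
        obtain ⟨h3, h4, h5⟩ := hJ k' hk'
        rcases lt_or_gt_of_ne hne with h | h
        · exact Or.inl (sep_dyadic hc0 hc1 hδ0 hδ1 hK hN1 hm1 hk h3 h (Or.inr h4))
        · exact Or.inr (sep_dyadic hc0 hc1 hδ0 hδ1 hK hN1 hm1 h3 hk h (Or.inl h4)))
      (fun k hk => by
        obtain ⟨h3, h4, h5⟩ := hJ k hk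
        omega) hq2 (b := B * (N : ℝ) ^ (1 - γ)) (by positivity)
      (fun k hk => by
        obtain ⟨h3, h4, h5⟩ := hJ k hk
        refine (hB k).trans (ENNReal.ofReal_le_ofReal ?_)
        apply mul_le_mul_of_nonneg_left _ hB0
        apply Real.rpow_le_rpow_of_nonpos hN0 _ (by linarith)
        have : (N : ℝ) ≤ k := by exact_mod_cast h4
        linarith)
      (zs_pos m x0) (fun x => zs_const m x x0) (zs_pos (3 * N) x0) (fun x => zs_const (3 * N) x x0)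
      hgm hg2 hg
    refine h1.trans ?_
    refine mul_le_mul' (ENNReal.ofReal_le_ofReal ?_) le_rfl
    have h6 := ratio2 (c := c) hc0 hN1 hm2 x0
    have h7 : (zs (c + 2) (3 * N) x0 / zs (c + 2) m x0) ^ ((q - 2) / 2) ≤
        R ^ ((q - 2) / 2) * (N : ℝ) ^ (δ * γ) := by
      refine (Real.rpow_le_rpow (div_nonneg (zs_pos _ _).le (zs_pos _ _).le) h6 (by linarith)).trans ?_
      rw [Real.mul_rpow hR0.le (by positivity)]
      apply le_of_eq
      congr 1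
      rw [← Real.rpow_natCast, ← Real.rpow_mul hN0.le, ← Real.rpow_mul hN0.le]
      congr 1
      rw [hγd]
      unfold sc
      push_cast
      ring
    have e1 : ((2:ℝ) ^ (j + 1)) ^ (1 - γ * (1 - δ)) * 2 ^ (γ * (1 - δ) - 1) = (N : ℝ) ^ (1 - γ * (1 - δ)) := by
      have e2 : ((2:ℝ) ^ (j + 1)) = (N : ℝ) * 2 := by rw [hN]; push_cast; ring
      rw [e2, Real.mul_rpow hN0.le (by norm_num), mul_assoc, ← Real.rpow_add (by norm_num)]
      rw [show 1 - γ * (1 - δ) + (γ * (1 - δ) - 1) = 0 by ring, Real.rpow_zero, mul_one]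
    have e3 : (N : ℝ) ^ (δ * γ) * (N : ℝ) ^ (1 - γ) = (N : ℝ) ^ (1 - γ * (1 - δ)) := by
      rw [← Real.rpow_add hN0]
      congr 1
      ring
    have hX : 0 ≤ (N : ℝ) ^ (1 - γ) := by positivity
    calc 2 ^ q * q * ((zs (c + 2) (3 * N) x0 / zs (c + 2) m x0) ^ ((q - 2) / 2) *
          (2 * (B * (N : ℝ) ^ (1 - γ)))) * (1 / (q - 2)) ≤
        2 ^ q * q * ((R ^ ((q - 2) / 2) * (N : ℝ) ^ (δ * γ)) *
          (2 * (B * (N : ℝ) ^ (1 - γ)))) * (1 / (q - 2)) := by gcongr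
      _ = 2 ^ q * q * (R ^ ((q - 2) / 2) * (2 * B)) * (1 / (q - 2)) *
          ((N : ℝ) ^ (δ * γ) * (N : ℝ) ^ (1 - γ)) := by ring
      _ = D2 * ((2:ℝ) ^ (j + 1)) ^ (1 - γ * (1 - δ)) := by
          rw [e3, ← e1, hD2]
          ring
      _ ≤ (D + D2) * ((2:ℝ) ^ (j + 1)) ^ (1 - γ * (1 - δ)) := by
          apply mul_le_mul_of_nonneg_right _ (by positivity)
          linarith

end Pool.Agent.N303.SH
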