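import Pool.Agent.N303.SH.K7

set_option autoImplicit false

/-! Sum over the dyadic blocks; the whole range of exponents. -/

open MeasureTheory Metric Set Filter Topology Measure
open scoped ENNReal RealInnerProductSpace Pointwise NNReal

namespace Pool.Agent.N303.SH

theorem mink_fin {α : Type*} [MeasurableSpace α] (μ : Measure α) (p : ℝ) (hp : 1 ≤ p)
    (u : ℕ → α → ℝ≥0∞) (hu : ∀ j, Measurable (u j)) (n : ℕ) :
    (∫⁻ a, (∑ j ∈ Finset.range n, u j a) ^ p ∂μ) ^ (1 / p) ≤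
      ∑ j ∈ Finset.range n, (∫⁻ a, (u j a) ^ p ∂μ) ^ (1 / p) := by
  have hp0 : 0 < p := by linarith
  induction n with
  | zero =>
    simp [ENNReal.zero_rpow_of_pos hp0, hp0]
  | succ n ih =>
    rw [Finset.sum_range_succ]
    have h := ENNReal.lintegral_Lp_add_le (μ := μ) (p := p)
      (f := fun a => ∑ j ∈ Finset.range n, u j a) (g := u n)
      (Finset.measurable_fun_sum _ fun j _ => hu j).aemeasurable (hu n).aemeasurable hp
    simp only [Pi.add_apply] at h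
    simp only [Finset.sum_range_succ]
    exact h.trans (add_le_add_left ih _)

theorem mink {α : Type*} [MeasurableSpace α] (μ : Measure α) (p : ℝ) (hp : 1 ≤ p)
    (u : ℕ → α → ℝ≥0∞) (hu : ∀ j, Measurable (u j)) :
    ∫⁻ a, (∑' j, u j a) ^ p ∂μ ≤ (∑' j, (∫⁻ a, (u j a) ^ p ∂μ) ^ (1 / p)) ^ p := by
  have hp0 : 0 < p := by linarith
  have e1 : ∀ a, (∑' j, u j a) ^ p = ⨆ n : ℕ, (∑ j ∈ Finset.range n, u j a) ^ p := by
    intro a
    rw [ENNReal.tsum_eq_iSup_nat]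
    exact (ENNReal.orderIsoRpow p hp0).map_iSup _
  have hmono : Monotone fun (n : ℕ) (a : α) => (∑ j ∈ Finset.range n, u j a) ^ p := by
    intro m n hmn a
    apply ENNReal.rpow_le_rpow _ hp0.le
    exact Finset.sum_le_sum_of_subset (Finset.range_mono hmn)
  simp only [e1]
  rw [lintegral_iSup (fun n => (Finset.measurable_fun_sum _ fun j _ => hu j).pow_const p) hmono]
  apply iSup_le
  intro n
  have h1 := mink_fin μ p hp u hu n
  have h2 : ∑ j ∈ Finset.range n, (∫⁻ a, (u j a) ^ p ∂μ) ^ (1 / p) ≤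
      ∑' j, (∫⁻ a, (u j a) ^ p ∂μ) ^ (1 / p) := ENNReal.sum_le_tsum _
  have h3 := ENNReal.rpow_le_rpow (h1.trans h2) hp0.le
  rw [← ENNReal.rpow_mul, one_div_mul_cancel hp0.ne', ENNReal.rpow_one] at h3
  exact h3

variable {c : ℕ}

theorem all_blocks (hc : 1 ≤ c) {q δ c0 : ℝ} (hq2 : 2 < q) (hq4 : q < 4) (hδ0 : 0 ≤ δ) (hδ1 : δ < 1)
    (hc0 : 0 < c0) (hc1 : c0 ≤ 1) (hη : 1 < sc c * (q - 2) * (1 - δ)) :
    ∃ C : ℝ, 0 ≤ C ∧ ∀ (K : Set ℕ), Sparse δ c0 K → ∀ g : S (c + 2) → ℂ, Measurable g →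
      MemLp g 2 (sg (c + 2)) → Deg K g → ∫⁻ ξ, ‖ft g ξ‖ₑ ^ q ≤
        ENNReal.ofReal C * ∫⁻ y, ‖g y‖ₑ ^ q ∂(sg (c + 2)) := by
  obtain ⟨C, hC0, hC⟩ := dyad hc hq2 hq4 hδ0 hδ1 hc0 hc1 hη
  have hq0 : 0 < q := by linarith
  set e := 1 - sc c * (q - 2) * (1 - δ) with he
  have he0 : e < 0 := by rw [he]; linarith
  set r : ℝ := (2:ℝ) ^ (e / q) with hr
  have hr0 : 0 < r := by positivity
  have hr1 : r < 1 := Real.rpow_lt_one_of_one_lt_of_neg (by norm_num) (div_neg_of_neg_of_pos he0 hq0)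
  have hsum : HasSum (fun j : ℕ => C ^ (1 / q) * r ^ j) (C ^ (1 / q) * (1 - r)⁻¹) :=
    (hasSum_geometric_of_lt_one hr0.le hr1).mul_left _
  set A : ℝ := C ^ (1 / q) * (1 - r)⁻¹ with hA
  have hA0 : 0 ≤ A := by
    have : 0 < (1 - r)⁻¹ := by
      apply inv_pos.2; linarith
    positivity
  refine ⟨A ^ q, by positivity, fun K hK g hgm hg2 hg => ?_⟩
  set G : ℝ≥0∞ := ∫⁻ y, ‖g y‖ₑ ^ q ∂(sg (c + 2)) with hG
  have hm : ∀ j, Measurable fun ξ : E (c + 2) => ‖ft (blk (dj K j) g) ξ‖ₑ := fun j =>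
    (ft_cont (int_cc (blk_cont _ g))).measurable.enorm
  calc ∫⁻ ξ, ‖ft g ξ‖ₑ ^ q ≤ ∫⁻ ξ, (∑' j, ‖ft (blk (dj K j) g) ξ‖ₑ) ^ q := by
        apply lintegral_mono
        intro ξ
        exact ENNReal.rpow_le_rpow (ft_le_tsum hg2 hg ξ) hq0.le
    _ ≤ (∑' j, (∫⁻ ξ, ‖ft (blk (dj K j) g) ξ‖ₑ ^ q) ^ (1 / q)) ^ q :=
        mink volume q (by linarith) _ hm
    _ ≤ (∑' j : ℕ, ENNReal.ofReal (C ^ (1 / q) * r ^ j) * G ^ (1 / q)) ^ q := by
        apply ENNReal.rpow_le_rpow _ hq0.le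
        apply ENNReal.tsum_le_tsum
        intro j
        refine (ENNReal.rpow_le_rpow (hC K hK g hgm hg2 hg j) (by positivity)).trans (le_of_eq ?_)
        rw [ENNReal.mul_rpow_of_nonneg _ _ (by positivity), ENNReal.ofReal_rpow_of_nonneg (by positivity)
          (by positivity)]
        congr 2
        rw [Real.mul_rpow hC0 (by positivity), ← Real.rpow_natCast 2 j, ← Real.rpow_mul (by norm_num),
          ← Real.rpow_mul (by norm_num), hr, ← Real.rpow_natCast, ← Real.rpow_mul (by norm_num)]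
        congr 2
        field_simp
    _ = (ENNReal.ofReal A * G ^ (1 / q)) ^ q := by
        rw [ENNReal.tsum_mul_right, ← ENNReal.ofReal_tsum_of_nonneg (fun j => by positivity)
          hsum.summable, hsum.tsum_eq]
    _ = ENNReal.ofReal (A ^ q) * G := by
        rw [ENNReal.mul_rpow_of_nonneg _ _ hq0.le, ENNReal.ofReal_rpow_of_nonneg hA0 hq0.le,
          ← ENNReal.rpow_mul, one_div_mul_cancel hq0.ne', ENNReal.rpow_one]

end Pool.Agent.N303.SH
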