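import Pool.Agent.N303.SH.K8

set_option autoImplicit false

/-! The whole range of exponents; superpositions. -/

open MeasureTheory Metric Set Filter Topology Measure
open scoped ENNReal RealInnerProductSpace Pointwise NNReal

namespace Pool.Agent.N303.SH

variable {c : ℕ}

lemma Sparse.mono {δ c0 c1 : ℝ} {K : Set ℕ} (h : Sparse δ c0 K) (h1 : c1 ≤ c0) : Sparse δ c1 K := by
  intro k hk k' hk' hlt
  have h2 := h k hk k' hk' hlt
  have h3 : c1 * (k : ℝ) ^ (1 - δ) ≤ c0 * (k : ℝ) ^ (1 - δ) := mul_le_mul_of_nonneg_right h1 (by positivity)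
  linarith

lemma ft_enorm_le {n : ℕ} (g : S n → ℂ) (ξ : E n) : ‖ft g ξ‖ₑ ≤ ∫⁻ y, ‖g y‖ₑ ∂(sg n) := by
  unfold ft
  refine (enorm_integral_le_lintegral_enorm _).trans (le_of_eq ?_)
  apply lintegral_congr
  intro x
  rw [enorm_mul, ← Complex.ofReal_neg]
  have : ‖Complex.exp ((-(2 * Real.pi * ⟪(x : E n), ξ⟫) : ℝ) * Complex.I)‖ₑ = 1 := by
    rw [← ofReal_norm, Complex.norm_exp_ofReal_mul_I, ENNReal.ofReal_one]
  rw [this, one_mul]

lemma ft_congr {n : ℕ} {f g : S n → ℂ} (h : f =ᵐ[sg n] g) : ft f = ft g := by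
  funext ξ
  unfold ft
  apply integral_congr_ae
  filter_upwards [h] with x hx
  rw [hx]

lemma Deg.congr {n : ℕ} {K : Set ℕ} {f g : S n → ℂ} (h : f =ᵐ[sg n] g) (hf : Deg K f) : Deg K g := by
  intro k hk i
  rw [← hf k hk i]
  apply integral_congr_ae
  filter_upwards [h] with x hx
  rw [hx]

theorem single (hc : 1 ≤ c) {q δ c0 : ℝ} (hδ0 : 0 ≤ δ) (hδ1 : δ < 1 / 2) (hc0 : 0 < c0)
    (hq : 2 + 2 / (((c : ℝ) + 1) * (1 - δ)) < q) :
    ∃ C : ℝ≥0, ∀ (K : Set ℕ), Sparse δ c0 K → ∀ g : S (c + 2) → ℂ,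
      MemLp g (ENNReal.ofReal q) (sg (c + 2)) → Deg K g →
      eLpNorm (ft g) (ENNReal.ofReal q) volume ≤ C * eLpNorm g (ENNReal.ofReal q) (sg (c + 2)) := by
  have hc' : (1:ℝ) ≤ c := by exact_mod_cast hc
  set u : ℝ := ((c : ℝ) + 1) * (1 - δ) with hu
  have hu1 : 1 < u := by rw [hu]; nlinarith
  set q0 : ℝ := 2 + 2 / u with hq0
  have h2u : 2 / u < 2 := by
    rw [div_lt_iff₀ (by linarith)]; linarith
  have h2u0 : 0 < 2 / u := by positivity
  have hq04 : q0 < 4 := by rw [hq0]; linarith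
  set q1 : ℝ := (q0 + min q 4) / 2 with hq1
  have hmin : q0 < min q 4 := lt_min hq hq04
  have h01 : q0 < q1 := by rw [hq1]; linarith
  have h1m : q1 < min q 4 := by rw [hq1]; linarith
  have h1q : q1 < q := h1m.trans_le (min_le_left _ _)
  have h14 : q1 < 4 := h1m.trans_le (min_le_right _ _)
  have h12 : 2 < q1 := by linarith
  have hη : 1 < sc c * (q1 - 2) * (1 - δ) := by
    have h3 : 2 / u < q1 - 2 := by linarith
    rw [div_lt_iff₀ (by linarith)] at h3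
    unfold sc
    rw [hu] at h3
    linarith
  obtain ⟨C1, hC10, hC1⟩ := all_blocks hc h12 h14 hδ0 (by linarith : δ < 1) (lt_min hc0 one_pos)
    (min_le_right _ _) hη
  set V : ℝ≥0∞ := sg (c + 2) univ with hV
  have hVt : V ≠ ∞ := measure_ne_top _ _
  have hV0 : V ≠ 0 := by
    have := V_pos c
    intro h
    rw [Measure.real, ← hV, h] at this
    simp at this
  set V1 : ℝ≥0∞ := V ^ (1 / 1 - 1 / q) with hV1
  set V2 : ℝ≥0∞ := V ^ (1 / q1 - 1 / q) with hV2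
  have hV1t : V1 ≠ ∞ := ENNReal.rpow_ne_top_of_ne_zero hV0 hVt
  have hV2t : V2 ≠ ∞ := ENNReal.rpow_ne_top_of_ne_zero hV0 hVt
  set W : ℝ≥0∞ := V1 ^ (q - q1) * (ENNReal.ofReal C1 * V2 ^ q1) with hW
  have hWt : W ≠ ∞ := by
    rw [hW]
    exact ENNReal.mul_ne_top (ENNReal.rpow_ne_top_of_nonneg (by linarith) hV1t)
      (ENNReal.mul_ne_top ENNReal.ofReal_ne_top (ENNReal.rpow_ne_top_of_nonneg (by linarith) hV2t))
  have hqp : 0 < q := by linarith
  have hWt2 : W ^ (1 / q) ≠ ∞ := ENNReal.rpow_ne_top_of_nonneg (by positivity) hWt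
  refine ⟨(W ^ (1 / q)).toNNReal, fun K hK g0 hg0 hdeg0 => ?_⟩
  rw [ENNReal.coe_toNNReal hWt2]
  set g := hg0.1.mk g0 with hg
  have hae : g0 =ᵐ[sg (c + 2)] g := hg0.1.ae_eq_mk
  have hgm : Measurable g := hg0.1.stronglyMeasurable_mk.measurable
  have hgL : MemLp g (ENNReal.ofReal q) (sg (c + 2)) := (memLp_congr_ae hae).1 hg0
  have hdeg : Deg K g := Deg.congr hae hdeg0
  rw [ft_congr hae, eLpNorm_congr_ae hae]
  have hg2 : MemLp g 2 (sg (c + 2)) := by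
    apply hgL.mono_exponent
    rw [show (2 : ℝ≥0∞) = ENNReal.ofReal 2 by norm_num]
    exact ENNReal.ofReal_le_ofReal (by linarith)
  have hgS : AEStronglyMeasurable g (sg (c + 2)) := hgL.1
  have hqe : (ENNReal.ofReal q) ≠ 0 := by
    rw [Ne, ENNReal.ofReal_eq_zero]; linarith
  rw [eLpNorm_eq_eLpNorm' hqe ENNReal.ofReal_ne_top, eLpNorm_eq_eLpNorm' hqe ENNReal.ofReal_ne_top,
    ENNReal.toReal_ofReal hqp.le]
  set a := eLpNorm' g q (sg (c + 2)) with ha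
  have b1 : ∀ ξ, ‖ft g ξ‖ₑ ≤ a * V1 := by
    intro ξ
    refine (ft_enorm_le g ξ).trans ?_
    have := eLpNorm'_le_eLpNorm'_mul_rpow_measure_univ (p := 1) (q := q) one_pos (by linarith) hgS
    refine le_trans (le_of_eq ?_) this
    unfold eLpNorm'
    simp
  have b2 : ∫⁻ y, ‖g y‖ₑ ^ q1 ∂(sg (c + 2)) ≤ (a * V2) ^ q1 := by
    have h3 := eLpNorm'_le_eLpNorm'_mul_rpow_measure_univ (p := q1) (q := q) (by linarith) h1q.le hgS
    have h4 := ENNReal.rpow_le_rpow h3 (by linarith : 0 ≤ q1)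
    refine le_trans (le_of_eq ?_) h4
    unfold eLpNorm'
    rw [← ENNReal.rpow_mul, one_div_mul_cancel (by linarith), ENNReal.rpow_one]
  have b3 : ∫⁻ ξ, ‖ft g ξ‖ₑ ^ q ≤ a ^ q * W := by
    calc ∫⁻ ξ, ‖ft g ξ‖ₑ ^ q = ∫⁻ ξ, ‖ft g ξ‖ₑ ^ (q - q1) * ‖ft g ξ‖ₑ ^ q1 := by
          apply lintegral_congr
          intro ξ
          rw [← ENNReal.rpow_add_of_nonneg _ _ (by linarith) (by linarith)]
          congr 1
          ring
      _ ≤ ∫⁻ ξ, (a * V1) ^ (q - q1) * ‖ft g ξ‖ₑ ^ q1 := by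
          apply lintegral_mono
          intro ξ
          exact mul_le_mul' (ENNReal.rpow_le_rpow (b1 ξ) (by linarith)) le_rfl
      _ = (a * V1) ^ (q - q1) * ∫⁻ ξ, ‖ft g ξ‖ₑ ^ q1 := by
          rw [lintegral_const_mul]
          exact (ft_cont (hgL.integrable (by
            rw [← ENNReal.ofReal_one]; exact ENNReal.ofReal_le_ofReal (by linarith)))).measurable.enorm.pow_const _
      _ ≤ (a * V1) ^ (q - q1) * (ENNReal.ofReal C1 * (a * V2) ^ q1) := by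
          refine mul_le_mul' le_rfl ?_
          exact (hC1 K (hK.mono (min_le_left _ _)) g hgm hg2 hdeg).trans (mul_le_mul' le_rfl b2)
      _ = a ^ q * W := by
          rw [ENNReal.mul_rpow_of_nonneg _ _ (by linarith), ENNReal.mul_rpow_of_nonneg _ _ (by linarith),
            show a ^ q = a ^ (q - q1) * a ^ q1 by
              rw [← ENNReal.rpow_add_of_nonneg _ _ (by linarith) (by linarith)]
              congr 1; ring, hW]
          ring
  have b4 := ENNReal.rpow_le_rpow b3 (by positivity : 0 ≤ 1 / q)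
  rw [ENNReal.mul_rpow_of_nonneg _ _ (by positivity), ← ENNReal.rpow_mul, mul_one_div_cancel hqp.ne',
    ENNReal.rpow_one, mul_comm] at b4
  exact b4

lemma ft_mod {n : ℕ} (g : S n → ℂ) (η ξ : E n) :
    ft (fun x => Complex.exp ((⟪η, (x : E n)⟫ : ℝ) * Complex.I) * g x) ξ =
      ft g (ξ - (2 * Real.pi)⁻¹ • η) := by
  unfold ft
  refine integral_congr_ae (Filter.Eventually.of_forall fun x => ?_)
  simp only
  rw [← mul_assoc, ← Complex.exp_add, inner_sub_right, real_inner_smul_right,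
    real_inner_comm (x : E n) η]
  have hpi := Real.pi_ne_zero
  congr 2
  push_cast
  field_simp
  ring

theorem super {n : ℕ} {q : ℝ} (hq : 1 ≤ q) {C : ℝ≥0} {η : ℕ → E n} {h : ℕ → S n → ℂ}
    (hL : ∀ j, MemLp (h j) (ENNReal.ofReal q) (sg n))
    (hC : ∀ j, eLpNorm (ft (h j)) (ENNReal.ofReal q) volume ≤ C * eLpNorm (h j) (ENNReal.ofReal q) (sg n))
    (hs : ∑' j, eLpNorm (h j) (ENNReal.ofReal q) (sg n) ≠ ∞) :
    Continuous (ft fun x => ∑' j, Complex.exp ((⟪η j, (x : E n)⟫ : ℝ) * Complex.I) * h j x) ∧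
    eLpNorm (ft fun x => ∑' j, Complex.exp ((⟪η j, (x : E n)⟫ : ℝ) * Complex.I) * h j x)
      (ENNReal.ofReal q) volume ≤ C * ∑' j, eLpNorm (h j) (ENNReal.ofReal q) (sg n) := by
  have hqp : 0 < q := by linarith
  have hqe : (ENNReal.ofReal q) ≠ 0 := by
    rw [Ne, ENNReal.ofReal_eq_zero]; linarith
  set V : ℝ≥0∞ := sg n univ with hV
  have hVt : V ≠ ∞ := measure_ne_top _ _
  set m : ℕ → S n → ℂ := fun j x => Complex.exp ((⟪η j, (x : E n)⟫ : ℝ) * Complex.I) * h j x with hm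
  have hnm : ∀ j x, ‖m j x‖ₑ = ‖h j x‖ₑ := by
    intro j x
    rw [hm]
    simp only
    rw [enorm_mul]
    have : ‖Complex.exp ((⟪η j, (x : E n)⟫ : ℝ) * Complex.I)‖ₑ = 1 := by
      rw [← ofReal_norm, Complex.norm_exp_ofReal_mul_I, ENNReal.ofReal_one]
    rw [this, one_mul]
  have hms : ∀ j, AEStronglyMeasurable (m j) (sg n) := by
    intro j
    have : Continuous fun x : S n => Complex.exp ((⟪η j, (x : E n)⟫ : ℝ) * Complex.I) := by fun_prop
    exact this.aestronglyMeasurable.mul (hL j).1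
  have h1 : ∀ j, ∫⁻ y, ‖h j y‖ₑ ∂(sg n) ≤ eLpNorm (h j) (ENNReal.ofReal q) (sg n) * V ^ (1 - 1 / q) := by
    intro j
    have := eLpNorm'_le_eLpNorm'_mul_rpow_measure_univ (p := 1) (q := q) one_pos hq (hL j).1
    rw [eLpNorm_eq_eLpNorm' hqe ENNReal.ofReal_ne_top, ENNReal.toReal_ofReal hqp.le]
    rw [div_one (1:ℝ)] at this
    refine le_trans (le_of_eq ?_) this
    unfold eLpNorm'
    simp
  have hsum1 : ∑' j, ∫⁻ y, ‖h j y‖ₑ ∂(sg n) ≠ ∞ := by
    refine ne_top_of_le_ne_top ?_ (ENNReal.tsum_le_tsum h1)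
    rw [ENNReal.tsum_mul_right]
    refine ENNReal.mul_ne_top hs (ENNReal.rpow_ne_top_of_nonneg ?_ hVt)
    rw [sub_nonneg, div_le_one hqp]
    exact hq
  set G : S n → ℂ := fun x => ∑' j, m j x with hG
  have hftG : ∀ ξ, ft G ξ = ∑' j, ft (m j) ξ := by
    intro ξ
    unfold ft
    have e1 : ∀ x : S n, Complex.exp (-(2 * Real.pi * ⟪(x : E n), ξ⟫ : ℝ) * Complex.I) * G x =
        ∑' j, Complex.exp (-(2 * Real.pi * ⟪(x : E n), ξ⟫ : ℝ) * Complex.I) * m j x := by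
      intro x
      rw [hG]
      simp only
      rw [tsum_mul_left]
    simp only [e1]
    refine integral_tsum (fun j => ?_) ?_
    · have : Continuous fun x : S n => Complex.exp (-(2 * Real.pi * ⟪(x : E n), ξ⟫ : ℝ) * Complex.I) := by
        fun_prop
      exact this.aestronglyMeasurable.mul (hms j)
    · refine ne_top_of_le_ne_top hsum1 (le_of_eq ?_)
      congr 1
      funext j
      apply lintegral_congr
      intro x
      rw [enorm_mul, hnm, ← Complex.ofReal_neg]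
      have : ‖Complex.exp ((-(2 * Real.pi * ⟪(x : E n), ξ⟫) : ℝ) * Complex.I)‖ₑ = 1 := by
        rw [← ofReal_norm, Complex.norm_exp_ofReal_mul_I, ENNReal.ofReal_one]
      rw [this, one_mul]
  have hmi : ∀ j, Integrable (m j) (sg n) := by
    intro j
    refine ⟨hms j, ?_⟩
    rw [hasFiniteIntegral_iff_enorm]
    simp only [hnm]
    exact lt_top_iff_ne_top.2 (ENNReal.ne_top_of_tsum_ne_top hsum1 j)
  have hmc : ∀ j, Continuous (ft (m j)) := fun j => ft_cont (hmi j)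
  have hcont : Continuous (ft G) := by
    have e2 : ft G = fun ξ => ∑' j, ft (m j) ξ := funext hftG
    rw [e2]
    apply continuous_tsum (u := fun j => (∫⁻ y, ‖h j y‖ₑ ∂(sg n)).toReal) hmc (ENNReal.summable_toReal hsum1)
    intro j ξ
    have h3 := ft_enorm_le (m j) ξ
    simp only [hnm] at h3
    rw [← toReal_enorm]
    exact ENNReal.toReal_mono (ENNReal.ne_top_of_tsum_ne_top hsum1 j) h3
  refine ⟨hcont, ?_⟩
  have h4 : ∀ ξ, ‖ft G ξ‖ₑ ≤ ∑' j, ‖ft (m j) ξ‖ₑ := by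
    intro ξ
    rw [hftG]
    exact enorm_tsum_le_tsum_enorm
  have h5 : ∀ j, (∫⁻ ξ, ‖ft (m j) ξ‖ₑ ^ q) ^ (1 / q) ≤ C * eLpNorm (h j) (ENNReal.ofReal q) (sg n) := by
    intro j
    refine le_trans (le_of_eq ?_) (hC j)
    rw [eLpNorm_eq_eLpNorm' hqe ENNReal.ofReal_ne_top, ENNReal.toReal_ofReal hqp.le]
    unfold eLpNorm'
    congr 1
    have e3 : ∀ ξ, ‖ft (m j) ξ‖ₑ ^ q = ‖ft (h j) (ξ - (2 * Real.pi)⁻¹ • η j)‖ₑ ^ q := by
      intro ξ
      rw [hm]
      simp only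
      rw [ft_mod]
    simp only [e3]
    exact lintegral_sub_right_eq_self (fun ξ => ‖ft (h j) ξ‖ₑ ^ q) ((2 * Real.pi)⁻¹ • η j)
  rw [eLpNorm_eq_eLpNorm' (μ := (volume : Measure (E n))) hqe ENNReal.ofReal_ne_top,
    ENNReal.toReal_ofReal hqp.le]
  unfold eLpNorm'
  have h6 : ∫⁻ ξ, ‖ft G ξ‖ₑ ^ q ≤ (∑' j, (∫⁻ ξ, ‖ft (m j) ξ‖ₑ ^ q) ^ (1 / q)) ^ q := by
    refine le_trans ?_ (mink volume q hq (fun j ξ => ‖ft (m j) ξ‖ₑ) fun j => (hmc j).measurable.enorm)
    apply lintegral_mono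
    intro ξ
    exact ENNReal.rpow_le_rpow (h4 ξ) hqp.le
  have h7 := ENNReal.rpow_le_rpow h6 (by positivity : 0 ≤ 1 / q)
  rw [← ENNReal.rpow_mul, mul_one_div_cancel hqp.ne', ENNReal.rpow_one] at h7
  refine h7.trans ?_
  rw [← ENNReal.tsum_mul_left]
  exact ENNReal.tsum_le_tsum h5

end Pool.Agent.N303.SH
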